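import Pool.Agent.H43.G.R_seed8.TH894.CW2

set_option autoImplicit false

/-! Correlations with a nice function at shifts after few changes of digits: the final forms. -/

namespace Pool.Agent.TH894.CW
open Finset
open Pool.Agent.H373R2.T7 (SupSmall exI)
open Pool.Agent.W93.DG
open Pool.Agent.W93.LM (FC FC_pars Nice spread)
open Pool.Agent.TH894.SM (change change_lt Win Win_sub un dl_abs)

lemma change_succ (b K N : ℕ) (hN : N < b ^ K) (f : ℕ → ℕ) (S : Finset ℕ) (hS : K ∉ S) :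
    change b (K + 1) N f S = change b K N f S := by
  unfold change
  rw [sum_range_succ, if_neg hS, Nat.div_eq_of_lt hN]
  simp

/-- the property that a correlation along `a n + y` is large -/
def Bd1 (b : ℕ) (u : ℕ → ℂ) (ε : ℝ) (a : ℕ) (g : ℕ → ℂ) (K : ℕ) (y : ℕ) : Prop :=
  ∃ X : ℕ, a * X ≤ b ^ K ∧ ε * (b : ℝ) ^ K < ‖∑ n ∈ Icc 1 X, g n * exI u (((a * n : ℕ) : ℤ) + y)‖

lemma Bd1_imp (b : ℕ) (u : ℕ → ℂ) (ε : ℝ) (a : ℕ) (ha : 1 ≤ a) (g : ℕ → ℂ) (hg : ∀ n, ‖g n‖ ≤ 1) (K y : ℕ) (hy : y < b ^ K)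
    (h : Bd1 b u ε a g K y) : Bdc b u ε (fun m => if a ∣ m then g (m / a) else 0) (K + 1) (y : ℤ) := by
  obtain ⟨X, hX, hbig⟩ := h
  refine ⟨?_, by positivity, ?_, a * X, by rw [Nat.add_sub_cancel]; exact hX, ?_⟩
  · intro n
    show ‖(if a ∣ n then g (n / a) else 0 : ℂ)‖ ≤ 1
    split_ifs
    · exact hg _
    · rw [norm_zero]; norm_num
  · rw [Nat.add_sub_cancel]
    exact_mod_cast hy
  · rw [Nat.add_sub_cancel]
    rw [spread (fun m => exI u ((m : ℤ) + y)) g a X ha] at hbig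
    exact hbig

/-- choices in three windows -/
theorem final_C (b : ℕ) (hb : 2 ≤ b) (u : ℕ → ℂ) (hu : Nice u) : ∃ R A : ℕ, 1 ≤ R ∧ 1 ≤ A ∧ ∀ ε : ℝ, 0 < ε → ∀ L : ℕ, ∃ t K₀ : ℕ,
    ∀ K : ℕ, K₀ ≤ K → (∀ q, 8 * R * t ≤ (Win (hh b A (K + 1)) (K + 1) q).card) ∧
    ∀ N : ℕ, N < b ^ K → ∀ f : ℕ → ℕ, (∀ j, f j < b ∧ f j ≠ N / b ^ j % b) →
    ∀ r : Fin 3 → ℕ, (∀ q, t ≤ r q ∧ 8 * R * r q ≤ (Win (hh b A (K + 1)) (K + 1) q).card) →
    ∀ (a : Fin L → ℕ) (g : Fin L → ℕ → ℂ), (∀ l, 1 ≤ a l) → (∀ l n, ‖g l n‖ ≤ 1) →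
    ∀ S ⊆ Fintype.piFinset (fun q => powersetCard (r q) (Win (hh b A (K + 1)) (K + 1) q)),
    (∀ T ∈ S, ∃ l, Bd1 b u ε (a l) (g l) K (change b K N f (un T))) →
    (S.card : ℝ) ≤ ε * ∏ q, ((Win (hh b A (K + 1)) (K + 1) q).card.choose (r q) : ℝ) := by
  classical
  obtain ⟨R, A, hR, hA, H⟩ := choices_C b hb u hu
  refine ⟨R, A, hR, hA, fun ε hε L => ?_⟩
  have hm0 : 0 < min ε 1 := lt_min hε (by norm_num)
  obtain ⟨t, h1⟩ := GN.few_general b hb R A hR hA (Bdc b u (min ε 1)) (H (min ε 1) hm0 (min_le_right _ _)) (ε / (L + 1)) (by positivity)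
  obtain ⟨k₀, hk₀⟩ := h1 t le_rfl
  obtain ⟨k1, hk1⟩ := hh_small b A 4 hb
  refine ⟨t, k₀ + k1 + b ^ (8 * R * t) + 4, fun K hK => ⟨?_, fun N hN f hf r hr a g ha hg S hS hSb => ?_⟩⟩
  · have h2 := hk1 (K + 1) (by omega)
    have hK0 : 1 ≤ b ^ (8 * R * t) := Nat.one_le_pow _ _ (by omega)
    have h3 : 8 * R * t ≤ Nat.log b (K + 1) := Nat.le_log_of_pow_le (by omega) (by omega)
    have h4 : 8 * R * t + 2 ≤ hh b A (K + 1) := by
      unfold hh
      calc 8 * R * t + 2 ≤ 2 * 1 * (Nat.log b (K + 1) + 1) := by omega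
        _ ≤ 2 * A * (Nat.log b (K + 1) + 1) := Nat.mul_le_mul_right _ (Nat.mul_le_mul_left _ hA)
    intro q
    unfold Win
    split_ifs <;> rw [Nat.card_Ico] <;> omega
  · have hh2 := hk1 (K + 1) (by omega)
    have hNK : N < b ^ (K + 1) := hN.trans (Nat.pow_lt_pow_right (by omega) (by omega))
    -- the pieces
    have hpiece : ∀ l : Fin L, ((S.filter (fun T => Bd1 b u ε (a l) (g l) K (change b K N f (un T)))).card : ℝ) ≤
        ε / (L + 1) * ∏ q, ((Win (hh b A (K + 1)) (K + 1) q).card.choose (r q) : ℝ) := by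
      intro l
      refine hk₀ (K + 1) (by omega) (fun m => if a l ∣ m then g l (m / a l) else 0) N hNK f hf r (fun q => (hr q).1) (fun q => (hr q).2) _
        ((filter_subset _ _).trans hS) ?_
      intro T hT
      rw [mem_filter] at hT
      have hT1 := hS hT.1
      rw [Fintype.mem_piFinset] at hT1
      have hKT : K ∉ un T := by
        intro hx
        unfold un at hx
        rw [mem_biUnion] at hx
        obtain ⟨q, _, hxq⟩ := hx
        have h3 := (mem_powersetCard.1 (hT1 q)).1 hxq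
        have := mem_Ico.1 (Win_sub _ _ q (by omega) h3)
        omega
      rw [change_succ b K N hN f _ hKT]
      apply Bd1_imp b u (min ε 1) (a l) (ha l) (g l) (hg l) K _ (change_lt b K N (by omega) f (fun j => (hf j).1) _)
      obtain ⟨X, hX, hbig⟩ := hT.2
      refine ⟨X, hX, lt_of_le_of_lt ?_ hbig⟩
      exact mul_le_mul_of_nonneg_right (min_le_left _ _) (by positivity)
    have hcover : S ⊆ univ.biUnion (fun l : Fin L => S.filter (fun T => Bd1 b u ε (a l) (g l) K (change b K N f (un T)))) := by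
      intro T hT
      obtain ⟨l, hl⟩ := hSb T hT
      rw [mem_biUnion]
      exact ⟨l, mem_univ _, mem_filter.2 ⟨hT, hl⟩⟩
    have hP0 : 0 ≤ ∏ q, ((Win (hh b A (K + 1)) (K + 1) q).card.choose (r q) : ℝ) := prod_nonneg fun q _ => Nat.cast_nonneg _
    calc (S.card : ℝ) ≤ ((univ.biUnion (fun l : Fin L => S.filter (fun T => Bd1 b u ε (a l) (g l) K (change b K N f (un T))))).card : ℝ) := by
          exact_mod_cast card_le_card hcover
      _ ≤ ∑ l : Fin L, ((S.filter (fun T => Bd1 b u ε (a l) (g l) K (change b K N f (un T)))).card : ℝ) := by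
          exact_mod_cast card_biUnion_le
      _ ≤ ∑ _l : Fin L, ε / (L + 1) * ∏ q, ((Win (hh b A (K + 1)) (K + 1) q).card.choose (r q) : ℝ) := sum_le_sum fun l _ => hpiece l
      _ = (L / (L + 1) : ℝ) * (ε * ∏ q, ((Win (hh b A (K + 1)) (K + 1) q).card.choose (r q) : ℝ)) := by
          rw [sum_const, card_univ, Fintype.card_fin, nsmul_eq_mul]
          ring
      _ ≤ 1 * (ε * ∏ q, ((Win (hh b A (K + 1)) (K + 1) q).card.choose (r q) : ℝ)) := by
          apply mul_le_mul_of_nonneg_right _ (mul_nonneg hε.le hP0)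
          rw [div_le_one (by positivity)]
          linarith
      _ = _ := one_mul _

/-- Hamming spheres -/
theorem final_S (b : ℕ) (hb : 2 ≤ b) (u : ℕ → ℂ) (hu : Nice u) : ∃ R : ℕ, 1 ≤ R ∧ ∀ ε : ℝ, 0 < ε → ∀ L : ℕ, ∃ (C : ℝ) (K₀ : ℕ), 0 < C ∧
    ∀ K : ℕ, K₀ ≤ K → ∀ N : ℕ, N < b ^ K → ∀ f : ℕ → ℕ, (∀ j, f j < b ∧ f j ≠ N / b ^ j % b) →
    ∀ r : ℕ, C * K / Real.log K ≤ r → R * r ≤ K →
    ∀ (a : Fin L → ℕ) (g : Fin L → ℕ → ℂ), (∀ l, 1 ≤ a l) → (∀ l n, ‖g l n‖ ≤ 1) →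
    ∀ S ⊆ powersetCard r (Ico 1 K),
    (∀ T ∈ S, ∃ l, Bd1 b u ε (a l) (g l) K (change b K N f T)) →
    (S.card : ℝ) ≤ ε * ((K - 1).choose r : ℝ) := by
  classical
  obtain ⟨R, A, hR, hA, H⟩ := choices_C b hb u hu
  refine ⟨24 * R, by omega, fun ε hε L => ?_⟩
  have hm0 : 0 < min ε 1 := lt_min hε (by norm_num)
  obtain ⟨C, k₀, hC, hk₀⟩ := GN.few_uniform b hb R A hR hA (Bdc b u (min ε 1)) (H (min ε 1) hm0 (min_le_right _ _)) (ε / (L + 1)) (by positivity)
  refine ⟨2 * C, k₀ + 4, by positivity, fun K hK N hN f hf r hr hr' a g ha hg S hS hSb => ?_⟩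
  have hNK : N < b ^ (K + 1) := hN.trans (Nat.pow_lt_pow_right (by omega) (by omega))
  have hK4 : (4 : ℝ) ≤ K := by exact_mod_cast (by omega : 4 ≤ K)
  have hlK : 0 < Real.log K := Real.log_pos (by linarith)
  have hr2 : C * ((K + 1 : ℕ) : ℝ) / Real.log ((K + 1 : ℕ) : ℝ) ≤ r := by
    refine le_trans ?_ hr
    push_cast
    have h1 : Real.log K ≤ Real.log ((K : ℝ) + 1) := Real.log_le_log (by linarith) (by linarith)
    calc C * ((K : ℝ) + 1) / Real.log ((K : ℝ) + 1) ≤ C * ((K : ℝ) + 1) / Real.log K := by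
          apply div_le_div_of_nonneg_left (by positivity) hlK h1
      _ ≤ 2 * C * K / Real.log K := by
          apply div_le_div_of_nonneg_right _ hlK.le
          nlinarith
  have hpiece : ∀ l : Fin L, ((S.filter (fun T => Bd1 b u ε (a l) (g l) K (change b K N f T))).card : ℝ) ≤
      ε / (L + 1) * ((K - 1).choose r : ℝ) := by
    intro l
    refine hk₀ (K + 1) (by omega) (fun m => if a l ∣ m then g l (m / a l) else 0) N hNK f hf r hr2 (by omega) _
      ((filter_subset _ _).trans (by rw [Nat.add_sub_cancel]; exact hS)) ?_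
    intro T hT
    rw [mem_filter] at hT
    have hT1 := mem_powersetCard.1 (hS hT.1)
    have hKT : K ∉ T := by
      intro hx
      have := mem_Ico.1 (hT1.1 hx)
      omega
    rw [change_succ b K N hN f _ hKT]
    apply Bd1_imp b u (min ε 1) (a l) (ha l) (g l) (hg l) K _ (change_lt b K N (by omega) f (fun j => (hf j).1) _)
    obtain ⟨X, hX, hbig⟩ := hT.2
    refine ⟨X, hX, lt_of_le_of_lt ?_ hbig⟩
    exact mul_le_mul_of_nonneg_right (min_le_left _ _) (by positivity)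
  have hcover : S ⊆ univ.biUnion (fun l : Fin L => S.filter (fun T => Bd1 b u ε (a l) (g l) K (change b K N f T))) := by
    intro T hT
    obtain ⟨l, hl⟩ := hSb T hT
    rw [mem_biUnion]
    exact ⟨l, mem_univ _, mem_filter.2 ⟨hT, hl⟩⟩
  calc (S.card : ℝ) ≤ ((univ.biUnion (fun l : Fin L => S.filter (fun T => Bd1 b u ε (a l) (g l) K (change b K N f T)))).card : ℝ) := by
        exact_mod_cast card_le_card hcover
    _ ≤ ∑ l : Fin L, ((S.filter (fun T => Bd1 b u ε (a l) (g l) K (change b K N f T))).card : ℝ) := by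
        exact_mod_cast card_biUnion_le
    _ ≤ ∑ _l : Fin L, ε / (L + 1) * ((K - 1).choose r : ℝ) := sum_le_sum fun l _ => hpiece l
    _ = (L / (L + 1) : ℝ) * (ε * ((K - 1).choose r : ℝ)) := by
        rw [sum_const, card_univ, Fintype.card_fin, nsmul_eq_mul]
        ring
    _ ≤ 1 * (ε * ((K - 1).choose r : ℝ)) := by
        apply mul_le_mul_of_nonneg_right _ (by positivity)
        rw [div_le_one (by positivity)]
        linarith
    _ = _ := one_mul _

end Pool.Agent.TH894.CW
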