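import Pool.Agent.H43.G.R_seed8.TH894.CW3
import Pool.Agent.H43.G.R_seed8.W93.TD6

set_option autoImplicit false

/-! The fourth moment for functions which are dominated by the von Mangoldt function. -/

namespace Pool.Agent.TH894.CW
open Finset
open Pool.Agent.H807R2.Dav
open Pool.Agent.H373R2.T7
open Pool.Agent.W93.DG
open Pool.Agent.W93.HD
open Pool.Agent.W93.LM (FC FC_pars)
open Pool.Agent.TH894.SM (Ph yq Ph_four fourth cor cor_FF cor_neg cor_nonneg VV VV_nonneg VV_four dl dl_abs)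

lemma fourthC (δ : ℕ → ℤ) (J : Finset ℕ) (M : ℕ) (V : ℕ → ℝ) (c : ℤ → ℂ) (T : ℤ)
    (hT : ∀ q ∈ (J ×ˢ J) ×ˢ (J ×ˢ J), |yq δ q| ≤ T)
    (hV : ∀ y : ℤ, |y| ≤ T → ∑ r ∈ range M, ((V r : ℝ) : ℂ) * ee (-((y : ℝ) * ((r : ℝ) / (M : ℝ)))) = (M : ℂ) * c y) :
    ((∑ r ∈ range M, ∑ r' ∈ range M, V r * V r' * ‖Ph δ J (((r' : ℝ) - r) / (M : ℝ))‖ ^ 4 : ℝ) : ℂ) =
      (M : ℂ) ^ 2 * ∑ q ∈ (J ×ˢ J) ×ˢ (J ×ˢ J), c (yq δ q) * c (-yq δ q) := by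
  have h1 : ((∑ r ∈ range M, ∑ r' ∈ range M, V r * V r' * ‖Ph δ J (((r' : ℝ) - r) / (M : ℝ))‖ ^ 4 : ℝ) : ℂ) =
      ∑ r ∈ range M, ∑ r' ∈ range M, ∑ q ∈ (J ×ˢ J) ×ˢ (J ×ˢ J),
        (((V r : ℝ) : ℂ) * ee (-((yq δ q : ℝ) * ((r : ℝ) / (M : ℝ))))) *
        (((V r' : ℝ) : ℂ) * ee (-(((-yq δ q : ℤ) : ℝ) * ((r' : ℝ) / (M : ℝ))))) := by
    rw [Complex.ofReal_sum]
    apply sum_congr rfl
    intro r _
    rw [Complex.ofReal_sum]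
    apply sum_congr rfl
    intro r' _
    rw [Complex.ofReal_mul, Ph_four, mul_sum]
    apply sum_congr rfl
    intro q _
    have e1 : ee ((yq δ q : ℝ) * (((r' : ℝ) - r) / (M : ℝ))) = ee (-((yq δ q : ℝ) * ((r : ℝ) / (M : ℝ)))) *
        ee (-(((-yq δ q : ℤ) : ℝ) * ((r' : ℝ) / (M : ℝ)))) := by
      rw [← ee_add]
      congr 1
      push_cast
      ring
    rw [e1]
    push_cast
    ring
  rw [h1]
  have h2 : ∑ r ∈ range M, ∑ r' ∈ range M, ∑ q ∈ (J ×ˢ J) ×ˢ (J ×ˢ J),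
        (((V r : ℝ) : ℂ) * ee (-((yq δ q : ℝ) * ((r : ℝ) / (M : ℝ))))) *
        (((V r' : ℝ) : ℂ) * ee (-(((-yq δ q : ℤ) : ℝ) * ((r' : ℝ) / (M : ℝ))))) =
      ∑ q ∈ (J ×ˢ J) ×ˢ (J ×ˢ J), (∑ r ∈ range M, ((V r : ℝ) : ℂ) * ee (-((yq δ q : ℝ) * ((r : ℝ) / (M : ℝ))))) *
        (∑ r' ∈ range M, ((V r' : ℝ) : ℂ) * ee (-(((-yq δ q : ℤ) : ℝ) * ((r' : ℝ) / (M : ℝ))))) := by
    have h3 : ∀ r ∈ range M, ∑ r' ∈ range M, ∑ q ∈ (J ×ˢ J) ×ˢ (J ×ˢ J),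
        (((V r : ℝ) : ℂ) * ee (-((yq δ q : ℝ) * ((r : ℝ) / (M : ℝ))))) *
        (((V r' : ℝ) : ℂ) * ee (-(((-yq δ q : ℤ) : ℝ) * ((r' : ℝ) / (M : ℝ))))) =
        ∑ q ∈ (J ×ˢ J) ×ˢ (J ×ˢ J), (((V r : ℝ) : ℂ) * ee (-((yq δ q : ℝ) * ((r : ℝ) / (M : ℝ))))) *
        (∑ r' ∈ range M, ((V r' : ℝ) : ℂ) * ee (-(((-yq δ q : ℤ) : ℝ) * ((r' : ℝ) / (M : ℝ))))) := by
      intro r _
      rw [sum_comm]
      apply sum_congr rfl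
      intro q _
      rw [mul_sum]
    rw [sum_congr rfl h3, sum_comm]
    apply sum_congr rfl
    intro q _
    rw [sum_mul]
  rw [h2, mul_sum]
  apply sum_congr rfl
  intro q hq
  have h4 := hT q hq
  have h5 : |(-yq δ q)| ≤ T := by rw [abs_neg]; exact h4
  rw [hV _ h4, hV _ h5]
  ring

/-- the correlation -/
noncomputable def corC (f : ℕ → ℂ) (X : ℕ) (y : ℤ) : ℂ :=
  ∑ a ∈ Icc 1 X, ∑ a' ∈ Icc 1 X, (if (a : ℤ) - a' = y then f a * (starRingEnd ℂ) (f a') else 0)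

lemma corC_FC (f : ℕ → ℂ) (X M : ℕ) (hM : 1 ≤ M) (y : ℤ) (hy : |y| + X ≤ M) :
    ∑ r ∈ range M, ((‖FC f X M r‖ ^ 2 : ℝ) : ℂ) * ee (-((y : ℝ) * ((r : ℝ) / (M : ℝ)))) = (M : ℂ) * corC f X y := by
  have h1 : ∀ r ∈ range M, ((‖FC f X M r‖ ^ 2 : ℝ) : ℂ) * ee (-((y : ℝ) * ((r : ℝ) / (M : ℝ)))) =
      ∑ a ∈ Icc 1 X, ∑ a' ∈ Icc 1 X, (f a * (starRingEnd ℂ) (f a')) * ee ((r : ℝ) * ((((a : ℤ) - a' - y : ℤ) : ℝ) / M)) := by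
    intro r _
    have h2 : ((‖FC f X M r‖ ^ 2 : ℝ) : ℂ) = FC f X M r * (starRingEnd ℂ) (FC f X M r) := by
      rw [Complex.mul_conj']
      push_cast
      rfl
    rw [h2]
    unfold FC
    rw [map_sum, sum_mul_sum, sum_mul]
    apply sum_congr rfl
    intro a _
    rw [sum_mul]
    apply sum_congr rfl
    intro a' _
    rw [map_mul, conj_ee]
    have e1 : ee ((r : ℝ) * ((((a : ℤ) - a' - y : ℤ) : ℝ) / M)) = ee ((a : ℝ) * ((r : ℝ) / M)) * ee (-((a' : ℝ) * ((r : ℝ) / M))) *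
        ee (-((y : ℝ) * ((r : ℝ) / (M : ℝ)))) := by
      rw [← ee_add, ← ee_add]
      congr 1
      push_cast
      ring
    rw [e1]
    ring
  rw [sum_congr rfl h1, sum_comm]
  unfold corC
  rw [mul_sum]
  apply sum_congr rfl
  intro a ha
  rw [sum_comm, mul_sum]
  apply sum_congr rfl
  intro a' ha'
  rw [mem_Icc] at ha ha'
  rw [← mul_sum, orth M hM]
  by_cases h : (a : ℤ) - a' = y
  · rw [if_pos h, if_pos (by rw [h, sub_self]; exact dvd_zero _)]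
    ring
  · rw [if_neg h, if_neg, mul_zero, mul_zero]
    intro hd
    have hyy : -|y| ≤ y ∧ y ≤ |y| := ⟨neg_abs_le y, le_abs_self y⟩
    have := Int.eq_zero_of_abs_lt_dvd hd (by rw [abs_lt]; constructor <;> omega)
    omega

lemma corC_norm (f : ℕ → ℂ) (w : ℕ → ℝ) (hfw : ∀ n, ‖f n‖ ≤ w n) (X : ℕ) (y : ℤ) : ‖corC f X y‖ ≤ cor w X y := by
  unfold corC cor
  refine (norm_sum_le _ _).trans (sum_le_sum fun a _ => ?_)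
  refine (norm_sum_le _ _).trans (sum_le_sum fun a' _ => ?_)
  split_ifs
  · rw [norm_mul, RCLike.norm_conj]
    exact mul_le_mul (hfw a) (hfw a') (norm_nonneg _) ((norm_nonneg _).trans (hfw a))
  · rw [norm_zero]

/-- domination -/
theorem four_dom (δ : ℕ → ℤ) (J : Finset ℕ) (X M : ℕ) (hM : 1 ≤ M) (g : ℕ → ℂ) (w : ℕ → ℝ) (hgw : ∀ n, ‖g n‖ ≤ w n) (T : ℤ)
    (hT : ∀ q ∈ (J ×ˢ J) ×ˢ (J ×ˢ J), |yq δ q| ≤ T) (hTM : T + X ≤ M) :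
    ∑ r ∈ range M, ∑ r' ∈ range M, ‖FC g X M r‖ ^ 2 * ‖FC g X M r'‖ ^ 2 * ‖Ph δ J (((r' : ℝ) - r) / (M : ℝ))‖ ^ 4 ≤
      ∑ r ∈ range M, ∑ r' ∈ range M, ‖FF w X M r‖ ^ 2 * ‖FF w X M r'‖ ^ 2 * ‖Ph δ J (((r' : ℝ) - r) / (M : ℝ))‖ ^ 4 := by
  have h1 := fourthC δ J M (fun r => ‖FC g X M r‖ ^ 2) (corC g X) T hT (fun y hy => corC_FC g X M hM y (by linarith))
  have h2 := fourth δ J M (fun r => ‖FF w X M r‖ ^ 2) (cor w X) T hT (fun y hy => cor_FF w X M hM y (by linarith))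
  rw [h2]
  have hnn : 0 ≤ ∑ r ∈ range M, ∑ r' ∈ range M, ‖FC g X M r‖ ^ 2 * ‖FC g X M r'‖ ^ 2 * ‖Ph δ J (((r' : ℝ) - r) / (M : ℝ))‖ ^ 4 :=
    sum_nonneg fun _ _ => sum_nonneg fun _ _ => by positivity
  have h3 : ∑ r ∈ range M, ∑ r' ∈ range M, ‖FC g X M r‖ ^ 2 * ‖FC g X M r'‖ ^ 2 * ‖Ph δ J (((r' : ℝ) - r) / (M : ℝ))‖ ^ 4 =
      ‖(M : ℂ) ^ 2 * ∑ q ∈ (J ×ˢ J) ×ˢ (J ×ˢ J), corC g X (yq δ q) * corC g X (-yq δ q)‖ := by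
    rw [← h1, Complex.norm_real, Real.norm_of_nonneg hnn]
  rw [h3, norm_mul, norm_pow, Complex.norm_natCast]
  apply mul_le_mul_of_nonneg_left _ (by positivity)
  refine (norm_sum_le _ _).trans (sum_le_sum fun q _ => ?_)
  rw [norm_mul]
  have hw0 : ∀ n, 0 ≤ w n := fun n => (norm_nonneg _).trans (hgw n)
  exact mul_le_mul (corC_norm g w hgw X _) (corC_norm g w hgw X _) (norm_nonneg _) (cor_nonneg w hw0 X _)

/-- Cauchy's inequality with a kernel -/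
lemma cs_kernel (s : Finset ℕ) (A B : ℕ → ℝ) (P : ℕ → ℕ → ℝ) (hA : ∀ r, 0 ≤ A r) (hB : ∀ r, 0 ≤ B r) (hP : ∀ r r', 0 ≤ P r r') (QA QB : ℝ)
    (hQA : ∑ r ∈ s, ∑ r' ∈ s, A r ^ 2 * A r' ^ 2 * P r r' ≤ QA) (hQB : ∑ r ∈ s, ∑ r' ∈ s, B r ^ 2 * B r' ^ 2 * P r r' ≤ QB) :
    ∑ r ∈ s, ∑ r' ∈ s, (A r * B r) * (A r' * B r') * P r r' ≤ √QA * √QB := by
  have h1 : ∑ r ∈ s, ∑ r' ∈ s, (A r * B r) * (A r' * B r') * P r r' =
      ∑ p ∈ s ×ˢ s, ((A p.1 * A p.2) * √(P p.1 p.2)) * ((B p.1 * B p.2) * √(P p.1 p.2)) := by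
    rw [sum_product]
    apply sum_congr rfl
    intro r _
    apply sum_congr rfl
    intro r' _
    have := Real.mul_self_sqrt (hP r r')
    simp only
    calc (A r * B r) * (A r' * B r') * P r r' = (A r * B r) * (A r' * B r') * (√(P r r') * √(P r r')) := by rw [this]
      _ = _ := by ring
  rw [h1]
  refine (Real.sum_mul_le_sqrt_mul_sqrt _ _ _).trans ?_
  have h2 : ∀ D : ℕ → ℝ, ∑ p ∈ s ×ˢ s, ((D p.1 * D p.2) * √(P p.1 p.2)) ^ 2 = ∑ r ∈ s, ∑ r' ∈ s, D r ^ 2 * D r' ^ 2 * P r r' := by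
    intro D
    rw [sum_product]
    apply sum_congr rfl
    intro r _
    apply sum_congr rfl
    intro r' _
    simp only
    rw [mul_pow, Real.sq_sqrt (hP r r')]
    ring
  rw [h2, h2]
  exact mul_le_mul (Real.sqrt_le_sqrt hQA) (Real.sqrt_le_sqrt hQB) (Real.sqrt_nonneg _) (Real.sqrt_nonneg _)

end Pool.Agent.TH894.CW
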