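import Pool.Agent.H43.G.R_seed8.TH894.CW4

set_option autoImplicit false

/-! The second moment with a factor dominated by the von Mangoldt function. -/

namespace Pool.Agent.TH894.CW
open Finset
open Pool.Agent.H807R2.Dav
open Pool.Agent.H373R2.T7
open Pool.Agent.W93.DG
open Pool.Agent.W93.HD
open Pool.Agent.W93.LM (FC FC_pars)
open Pool.Agent.W93.RD (EE)
open Pool.Agent.TH894.SM (Ph yq Ph_four fourth cor cor_FF cor_neg cor_nonneg VV VV_nonneg VV_four dl dl_abs Om nw card_Om Pos mu mu_pos Ph_le)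

lemma yq_le (b : ℕ) (hb : 2 ≤ b) (K : ℕ) (hK : 3 ≤ K) (e : ℕ → ℤ) (he : ∀ j, e j ≠ 0 ∧ |e j| < b) (J : Finset ℕ) (hJ : J ⊆ range (K - 2)) :
    ∀ q ∈ (J ×ˢ J) ×ˢ (J ×ˢ J), |yq (dl b e) q| ≤ ((b ^ K : ℕ) : ℤ) := by
  have hsmall : ∀ j ∈ J, |dl b e j| ≤ (b : ℤ) ^ (K - 2) := fun j hj => dl_abs b hb e he j (K - 2) (mem_range.1 (hJ hj))
  have hb4 : 4 * (b : ℤ) ^ (K - 2) ≤ ((b ^ K : ℕ) : ℤ) := by
    have e1 : ((b ^ K : ℕ) : ℤ) = (b : ℤ) ^ 2 * (b : ℤ) ^ (K - 2) := by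
      push_cast; rw [← pow_add]; congr 1; omega
    rw [e1]
    apply mul_le_mul_of_nonneg_right _ (by positivity)
    have : (2 : ℤ) ^ 2 ≤ (b : ℤ) ^ 2 := pow_le_pow_left₀ (by norm_num) (by exact_mod_cast hb) 2
    linarith
  intro q hq
  rw [mem_product, mem_product, mem_product] at hq
  have a0 := hsmall _ hq.1.1
  have a1 := hsmall _ hq.1.2
  have a2 := hsmall _ hq.2.1
  have a3 := hsmall _ hq.2.2
  unfold yq
  rw [abs_le] at a0 a1 a2 a3 ⊢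
  constructor <;> linarith

/-- the fourth moment for functions dominated by the von Mangoldt function -/
theorem four_L (b : ℕ) (hb : 2 ≤ b) : ∃ C : ℝ, 0 ≤ C ∧ ∃ k₀ : ℕ, ∀ K : ℕ, k₀ ≤ K → ∀ e : ℕ → ℤ, (∀ j, e j ≠ 0 ∧ |e j| < b) →
    ∀ J ⊆ range (K - 2), K ≤ 4 * J.card → ∀ g : ℕ → ℂ, (∀ n, ‖g n‖ ≤ ArithmeticFunction.vonMangoldt n) →
    ∑ r ∈ range (b ^ (K + 1)), ∑ r' ∈ range (b ^ (K + 1)), ‖FC g (b ^ K) (b ^ (K + 1)) r‖ ^ 2 * ‖FC g (b ^ K) (b ^ (K + 1)) r'‖ ^ 2 *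
        ‖Ph (dl b e) J (((r' : ℝ) - r) / ((b ^ (K + 1) : ℕ) : ℝ))‖ ^ 4 ≤
      C * (((b ^ (K + 1) : ℕ) : ℝ) * ((b ^ K : ℕ) : ℝ)) ^ 2 * (J.card : ℝ) ^ 4 := by
  classical
  obtain ⟨C, hC, h⟩ := VV_four b hb
  obtain ⟨k₀, h0⟩ := h 2
  refine ⟨C, hC, k₀ + 8, fun K hK e he J hJ hJc g hg => ?_⟩
  obtain ⟨hL1, hL2⟩ := logX b K hb
  have hK8 : (8 : ℝ) ≤ K := by exact_mod_cast (by omega : 8 ≤ K)
  obtain ⟨L, hL⟩ : ∃ L, L = Real.log ((b ^ K : ℕ) : ℝ) := ⟨_, rfl⟩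
  have hL4 : 4 ≤ L := by rw [hL]; linarith
  have hzz := h0 K (by omega) ⌈L⌉₊ (by rw [← hL]; exact Nat.le_ceil _) (by
    rw [← hL]
    have := Nat.ceil_lt_add_one (show 0 ≤ L by linarith)
    nlinarith) e he J hJ hJc
  have hXM : 2 * b ^ K ≤ b ^ (K + 1) := by rw [pow_succ']; exact Nat.mul_le_mul_right _ hb
  refine (four_dom (dl b e) J (b ^ K) (b ^ (K + 1)) (Nat.one_le_pow _ _ (by omega)) g (fun n => ArithmeticFunction.vonMangoldt n) hg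
    ((b ^ K : ℕ) : ℤ) (yq_le b hb K (by omega) e he J hJ) (by exact_mod_cast (by omega : b ^ K + b ^ K ≤ b ^ (K + 1)))).trans ?_
  refine le_trans ?_ hzz
  apply sum_le_sum
  intro r _
  apply sum_le_sum
  intro r' _
  apply mul_le_mul_of_nonneg_right _ (by positivity)
  have e1 : ∀ r, ‖FF (fun n => ArithmeticFunction.vonMangoldt n) (b ^ K) (b ^ (K + 1)) r‖ ^ 2 ≤ VV ⌈L⌉₊ (b ^ K) (b ^ (K + 1)) r := by
    intro r
    unfold VV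
    have : 0 ≤ ‖FF (lamz ⌈L⌉₊) (b ^ K) (b ^ (K + 1)) r‖ ^ 2 := sq_nonneg _
    linarith
  exact mul_le_mul (e1 r) (e1 r') (sq_nonneg _) (VV_nonneg _ _ _ _)

lemma sqrt_mul_le (a b c : ℝ) (ha : 0 ≤ a) (hc : 0 ≤ c) (h : a * b ≤ c ^ 2) : √a * √b ≤ c := by
  rw [← Real.sqrt_mul ha, Real.sqrt_le_left hc]
  exact h

theorem second_L (b : ℕ) (hb : 2 ≤ b) (R : ℕ) (hR : 1 ≤ R) (A : ℕ) (hA : 3 ≤ A) (Cu : ℝ) (hCu : 0 ≤ Cu) (δ : ℝ) (hδ : 0 < δ) :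
    ∃ t₀ : ℕ, ∀ t : ℕ, t₀ ≤ t → ∃ k₀ : ℕ, ∀ K : ℕ, k₀ ≤ K → ∀ (N : ℕ) (e : ℕ → ℤ), (∀ j, e j ≠ 0 ∧ |e j| < b) →
    ∀ J : Fin 3 → Finset ℕ, Pos b R K (hh b A K) J → ∀ g : ℕ → ℂ, (∀ n, ‖g n‖ ≤ ArithmeticFunction.vonMangoldt n) →
    ∀ Fu : ℕ → ℂ,
    (∀ r < b ^ (K + 1), ∀ S : Finset ℕ, (∀ r' ∈ S, r' < b ^ (K + 1) ∧
        Bad b R K (hh b A K) (K / (16 * b)) ((mu b * r' + mu b * (b ^ (K + 1) - r)) % b ^ (K + 1))) →
      ∑ r' ∈ S, ‖Fu r'‖ ^ 2 ≤ ((b ^ (K + 1) : ℕ) : ℝ) * ((b ^ K : ℕ) : ℝ) / (K : ℝ) ^ 10) →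
    (∑ r ∈ range (b ^ (K + 1)), ‖Fu r‖ ^ 2 ≤ ((b ^ (K + 1) : ℕ) : ℝ) * ((b ^ K : ℕ) : ℝ) * (K : ℝ) ^ 3) →
    (∑ r ∈ range (b ^ (K + 1)), ∑ r' ∈ range (b ^ (K + 1)), ‖Fu r‖ ^ 2 * ‖Fu r'‖ ^ 2 *
        ‖Ph (dl b e) (J 1) (((r' : ℝ) - r) / ((b ^ (K + 1) : ℕ) : ℝ))‖ ^ 4 ≤
      Cu * (((b ^ (K + 1) : ℕ) : ℝ) * ((b ^ K : ℕ) : ℝ)) ^ 2 * ((J 1).card : ℝ) ^ 4) →
    ∑ ω ∈ Om J t, ‖EE (fun r => (starRingEnd ℂ) (FC (fun n => (starRingEnd ℂ) (g n)) (b ^ K) (b ^ (K + 1)) r) * Fu r)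
        (b ^ (K + 1)) (nw b N e ω)‖ ^ 2 ≤
      δ * (((b ^ (K + 1) : ℕ) : ℝ) * ((b ^ K : ℕ) : ℝ)) ^ 2 * (Om J t).card := by
  classical
  have hbn : 0 < b := by omega
  have hb1 : 1 < b := by omega
  have hbr : (2 : ℝ) ≤ b := by exact_mod_cast hb
  have hb0 : (0 : ℝ) < b := by linarith
  obtain ⟨η, hη0, hη1, hcore⟩ := core b hb R hR
  obtain ⟨k2, h2⟩ := hcore A hA
  obtain ⟨C, hC, k3, h3⟩ := four_L b hb
  obtain ⟨k4, h4⟩ := hh_small b A (512 * b) hb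
  obtain ⟨t₀, ht₀⟩ := pow_small η (δ / 2 / (√C * √Cu + 1)) hη0 hη1 (by positivity)
  refine ⟨t₀ + 4, fun t ht => ?_⟩
  obtain ⟨k5, hk5⟩ := exists_nat_ge (2 * (36 * (b : ℝ) ^ 2) / δ)
  refine ⟨k2 + k3 + k4 + k5 + 256 * b + 64, fun K hK N e he J hJ g hg Fu hbad hmassu hfouru => ?_⟩
  obtain ⟨X, hX⟩ : ∃ X, X = b ^ K := ⟨_, rfl⟩
  obtain ⟨M, hM⟩ : ∃ M, M = b ^ (K + 1) := ⟨_, rfl⟩
  have hXM : X ≤ M := by rw [hX, hM]; exact Nat.pow_le_pow_right hbn (by omega)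
  have hX1 : 1 ≤ X := by rw [hX]; exact Nat.one_le_pow _ _ hbn
  have hX0 : (0 : ℝ) < X := by exact_mod_cast (by omega : 0 < X)
  have hM0 : (0 : ℝ) < M := by exact_mod_cast (by omega : 0 < M)
  have hK0 : (0 : ℝ) < K := by exact_mod_cast (by omega : 0 < K)
  have hK1 : (1 : ℝ) ≤ K := by exact_mod_cast (by omega : 1 ≤ K)
  obtain ⟨hL1, hL2⟩ := logX b K hb
  obtain ⟨Fg, hFg⟩ : ∃ Fg : ℕ → ℂ, Fg = FC (fun n => (starRingEnd ℂ) (g n)) X M := ⟨_, rfl⟩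
  obtain ⟨V, hV⟩ : ∃ V : ℕ → ℂ, V = fun r => (starRingEnd ℂ) (Fg r) * Fu r := ⟨_, rfl⟩
  have hVn : ∀ r, ‖V r‖ = ‖Fg r‖ * ‖Fu r‖ := fun r => by rw [hV]; simp only [norm_mul, RCLike.norm_conj]
  have hVe : (fun r => (starRingEnd ℂ) (FC (fun n => (starRingEnd ℂ) (g n)) (b ^ K) (b ^ (K + 1)) r) * Fu r) = V := by
    rw [hV, hFg, hX, hM]
  rw [hVe]
  have hgc : ∀ n, ‖(starRingEnd ℂ) (g n)‖ ≤ ArithmeticFunction.vonMangoldt n := fun n => by rw [RCLike.norm_conj]; exact hg n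
  rw [← hX, ← hM] at hmassu hfouru
  have hMX0 : (0 : ℝ) ≤ M * X := by positivity
  have hg2 : ∑ r ∈ range M, ‖Fg r‖ ^ 2 ≤ (M * X) * (6 * b * K) := by
    rw [hFg, FC_pars _ X M (by omega) hXM]
    have e1 : ∑ n ∈ Icc 1 X, ‖(starRingEnd ℂ) (g n)‖ ^ 2 ≤ ∑ n ∈ Icc 1 X, ArithmeticFunction.vonMangoldt n ^ 2 :=
      sum_le_sum fun n _ => pow_le_pow_left₀ (norm_nonneg _) (hgc n) 2
    have e2 := sum_vM_sq X hX1
    rw [← hX] at hL2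
    calc (M : ℝ) * ∑ n ∈ Icc 1 X, ‖(starRingEnd ℂ) (g n)‖ ^ 2 ≤ M * (6 * X * (b * K)) := by
          apply mul_le_mul_of_nonneg_left _ hM0.le
          refine (e1.trans e2).trans ?_
          exact mul_le_mul_of_nonneg_left hL2 (by positivity)
      _ = _ := by ring
  have hmass : ∑ r ∈ range M, ‖V r‖ ≤ 6 * b * K ^ 2 * (M * X) := by
    simp only [hVn]
    refine (Real.sum_mul_le_sqrt_mul_sqrt _ _ _).trans ?_
    refine (mul_le_mul (Real.sqrt_le_sqrt hg2) (Real.sqrt_le_sqrt hmassu) (Real.sqrt_nonneg _) (Real.sqrt_nonneg _)).trans ?_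
    apply sqrt_mul_le _ _ _ (by positivity) (by positivity)
    have : (0 : ℝ) ≤ 6 * b * K ^ 4 * (M * X) ^ 2 := by positivity
    nlinarith
  have hbadV : ∀ r < b ^ (K + 1), ∀ S : Finset ℕ, (∀ r' ∈ S, r' < b ^ (K + 1) ∧
        Bad b R K (hh b A K) (K / (16 * b)) ((mu b * r' + mu b * (b ^ (K + 1) - r)) % b ^ (K + 1))) →
      ∑ r' ∈ S, ‖V r'‖ ≤ 6 * b * ((M : ℝ) * X / K ^ 4) := by
    intro r hr S hS
    have e1 := hbad r hr S hS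
    rw [← hX, ← hM] at e1
    simp only [hVn]
    refine (Real.sum_mul_le_sqrt_mul_sqrt _ _ _).trans ?_
    have hsub : S ⊆ range M := by
      intro r' hr'
      rw [mem_range, hM]
      exact (hS r' hr').1
    have e2 : ∑ r ∈ S, ‖Fg r‖ ^ 2 ≤ (M * X) * (6 * b * K) :=
      (sum_le_sum_of_subset_of_nonneg hsub fun _ _ _ => sq_nonneg _).trans hg2
    refine (mul_le_mul (Real.sqrt_le_sqrt e2) (Real.sqrt_le_sqrt e1) (Real.sqrt_nonneg _) (Real.sqrt_nonneg _)).trans ?_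
    apply sqrt_mul_le _ _ _ (by positivity) (by positivity)
    have e3 : (M * X : ℝ) * (6 * b * K) * (M * X / K ^ 10) = 6 * b * (M * X) ^ 2 / K ^ 9 := by
      field_simp
    have e4 : (6 * b * ((M : ℝ) * X / K ^ 4)) ^ 2 = 36 * b ^ 2 * (M * X) ^ 2 / K ^ 8 := by
      field_simp
      norm_num
    rw [e3, e4]
    apply div_le_div₀ (by positivity) _ (by positivity) (pow_le_pow_right₀ hK1 (by norm_num))
    apply mul_le_mul_of_nonneg_right _ (by positivity)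
    nlinarith
  have hmain := h2 K (by omega) N e he J hJ t (by omega) V _ hbadV
  rw [← hM] at hmain
  rw [← hM, ← hX]
  refine hmain.trans ?_
  apply mul_le_mul_of_nonneg_right _ (Nat.cast_nonneg _)
  have hgK : 512 * b * hh b A K ≤ K := h4 K (by omega)
  have hJ8 : 8 * hh b A K + 16 ≤ K := by
    have : 512 * 2 * hh b A K ≤ 512 * b * hh b A K := Nat.mul_le_mul_right _ (Nat.mul_le_mul_left _ hb)
    omega
  have hh1 : 1 ≤ hh b A K := by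
    unfold hh
    exact Nat.mul_pos (by omega) (by omega)
  obtain ⟨hJc, hJsub⟩ := Pos_card b R K (hh b A K) J hR hh1 hJ8 hJ
  have hfourg := h3 K (by omega) e he (J 1) hJsub hJc (fun n => (starRingEnd ℂ) (g n)) hgc
  rw [← hX, ← hM, ← hFg] at hfourg
  obtain ⟨T, hT⟩ : ∃ T : ℝ, T = ((J 1).card : ℝ) := ⟨_, rfl⟩
  have hT0 : 0 < T := by rw [hT]; exact_mod_cast (by omega : 0 < (J 1).card)
  rw [← hT] at hfourg hfouru ⊢
  have hfour : ∑ r ∈ range M, ∑ r' ∈ range M, ‖V r‖ * ‖V r'‖ * ‖Ph (dl b e) (J 1) (((r' : ℝ) - r) / (M : ℝ))‖ ^ 4 ≤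
      √C * √Cu * ((M * X) ^ 2 * T ^ 4) := by
    have e1 := cs_kernel (range M) (fun r => ‖Fg r‖) (fun r => ‖Fu r‖) (fun r r' => ‖Ph (dl b e) (J 1) (((r' : ℝ) - r) / (M : ℝ))‖ ^ 4)
      (fun _ => norm_nonneg _) (fun _ => norm_nonneg _) (fun _ _ => by positivity) _ _ hfourg hfouru
    simp only [hVn]
    refine e1.trans (le_of_eq ?_)
    have e2 : ∀ c : ℝ, √(c * ((M : ℝ) * X) ^ 2 * T ^ 4) = √c * (M * X * T ^ 2) := by
      intro c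
      have : c * ((M : ℝ) * X) ^ 2 * T ^ 4 = c * (M * X * T ^ 2) ^ 2 := by ring
      rw [this, Real.sqrt_mul' _ (by positivity), Real.sqrt_sq (by positivity)]
    rw [e2, e2]
    ring
  have hp := ht₀ t (by omega)
  have hη' : 0 ≤ (1 - η) ^ (t - 4) := pow_nonneg (by linarith) _
  have hpart1 : 6 * b * ((M : ℝ) * X / K ^ 4) * ∑ r ∈ range M, ‖V r‖ ≤ δ / 2 * (M * X) ^ 2 := by
    have e3 : 36 * (b : ℝ) ^ 2 / K ≤ δ / 2 := by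
      have e4 : 2 * (36 * (b : ℝ) ^ 2) / δ ≤ K := hk5.trans (by exact_mod_cast (by omega : k5 ≤ K))
      rw [div_le_iff₀ hδ] at e4
      rw [div_le_iff₀ hK0]
      linarith
    calc 6 * b * ((M : ℝ) * X / K ^ 4) * ∑ r ∈ range M, ‖V r‖ ≤ 6 * b * ((M : ℝ) * X / K ^ 4) * (6 * b * K ^ 2 * (M * X)) :=
          mul_le_mul_of_nonneg_left hmass (by positivity)
      _ = (36 * (b : ℝ) ^ 2 / K ^ 2) * (M * X) ^ 2 := by
          field_simp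
          norm_num
      _ ≤ (36 * (b : ℝ) ^ 2 / K) * (M * X) ^ 2 := by
          apply mul_le_mul_of_nonneg_right _ (by positivity)
          apply div_le_div_of_nonneg_left (by positivity) hK0
          nlinarith
      _ ≤ _ := mul_le_mul_of_nonneg_right e3 (by positivity)
  have hpart2 : (1 - η) ^ (t - 4) / T ^ 4 * ∑ r ∈ range M, ∑ r' ∈ range M, ‖V r‖ * ‖V r'‖ * ‖Ph (dl b e) (J 1) (((r' : ℝ) - r) / (M : ℝ))‖ ^ 4 ≤
      δ / 2 * (M * X) ^ 2 := by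
    calc _ ≤ (1 - η) ^ (t - 4) / T ^ 4 * (√C * √Cu * ((M * X) ^ 2 * T ^ 4)) := mul_le_mul_of_nonneg_left hfour (by positivity)
      _ = ((1 - η) ^ (t - 4) * (√C * √Cu)) * (M * X) ^ 2 := by field_simp
      _ ≤ (δ / 2 / (√C * √Cu + 1) * (√C * √Cu)) * (M * X) ^ 2 := by
          apply mul_le_mul_of_nonneg_right _ (by positivity)
          exact mul_le_mul_of_nonneg_right hp (by positivity)
      _ ≤ _ := by
          apply mul_le_mul_of_nonneg_right _ (by positivity)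
          rw [div_mul_eq_mul_div, div_le_iff₀ (by positivity)]
          nlinarith
  linarith

end Pool.Agent.TH894.CW
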