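import Pool.Agent.H43.G.R_seed8.TH894.SM10

set_option autoImplicit false

/-! Hamming spheres. -/

namespace Pool.Agent.TH894.SM
open Finset
open Pool.Agent.W93.DG

lemma dsum_lt (b : ℕ) (hb : 1 ≤ b) (a : ℕ → ℕ) (ha : ∀ j, a j < b) (K : ℕ) : ∑ i ∈ range K, a i * b ^ i < b ^ K := by
  induction K with
  | zero => simp
  | succ K ih =>
    rw [sum_range_succ, pow_succ]
    have h1 : a K ≤ b - 1 := by have := ha K; omega
    have h2 : a K * b ^ K ≤ (b - 1) * b ^ K := Nat.mul_le_mul_right _ h1
    have h3 : (b - 1) * b ^ K + b ^ K = b ^ K * b := by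
      conv_lhs => rw [← Nat.succ_mul]
      rw [Nat.succ_eq_add_one, Nat.sub_add_cancel hb, mul_comm]
    omega

lemma dsum_digit (b : ℕ) (hb : 1 ≤ b) (a : ℕ → ℕ) (ha : ∀ j, a j < b) (K j : ℕ) (hj : j < K) :
    (∑ i ∈ range K, a i * b ^ i) / b ^ j % b = a j := by
  induction K with
  | zero => omega
  | succ K ih =>
    rw [sum_range_succ]
    have hbj : 0 < b ^ j := by positivity
    by_cases h : j < K
    · have e : a K * b ^ K = (a K * b ^ (K - j)) * b ^ j := by
        rw [mul_assoc, ← pow_add, Nat.sub_add_cancel h.le]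
      rw [e, Nat.add_mul_div_right _ _ hbj]
      obtain ⟨d, hd⟩ : ∃ d, K - j = d + 1 := ⟨K - j - 1, by omega⟩
      rw [hd, pow_succ, ← mul_assoc, Nat.add_mul_mod_self_right]
      exact ih h
    · have hjK : j = K := by omega
      subst hjK
      rw [Nat.add_mul_div_right _ _ hbj, Nat.div_eq_of_lt (dsum_lt b hb a ha j), zero_add, Nat.mod_eq_of_lt (ha j)]

lemma change_digit (b K N : ℕ) (hb : 1 ≤ b) (f : ℕ → ℕ) (hf : ∀ j, f j < b) (S : Finset ℕ) (j : ℕ) (hj : j < K) :
    change b K N f S / b ^ j % b = if j ∈ S then f j else N / b ^ j % b := by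
  unfold change
  apply dsum_digit b hb (fun i => if i ∈ S then f i else N / b ^ i % b) _ K j hj
  intro i
  show (if i ∈ S then f i else N / b ^ i % b) < b
  split_ifs
  · exact hf i
  · exact Nat.mod_lt _ hb

lemma eq_of_digits (b K m n : ℕ) (hm : m < b ^ K) (hn : n < b ^ K) (h : ∀ j < K, m / b ^ j % b = n / b ^ j % b) : m = n := by
  rw [← Nat.mod_eq_of_lt hm, ← Nat.mod_eq_of_lt hn, ← sum_digits, ← sum_digits]
  apply sum_congr rfl
  intro i hi
  rw [h i (mem_range.1 hi)]

/-- extension of a function -/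
def extf (b N : ℕ) (V : Finset ℕ) (c : V → ℕ) (i : ℕ) : ℕ := if h : i ∈ V then c ⟨i, h⟩ else (N / b ^ i % b + 1) % b

/-- the numbers with `K` digits which differ from `N` in exactly `r` digits, in positions from `V`, and the new digits are allowed -/
def Sph (b K N : ℕ) (V : Finset ℕ) (F : ℕ → Finset ℕ) (r : ℕ) : Finset ℕ :=
  (range (b ^ K)).filter (fun n => (∀ i ∈ range K, n / b ^ i % b ≠ N / b ^ i % b → i ∈ V ∧ n / b ^ i % b ∈ F i) ∧
    ((range K).filter (fun i => n / b ^ i % b ≠ N / b ^ i % b)).card = r)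

theorem sphere_avg (b K N : ℕ) (hb : 2 ≤ b) (hN : N < b ^ K) (V : Finset ℕ) (hV : V ⊆ range K) (F : ℕ → Finset ℕ) (m : ℕ) (hm : 1 ≤ m)
    (hF : ∀ i, F i ⊆ range b ∧ N / b ^ i % b ∉ F i ∧ (F i).card = m) (r : ℕ) (ρ : ℝ)
    (B : Finset ℕ) (hB : B ⊆ Sph b K N V F r)
    (H : ∀ f : ℕ → ℕ, (∀ j, f j < b ∧ f j ≠ N / b ^ j % b) →
      (((powersetCard r V).filter (fun S => change b K N f S ∈ B)).card : ℝ) ≤ ρ * ((powersetCard r V).card : ℝ)) :
    (B.card : ℝ) ≤ ρ * (Sph b K N V F r).card := by
  classical
  have hb1 : 1 ≤ b := by omega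
  obtain ⟨P, hP⟩ : ∃ P : Finset (V → ℕ), P = Fintype.piFinset (fun i : V => F i) := ⟨_, rfl⟩
  obtain ⟨φ, hφ⟩ : ∃ φ : (V → ℕ) × Finset ℕ → ℕ, φ = fun p => change b K N (extf b N V p.1) p.2 := ⟨_, rfl⟩
  obtain ⟨D, hD⟩ : ∃ D : ℕ → Finset ℕ, D = fun n => (range K).filter (fun i => n / b ^ i % b ≠ N / b ^ i % b) := ⟨_, rfl⟩
  have hext : ∀ c ∈ P, ∀ j, extf b N V c j < b ∧ extf b N V c j ≠ N / b ^ j % b := by
    intro c hc j
    rw [hP, Fintype.mem_piFinset] at hc
    unfold extf
    split_ifs with h
    · have h1 := hc ⟨j, h⟩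
      have h2 := hF j
      refine ⟨mem_range.1 (h2.1 h1), fun h3 => h2.2.1 ?_⟩
      rw [← h3]
      exact h1
    · refine ⟨Nat.mod_lt _ hb1, ?_⟩
      have h1 := Nat.mod_lt (N / b ^ j) hb1
      intro h2
      by_cases h3 : N / b ^ j % b + 1 < b
      · rw [Nat.mod_eq_of_lt h3] at h2
        omega
      · have h4 : N / b ^ j % b + 1 = b := by omega
        rw [h4, Nat.mod_self] at h2
        omega
  have hdig : ∀ p ∈ P ×ˢ powersetCard r V, ∀ j < K, φ p / b ^ j % b = if j ∈ p.2 then extf b N V p.1 j else N / b ^ j % b := by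
    intro p hp j hj
    rw [mem_product] at hp
    rw [hφ]
    exact change_digit b K N hb1 _ (fun i => (hext p.1 hp.1 i).1) p.2 j hj
  have hDφ : ∀ p ∈ P ×ˢ powersetCard r V, D (φ p) = p.2 := by
    intro p hp
    have hp' := mem_product.1 hp
    have hp2 := mem_powersetCard.1 hp'.2
    rw [hD]
    ext i
    simp only [mem_filter, mem_range]
    constructor
    · rintro ⟨h1, h2⟩
      rw [hdig p hp i h1] at h2
      by_contra hcon
      rw [if_neg hcon] at h2
      exact h2 rfl
    · intro h1
      have h2 : i < K := mem_range.1 (hV (hp2.1 h1))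
      refine ⟨h2, ?_⟩
      rw [hdig p hp i h2, if_pos h1]
      exact (hext p.1 hp'.1 i).2
  have hmaps : ∀ p ∈ P ×ˢ powersetCard r V, φ p ∈ Sph b K N V F r := by
    intro p hp
    have hp' := mem_product.1 hp
    have hp2 := mem_powersetCard.1 hp'.2
    unfold Sph
    rw [mem_filter, mem_range]
    refine ⟨?_, ?_, ?_⟩
    · rw [hφ]
      exact change_lt b K N hb1 _ (fun i => (hext p.1 hp'.1 i).1) _
    · intro i hi h1
      have h2 := mem_range.1 hi
      rw [hdig p hp i h2] at h1 ⊢
      by_cases h3 : i ∈ p.2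
      · have h4 := hp2.1 h3
        refine ⟨h4, ?_⟩
        rw [if_pos h3]
        unfold extf
        rw [dif_pos h4]
        have h5 := hp'.1
        rw [hP, Fintype.mem_piFinset] at h5
        exact h5 ⟨i, h4⟩
      · rw [if_neg h3] at h1
        exact absurd rfl h1
    · have h1 := hDφ p hp
      rw [hD] at h1
      simp only at h1
      rw [h1]
      exact hp2.2
  have hfib : ∀ n ∈ Sph b K N V F r, ((P ×ˢ powersetCard r V).filter (fun p => φ p = n)).card = m ^ (V.card - r) := by
    intro n hn
    have hn' := hn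
    unfold Sph at hn'
    rw [mem_filter, mem_range] at hn'
    obtain ⟨hn1, hn2, hn3⟩ := hn'
    have hDn : D n ⊆ V := by
      rw [hD]
      intro i hi
      rw [mem_filter] at hi
      exact (hn2 i hi.1 hi.2).1
    have hDr : (D n).card = r := by rw [hD]; exact hn3
    have h1 : (P ×ˢ powersetCard r V).filter (fun p => φ p = n) =
        (Fintype.piFinset (fun i : V => if (i : ℕ) ∈ D n then {n / b ^ (i : ℕ) % b} else F i)) ×ˢ {D n} := by
      ext p
      rw [mem_filter, mem_product, mem_product, mem_singleton]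
      constructor
      · rintro ⟨⟨h1, h2⟩, h3⟩
        have hp : p ∈ P ×ˢ powersetCard r V := mem_product.2 ⟨h1, h2⟩
        have h4 := hDφ p hp
        rw [h3] at h4
        refine ⟨?_, h4.symm⟩
        rw [Fintype.mem_piFinset]
        intro i
        have h5 := mem_range.1 (hV i.2)
        have h6 := hdig p hp i h5
        rw [h3, ← h4] at h6
        split_ifs with h7
        · rw [if_pos h7] at h6
          unfold extf at h6
          rw [dif_pos i.2] at h6
          rw [mem_singleton, h6]
        · rw [hP, Fintype.mem_piFinset] at h1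
          exact h1 i
      · rintro ⟨h1, h2⟩
        rw [Fintype.mem_piFinset] at h1
        have h3 : p.1 ∈ P := by
          rw [hP, Fintype.mem_piFinset]
          intro i
          have h4 := h1 i
          split_ifs at h4 with h5
          · rw [mem_singleton] at h4
            rw [h4]
            rw [hD, mem_filter] at h5
            exact (hn2 i h5.1 h5.2).2
          · exact h4
        have h4 : p.2 ∈ powersetCard r V := by
          rw [h2, mem_powersetCard]
          exact ⟨hDn, hDr⟩
        refine ⟨⟨h3, h4⟩, ?_⟩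
        have hp : p ∈ P ×ˢ powersetCard r V := mem_product.2 ⟨h3, h4⟩
        apply eq_of_digits b K _ _ _ hn1
        · intro j hj
          rw [hdig p hp j hj, h2]
          split_ifs with h5
          · have h6 := hDn h5
            unfold extf
            rw [dif_pos h6]
            have h7 := h1 ⟨j, h6⟩
            rw [if_pos h5, mem_singleton] at h7
            exact h7
          · rw [hD, mem_filter, mem_range] at h5
            push_neg at h5
            exact (h5 hj).symm
        · have := hmaps p hp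
          unfold Sph at this
          rw [mem_filter, mem_range] at this
          exact this.1
    rw [h1, card_product, card_singleton, mul_one, Fintype.card_piFinset]
    have h2 : ∀ i : V, (if (i : ℕ) ∈ D n then ({n / b ^ (i : ℕ) % b} : Finset ℕ) else F i).card = if (i : ℕ) ∈ D n then 1 else m := by
      intro i
      split_ifs
      · exact card_singleton _
      · exact (hF i).2.2
    simp only [h2]
    rw [← attach_eq_univ, prod_attach V (fun i => if i ∈ D n then 1 else m), prod_ite, prod_const_one, one_mul, prod_const]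
    congr 1
    rw [← hDr, ← card_sdiff_of_subset hDn]
    congr 1
    ext i
    rw [mem_filter, mem_sdiff]
  have htot : (Sph b K N V F r).card * m ^ (V.card - r) = P.card * (powersetCard r V).card := by
    rw [← card_product, card_eq_sum_card_fiberwise hmaps, sum_congr rfl hfib, sum_const, smul_eq_mul]
  have hbad : B.card * m ^ (V.card - r) = ∑ c ∈ P, ((powersetCard r V).filter (fun S => φ (c, S) ∈ B)).card := by
    have h1 : ((P ×ˢ powersetCard r V).filter (fun p => φ p ∈ B)).card = B.card * m ^ (V.card - r) := by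
      rw [← sum_card_fiberwise_eq_card_filter, sum_congr rfl (fun n hn => hfib n (hB hn)), sum_const, smul_eq_mul]
    rw [← h1]
    rw [card_filter, sum_product]
    apply sum_congr rfl
    intro c _
    rw [card_filter]
  have hle : (B.card : ℝ) * (m : ℝ) ^ (V.card - r) ≤ ρ * ((Sph b K N V F r).card * (m : ℝ) ^ (V.card - r)) := by
    have h1 : (B.card : ℝ) * (m : ℝ) ^ (V.card - r) = ∑ c ∈ P, (((powersetCard r V).filter (fun S => φ (c, S) ∈ B)).card : ℝ) := by
      exact_mod_cast hbad
    have h2 : ((Sph b K N V F r).card : ℝ) * (m : ℝ) ^ (V.card - r) = P.card * (powersetCard r V).card := by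
      exact_mod_cast htot
    rw [h1, h2]
    have h3 : ∀ c ∈ P, (((powersetCard r V).filter (fun S => φ (c, S) ∈ B)).card : ℝ) ≤ ρ * ((powersetCard r V).card : ℝ) := by
      intro c hc
      have h4 := H (extf b N V c) (hext c hc)
      rw [hφ]
      exact h4
    refine (sum_le_card_nsmul _ _ _ h3).trans (le_of_eq ?_)
    rw [nsmul_eq_mul]
    ring
  have hm0 : (0 : ℝ) < (m : ℝ) ^ (V.card - r) := by
    have : (0 : ℝ) < m := by exact_mod_cast hm
    positivity
  rw [← mul_assoc] at hle
  exact le_of_mul_le_mul_right hle hm0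

end Pool.Agent.TH894.SM
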