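import Pool.Agent.H43.G.R_seed8.W93.HD4

set_option autoImplicit false

/-! Romanoff's sum for `e j * b ^ j + s`. -/

namespace Pool.Agent.TH894.SM
open Finset
open Pool.Agent.H373R2.T7
open Pool.Agent.W93.HD

/-- the weight of a set of primes -/
noncomputable def w3 (T : Finset ℕ) : ℝ := ∏ p ∈ T, 3 / (p : ℝ)

lemma w3_nonneg (T : Finset ℕ) : 0 ≤ w3 T := prod_nonneg fun _ _ => by positivity

lemma prod_eq_w3 (S : Finset ℕ) : ∏ p ∈ S, (1 + 3 / (p : ℝ)) = ∑ T ∈ S.powerset, w3 T := by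
  classical
  rw [Finset.prod_one_add]
  rfl

lemma one_le_prod3 (S : Finset ℕ) : (1 : ℝ) ≤ ∏ p ∈ S, (1 + 3 / (p : ℝ)) := by
  classical
  induction S using Finset.induction_on with
  | empty => simp
  | insert a s ha ih =>
    rw [prod_insert ha]
    have : (0 : ℝ) ≤ 3 / a := by positivity
    nlinarith

lemma prod3_mono (S T : Finset ℕ) (h : S ⊆ T) :
    ∏ p ∈ S, (1 + 3 / (p : ℝ)) ≤ ∏ p ∈ T, (1 + 3 / (p : ℝ)) := by
  classical
  rw [← prod_sdiff h]
  have h1 := one_le_prod3 (T \ S)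
  have h2 := one_le_prod3 S
  nlinarith

lemma prod3_le (S : Finset ℕ) : ∏ p ∈ S, (1 + 3 / (p : ℝ)) ≤ (∏ p ∈ S, (1 + 1 / (p : ℝ))) ^ 3 := by
  rw [← prod_pow]
  apply prod_le_prod
  · intro p _; positivity
  · intro p _
    have h : (0 : ℝ) ≤ 1 / p := by positivity
    have e : (3 : ℝ) / p = 3 * (1 / p) := by ring
    rw [e]
    nlinarith [mul_nonneg h h, mul_nonneg (mul_nonneg h h) h]

lemma gg_sq_le (h : ℕ) : gg h ^ 2 ≤ ∏ p ∈ h.primeFactors, (1 + 3 / (p : ℝ)) := by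
  unfold gg
  rw [← prod_pow]
  apply prod_le_prod
  · intro p _; positivity
  · intro p hp
    have hp1 : (1 : ℝ) ≤ p := by exact_mod_cast (Nat.prime_of_mem_primeFactors hp).one_le
    have h0 : (0 : ℝ) < p := by linarith
    have h1 : (1 : ℝ) / p ≤ 1 := by rw [div_le_one h0]; exact hp1
    have h : (0 : ℝ) ≤ 1 / p := by positivity
    have e : (3 : ℝ) / p = 3 * (1 / p) := by ring
    rw [e]
    nlinarith [mul_le_mul_of_nonneg_left h1 h]

/-- `log ^ 3` against the square root -/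
lemma log_cube (A : ℕ) : ∃ C : ℝ, 0 ≤ C ∧ ∀ x : ℕ, 1 ≤ x →
    Real.log ((A * x * x + 3 : ℕ) : ℝ) ^ 3 ≤ C * √(x : ℝ) := by
  refine ⟨12 ^ 3 * ((A : ℝ) + 3) ^ (1 / 4 : ℝ), by positivity, fun x hx => ?_⟩
  have hxr : (1 : ℝ) ≤ x := by exact_mod_cast hx
  have hx0 : (0 : ℝ) < x := by linarith
  have hA0 : (0 : ℝ) ≤ A := Nat.cast_nonneg A
  have hy : (1 : ℝ) ≤ ((A * x * x + 3 : ℕ) : ℝ) := by exact_mod_cast (by omega : 1 ≤ A * x * x + 3)
  have hy2 : ((A * x * x + 3 : ℕ) : ℝ) ≤ ((A : ℝ) + 3) * (x : ℝ) ^ 2 := by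
    push_cast
    nlinarith [mul_le_mul hxr hxr (by norm_num) (by linarith)]
  have h1 : Real.log ((A * x * x + 3 : ℕ) : ℝ) ≤ ((A * x * x + 3 : ℕ) : ℝ) ^ (1 / 12 : ℝ) / (1 / 12) :=
    Real.log_le_rpow_div (by linarith) (by norm_num)
  have h2 : ((A * x * x + 3 : ℕ) : ℝ) ^ (1 / 12 : ℝ) ≤ (((A : ℝ) + 3) * (x : ℝ) ^ 2) ^ (1 / 12 : ℝ) :=
    Real.rpow_le_rpow (by linarith) hy2 (by norm_num)
  have h3 : Real.log ((A * x * x + 3 : ℕ) : ℝ) ≤ 12 * (((A : ℝ) + 3) * (x : ℝ) ^ 2) ^ (1 / 12 : ℝ) := by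
    refine h1.trans ?_
    rw [div_le_iff₀ (by norm_num)]
    linarith
  have h0 : 0 ≤ Real.log ((A * x * x + 3 : ℕ) : ℝ) := Real.log_nonneg hy
  refine (pow_le_pow_left₀ h0 h3 3).trans (le_of_eq ?_)
  rw [mul_pow, Real.mul_rpow (by positivity) (by positivity), mul_pow, ← Real.rpow_natCast (((A : ℝ) + 3) ^ (1 / 12 : ℝ)),
    ← Real.rpow_mul (by positivity), ← Real.rpow_natCast (((x : ℝ) ^ 2) ^ (1 / 12 : ℝ)), ← Real.rpow_mul (by positivity),
    ← Real.rpow_natCast (x : ℝ) 2, ← Real.rpow_mul (by positivity), Real.sqrt_eq_rpow]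
  norm_num
  ring

/-- a set with differences divisible by `o` -/
lemma card_diff (K o : ℕ) (S : Finset ℕ) (hS : S ⊆ range K) (h : ∀ j ∈ S, ∀ j' ∈ S, j < j' → o ∣ j' - j)
    (ho : 2 ≤ S.card → 1 ≤ o) : S.card ≤ K / o + 1 := by
  rcases Nat.lt_or_ge S.card 2 with h1 | h1
  · have : 0 ≤ K / o := Nat.zero_le _
    omega
  have ho1 := ho h1
  have h2 : S.card ≤ (range (K / o + 1)).card := by
    apply card_le_card_of_injOn (fun j => j / o)
    · intro j hj
      have hj' := mem_range.1 (hS hj)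
      rw [mem_coe, mem_range]
      exact Nat.lt_succ_of_le (Nat.div_le_div_right hj'.le)
    · intro j hj j' hj' hjj
      simp only at hjj
      by_contra hne
      rcases Nat.lt_or_gt_of_ne hne with h3 | h3
      · have h4 := h j hj j' hj' h3
        have h5 := Nat.le_of_dvd (by omega) h4
        have h6 : j + o ≤ j' := by omega
        have h7 := Nat.div_le_div_right (c := o) h6
        rw [Nat.add_div_right _ (by omega)] at h7
        omega
      · have h4 := h j' hj' j hj h3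
        have h5 := Nat.le_of_dvd (by omega) h4
        have h6 : j' + o ≤ j := by omega
        have h7 := Nat.div_le_div_right (c := o) h6
        rw [Nat.add_div_right _ (by omega)] at h7
        omega
  rwa [card_range] at h2

/-- the positions with one value of the digit -/
lemma cnt_one (b K : ℕ) (hb : 2 ≤ b) (e0 : ℤ) (he0 : e0 ≠ 0) (heb : |e0| < b) (s : ℤ) (T : Finset ℕ)
    (hT : ∀ p ∈ T, p.Prime ∧ b < p) (S : Finset ℕ) (hS : S ⊆ range K)
    (h : ∀ j ∈ S, ∀ p ∈ T, (p : ℤ) ∣ e0 * (b : ℤ) ^ j + s) : S.card ≤ K / oT b T + 1 := by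
  have key : ∀ j ∈ S, ∀ j' ∈ S, j < j' → 1 ≤ j' - j ∧ ∀ p ∈ T, p ∣ b ^ (2 * (j' - j)) - 1 := by
    intro j hj j' hj' hlt
    refine ⟨by omega, fun p hp => ?_⟩
    obtain ⟨hpp, hbp⟩ := hT p hp
    have h1 := h j hj p hp
    have h2 := h j' hj' p hp
    have h3 : (p : ℤ) ∣ e0 * ((b : ℤ) ^ j * ((b : ℤ) ^ (j' - j) - 1)) := by
      have h4 := dvd_sub h2 h1
      have e : (b : ℤ) ^ j' = (b : ℤ) ^ j * (b : ℤ) ^ (j' - j) := by rw [← pow_add]; congr 1; omega
      have e2 : e0 * (b : ℤ) ^ j' + s - (e0 * (b : ℤ) ^ j + s) = e0 * ((b : ℤ) ^ j * ((b : ℤ) ^ (j' - j) - 1)) := by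
        rw [e]; ring
      rwa [e2] at h4
    have hpi : Prime (p : ℤ) := Nat.prime_iff_prime_int.1 hpp
    have h5 : ¬ (p : ℤ) ∣ e0 := by
      intro hd
      have := Int.eq_zero_of_abs_lt_dvd hd (heb.trans (by exact_mod_cast hbp))
      exact he0 this
    have h6 : ¬ (p : ℤ) ∣ (b : ℤ) ^ j := by
      intro hd
      have h7 := hpi.dvd_of_dvd_pow hd
      have h8 : p ∣ b := by exact_mod_cast h7
      have := Nat.le_of_dvd (by omega) h8
      omega
    have h7 : (p : ℤ) ∣ (b : ℤ) ^ (j' - j) - 1 := ((hpi.dvd_or_dvd h3).resolve_left h5 |> hpi.dvd_or_dvd).resolve_left h6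
    have hb1 : 1 ≤ b ^ (j' - j) := Nat.one_le_pow _ _ (by omega)
    have hb2 : 1 ≤ b ^ (2 * (j' - j)) := Nat.one_le_pow _ _ (by omega)
    have h8 : ((b ^ (2 * (j' - j)) - 1 : ℕ) : ℤ) = ((b : ℤ) ^ (j' - j) - 1) * ((b : ℤ) ^ (j' - j) + 1) := by
      rw [Nat.cast_sub hb2]
      push_cast
      ring
    have h9 : (p : ℤ) ∣ ((b ^ (2 * (j' - j)) - 1 : ℕ) : ℤ) := by
      rw [h8]
      exact h7.mul_right _
    exact_mod_cast h9
  apply card_diff K _ S hS
  · intro j hj j' hj' hlt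
    obtain ⟨h1, h2⟩ := key j hj j' hj' hlt
    exact oT_dvd b T _ h1 h2
  · intro hc
    obtain ⟨j, hj, j', hj', hne⟩ := one_lt_card.1 (by omega : 1 < S.card)
    rcases Nat.lt_or_gt_of_ne hne with hlt | hlt
    · obtain ⟨h1, h2⟩ := key j hj j' hj' hlt
      exact (oT_mem b T _ h1 h2).1
    · obtain ⟨h1, h2⟩ := key j' hj' j hj hlt
      exact (oT_mem b T _ h1 h2).1

/-- the positions with all the digits -/
lemma cnt_all (b K : ℕ) (hb : 2 ≤ b) (e : ℕ → ℤ) (he : ∀ j, e j ≠ 0 ∧ |e j| < b) (s : ℤ) (T : Finset ℕ)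
    (hT : ∀ p ∈ T, p.Prime ∧ b < p) (J : Finset ℕ) (hJ : J ⊆ range K) [DecidablePred fun j => ∀ p ∈ T, (p : ℤ) ∣ e j * (b : ℤ) ^ j + s] :
    (J.filter (fun j => ∀ p ∈ T, (p : ℤ) ∣ e j * (b : ℤ) ^ j + s)).card ≤ 2 * b * (K / oT b T + 1) := by
  classical
  set S := J.filter (fun j => ∀ p ∈ T, (p : ℤ) ∣ e j * (b : ℤ) ^ j + s) with hS
  have hmaps : ∀ j ∈ S, e j ∈ Ioo (-(b : ℤ)) b := by
    intro j _
    have := (he j).2
    rw [abs_lt] at this
    rw [mem_Ioo]
    exact this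
  rw [card_eq_sum_card_fiberwise hmaps]
  have h1 : ∀ e0 ∈ Ioo (-(b : ℤ)) b, (S.filter (fun j => e j = e0)).card ≤ K / oT b T + 1 := by
    intro e0 he0
    rcases (S.filter (fun j => e j = e0)).eq_empty_or_nonempty with h2 | ⟨j0, h2⟩
    · rw [h2]; simp
    · rw [mem_filter] at h2
      have h3 := he j0
      rw [h2.2] at h3
      apply cnt_one b K hb e0 h3.1 h3.2 s T hT
      · intro j hj
        rw [mem_filter, hS, mem_filter] at hj
        exact hJ hj.1.1
      · intro j hj p hp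
        rw [mem_filter, hS, mem_filter] at hj
        have := hj.1.2 p hp
        rwa [hj.2] at this
  refine (sum_le_sum h1).trans ?_
  rw [sum_const, smul_eq_mul, Int.card_Ioo]
  apply Nat.mul_le_mul_right
  omega

/-- the sum over all sets of primes -/
lemma rom_sets (b : ℕ) (hb : 2 ≤ b) : ∃ C : ℝ, 0 ≤ C ∧ ∀ K : ℕ, 1 ≤ K → ∀ P : Finset ℕ, (∀ p ∈ P, p.Prime) → P.card ≤ 4 * b * K + 3 →
    ∑ T ∈ P.powerset, w3 T * (((K / oT b T : ℕ) : ℝ) + 1) ≤ C * K := by
  classical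
  obtain ⟨C, hC1, hC⟩ := mert_prod
  obtain ⟨Q, hQ0, hQ⟩ := log_cube (4 * b)
  obtain ⟨C', hC'⟩ : ∃ C' : ℝ, C' = (3 * C) ^ 3 * Q := ⟨_, rfl⟩
  have hC'0 : 0 ≤ C' := by rw [hC']; positivity
  have hU : ∀ x : ℕ, 1 ≤ x → ∀ S : Finset ℕ, (∀ p ∈ S, p.Prime) → S.card ≤ 4 * b * x * x + 3 →
      ∏ p ∈ S, (1 + 3 / (p : ℝ)) ≤ C' * √(x : ℝ) := by
    intro x hx S hS hcard
    have h1 := prod_U C (by linarith) hC S hS (4 * b * x * x + 3) (by omega) hcard
    have h2 : (1 : ℝ) ≤ ∏ p ∈ S, (1 + 1 / (p : ℝ)) := one_le_prod_one_add S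
    refine (prod3_le S).trans ((pow_le_pow_left₀ (by linarith) h1 3).trans ?_)
    have h3 : (3 * C) ^ 3 * Real.log ((4 * b * x * x + 3 : ℕ) : ℝ) ^ 3 ≤ (3 * C) ^ 3 * (Q * √(x : ℝ)) :=
      mul_le_mul_of_nonneg_left (hQ x hx) (by positivity)
    have e1 : (3 * C * Real.log ((4 * b * x * x + 3 : ℕ) : ℝ)) ^ 3 = (3 * C) ^ 3 * Real.log ((4 * b * x * x + 3 : ℕ) : ℝ) ^ 3 := by ring
    have e2 : C' * √(x : ℝ) = (3 * C) ^ 3 * (Q * √(x : ℝ)) := by rw [hC']; ring
    rw [e1, e2]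
    exact h3
  refine ⟨4 * C', by positivity, fun K hK P hP hPc => ?_⟩
  have hK0 : (0 : ℝ) < K := by exact_mod_cast hK
  set α : ℕ → ℝ := fun o => ∑ T ∈ P.powerset.filter (fun T => oT b T = o ∧ ∃ s, 1 ≤ s ∧ ∀ p ∈ T, p ∣ b ^ (2 * s) - 1), w3 T with hα
  have hα0 : ∀ o, 0 ≤ α o := fun o => sum_nonneg fun T _ => w3_nonneg T
  -- the partial sums
  have hA : ∀ x : ℕ, 1 ≤ x → ∑ o ∈ Icc 1 x, α o ≤ C' * √(x : ℝ) := by
    intro x hx
    set U := (Icc 1 x).biUnion (fun o => (b ^ (2 * o) - 1).primeFactors) with hUd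
    have h1 : ∑ o ∈ Icc 1 x, α o ≤ ∑ T ∈ U.powerset, w3 T := by
      have h2 : ∀ o ∈ Icc 1 x, α o ≤ ∑ T ∈ U.powerset, (if oT b T = o then w3 T else 0) := by
        intro o ho
        rw [← sum_filter]
        apply sum_le_sum_of_subset_of_nonneg
        · intro T hT
          rw [mem_filter, mem_powerset] at hT
          rw [mem_filter, mem_powerset]
          refine ⟨?_, hT.2.1⟩
          intro p hp
          rw [hUd, mem_biUnion]
          refine ⟨o, ho, ?_⟩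
          obtain ⟨s, hs1, hs2⟩ := hT.2.2
          have h3 := (oT_mem b T s hs1 hs2).2 p hp
          rw [hT.2.1] at h3
          rw [Nat.mem_primeFactors]
          refine ⟨hP p (hT.1 hp), h3, ?_⟩
          rw [mem_Icc] at ho
          have : 2 ^ 1 ≤ b ^ (2 * o) := by
            calc 2 ^ 1 ≤ b ^ 1 := Nat.pow_le_pow_left hb 1
              _ ≤ b ^ (2 * o) := Nat.pow_le_pow_right (by omega) (by omega)
          omega
        · intro T _ _
          exact w3_nonneg T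
      refine (sum_le_sum h2).trans ?_
      rw [sum_comm]
      apply sum_le_sum
      intro T _
      rw [sum_ite_eq]
      split_ifs
      · exact le_rfl
      · exact w3_nonneg T
    rw [← prod_eq_w3] at h1
    refine h1.trans (hU x hx U ?_ ?_)
    · intro p hp
      obtain ⟨o, _, hp⟩ := mem_biUnion.1 hp
      exact Nat.prime_of_mem_primeFactors hp
    · have h2 : U.card ≤ ∑ o ∈ Icc 1 x, 2 * b * x := by
        refine card_biUnion_le.trans (sum_le_sum fun o ho => ?_)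
        rw [mem_Icc] at ho
        exact (card_pf_le b o hb ho.1).trans (Nat.mul_le_mul_left _ ho.2)
      rw [sum_const, Nat.card_Icc, smul_eq_mul] at h2
      have : (x + 1 - 1) * (2 * b * x) = 2 * b * x * x := by rw [Nat.add_sub_cancel]; ring
      have h3 : 2 * b * x * x ≤ 4 * b * x * x := by
        apply Nat.mul_le_mul_right
        apply Nat.mul_le_mul_right
        omega
      omega
  -- splitting
  have hsplit : ∑ T ∈ P.powerset, w3 T * (((K / oT b T : ℕ) : ℝ) + 1) =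
      ∑ T ∈ P.powerset, w3 T * ((K / oT b T : ℕ) : ℝ) + ∑ T ∈ P.powerset, w3 T := by
    rw [← sum_add_distrib]
    exact sum_congr rfl fun T _ => by ring
  have hpart2 : ∑ T ∈ P.powerset, w3 T ≤ C' * K := by
    rw [← prod_eq_w3]
    refine (hU K hK P hP ?_).trans ?_
    · refine hPc.trans ?_
      have : 4 * b * K * 1 ≤ 4 * b * K * K := Nat.mul_le_mul_left _ hK
      omega
    · apply mul_le_mul_of_nonneg_left _ hC'0
      rw [Real.sqrt_le_left hK0.le]
      have : (1 : ℝ) ≤ K := by exact_mod_cast hK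
      nlinarith
  have hpart1 : ∑ T ∈ P.powerset, w3 T * ((K / oT b T : ℕ) : ℝ) ≤ K * ∑ o ∈ Icc 1 K, α o / o := by
    have h1 : ∀ T ∈ P.powerset, w3 T * ((K / oT b T : ℕ) : ℝ) ≤
        ∑ o ∈ Icc 1 K, (if (oT b T = o ∧ ∃ s, 1 ≤ s ∧ ∀ p ∈ T, p ∣ b ^ (2 * s) - 1) then w3 T * (K / o) else 0) := by
      intro T _
      have hnn : ∀ o ∈ Icc 1 K, 0 ≤ (if (oT b T = o ∧ ∃ s, 1 ≤ s ∧ ∀ p ∈ T, p ∣ b ^ (2 * s) - 1) then w3 T * ((K : ℝ) / o) else 0) := by
        intro o _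
        split_ifs
        · exact mul_nonneg (w3_nonneg T) (by positivity)
        · exact le_rfl
      by_cases h2 : oT b T ∈ Icc 1 K
      · have h3 : ∃ s, 1 ≤ s ∧ ∀ p ∈ T, p ∣ b ^ (2 * s) - 1 := by
          by_contra hcon
          have : oT b T = 0 := by
            unfold oT
            have hempty : {s : ℕ | 1 ≤ s ∧ ∀ p ∈ T, p ∣ b ^ (2 * s) - 1} = ∅ := by
              rw [Set.eq_empty_iff_forall_notMem]
              intro s hs
              exact hcon ⟨s, hs⟩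
            rw [hempty]
            exact Nat.sInf_empty
          rw [this, mem_Icc] at h2
          omega
        refine le_trans ?_ (single_le_sum hnn h2)
        rw [if_pos ⟨rfl, h3⟩]
        exact mul_le_mul_of_nonneg_left Nat.cast_div_le (w3_nonneg T)
      · have h3 : K / oT b T = 0 := by
          rw [mem_Icc] at h2
          rcases Nat.eq_zero_or_pos (oT b T) with h4 | h4
          · rw [h4, Nat.div_zero]
          · exact Nat.div_eq_of_lt (by omega)
        rw [h3, Nat.cast_zero, mul_zero]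
        exact sum_nonneg hnn
    refine (sum_le_sum h1).trans ?_
    rw [sum_comm, mul_sum]
    apply sum_le_sum
    intro o _
    rw [← sum_filter, ← sum_mul]
    apply le_of_eq
    simp only [hα]
    ring
  rw [hsplit]
  have h1 := abel_sum α C' hC'0 hA K
  have h2 : (∑ o ∈ Icc 1 K, α o) / ((K : ℝ) + 1) ≤ C' := by
    rw [div_le_iff₀ (by positivity)]
    refine (hA K hK).trans ?_
    apply mul_le_mul_of_nonneg_left _ hC'0
    rw [Real.sqrt_le_left (by positivity)]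
    nlinarith
  have h3 : C' * (2 - 2 / √((K : ℝ) + 1)) ≤ C' * 2 := by
    apply mul_le_mul_of_nonneg_left _ hC'0
    have : 0 ≤ 2 / √((K : ℝ) + 1) := by positivity
    linarith
  have h4 : ∑ o ∈ Icc 1 K, α o / o ≤ 3 * C' := by linarith
  have h5 : (K : ℝ) * ∑ o ∈ Icc 1 K, α o / o ≤ K * (3 * C') := mul_le_mul_of_nonneg_left h4 hK0.le
  linarith

/-- the number of prime factors -/
lemma card_pf (n A : ℕ) (hn : 1 ≤ n) (h : n ≤ 2 ^ A) : n.primeFactors.card ≤ A := by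
  have h1 : 2 ^ n.primeFactors.card ≤ ∏ p ∈ n.primeFactors, p :=
    Finset.pow_card_le_prod _ _ _ (fun p hp => (Nat.prime_of_mem_primeFactors hp).two_le)
  have h2 : ∏ p ∈ n.primeFactors, p ≤ n := Nat.le_of_dvd hn (Nat.prod_primeFactors_dvd _)
  exact (Nat.pow_le_pow_iff_right (by norm_num)).1 (h1.trans (h2.trans h))

/-- the large and the small primes do not matter -/
lemma gg_sq_split (b Y n : ℕ) (hY : 1 ≤ Y) (hn : n.primeFactors.card ≤ Y) :
    gg n ^ 2 ≤ 4 ^ b * 27 * ∑ T ∈ (n.primeFactors.filter (fun p => b < p ∧ p ≤ Y)).powerset, w3 T := by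
  classical
  have hY0 : (0 : ℝ) < Y := by exact_mod_cast hY
  refine (gg_sq_le n).trans ?_
  rw [← prod_eq_w3, ← prod_filter_mul_prod_filter_not n.primeFactors (fun p => p ≤ b),
    ← prod_filter_mul_prod_filter_not (n.primeFactors.filter (fun p => ¬ p ≤ b)) (fun p => p ≤ Y)]
  have h1 : ∏ p ∈ n.primeFactors.filter (fun p => p ≤ b), (1 + 3 / (p : ℝ)) ≤ 4 ^ b := by
    have h2 : ∏ p ∈ n.primeFactors.filter (fun p => p ≤ b), (1 + 3 / (p : ℝ)) ≤ ∏ _p ∈ n.primeFactors.filter (fun p => p ≤ b), (4 : ℝ) := by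
      apply prod_le_prod
      · intro p _; positivity
      · intro p hp
        rw [mem_filter] at hp
        have hp1 : (1 : ℝ) ≤ p := by exact_mod_cast (Nat.prime_of_mem_primeFactors hp.1).one_le
        have : (3 : ℝ) / p ≤ 3 := div_le_self (by norm_num) hp1
        linarith
    rw [prod_const] at h2
    refine h2.trans ?_
    apply pow_le_pow_right₀ (by norm_num)
    have h3 : n.primeFactors.filter (fun p => p ≤ b) ⊆ Icc 1 b := by
      intro p hp
      rw [mem_filter] at hp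
      rw [mem_Icc]
      exact ⟨(Nat.prime_of_mem_primeFactors hp.1).one_le, hp.2⟩
    have := card_le_card h3
    rwa [Nat.card_Icc, Nat.add_sub_cancel] at this
  have h2 : ∏ p ∈ (n.primeFactors.filter (fun p => ¬ p ≤ b)).filter (fun p => ¬ p ≤ Y), (1 + 3 / (p : ℝ)) ≤ 27 := by
    have h3 : ∏ p ∈ (n.primeFactors.filter (fun p => ¬ p ≤ b)).filter (fun p => ¬ p ≤ Y), (1 + 3 / (p : ℝ)) ≤
        ∏ _p ∈ (n.primeFactors.filter (fun p => ¬ p ≤ b)).filter (fun p => ¬ p ≤ Y), (1 + 3 / (Y : ℝ)) := by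
      apply prod_le_prod
      · intro p _; positivity
      · intro p hp
        rw [mem_filter] at hp
        have h4 : (Y : ℝ) ≤ p := by exact_mod_cast (by omega : Y ≤ p)
        have : (3 : ℝ) / p ≤ 3 / Y := div_le_div_of_nonneg_left (by norm_num) hY0 h4
        linarith
    rw [prod_const] at h3
    refine h3.trans ?_
    have h4 : (1 + 3 / (Y : ℝ)) ^ ((n.primeFactors.filter (fun p => ¬ p ≤ b)).filter (fun p => ¬ p ≤ Y)).card ≤ (1 + 3 / (Y : ℝ)) ^ Y :=
      pow_le_pow_right₀ (by have : (0 : ℝ) < 3 / Y := by positivity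
                            linarith) (((card_filter_le _ _).trans (card_filter_le _ _)).trans hn)
    refine h4.trans ?_
    have h5 : (1 + 3 / (Y : ℝ)) ^ Y ≤ Real.exp (3 / Y) ^ Y := by
      apply pow_le_pow_left₀ (by positivity)
      rw [add_comm]
      exact Real.add_one_le_exp _
    refine h5.trans ?_
    rw [← Real.exp_nat_mul]
    have e1 : (Y : ℝ) * (3 / Y) = ((3 : ℕ) : ℝ) * 1 := by push_cast; field_simp
    rw [e1, Real.exp_nat_mul]
    have h6 := Real.exp_one_lt_d9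
    have h7 : Real.exp 1 ^ 3 ≤ 3 ^ 3 := pow_le_pow_left₀ (Real.exp_pos _).le (by linarith) 3
    linarith
  have h3 : (n.primeFactors.filter (fun p => ¬ p ≤ b)).filter (fun p => p ≤ Y) = n.primeFactors.filter (fun p => b < p ∧ p ≤ Y) := by
    rw [filter_filter]
    apply filter_congr
    intro p _
    rw [not_le]
  rw [h3]
  have g1 : 1 ≤ ∏ p ∈ n.primeFactors.filter (fun p => p ≤ b), (1 + 3 / (p : ℝ)) := one_le_prod3 _
  have g2 : 1 ≤ ∏ p ∈ (n.primeFactors.filter (fun p => ¬ p ≤ b)).filter (fun p => ¬ p ≤ Y), (1 + 3 / (p : ℝ)) := one_le_prod3 _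
  have g3 : 1 ≤ ∏ p ∈ n.primeFactors.filter (fun p => b < p ∧ p ≤ Y), (1 + 3 / (p : ℝ)) := one_le_prod3 _
  obtain ⟨x, hx⟩ : ∃ x, x = ∏ p ∈ n.primeFactors.filter (fun p => p ≤ b), (1 + 3 / (p : ℝ)) := ⟨_, rfl⟩
  obtain ⟨y, hy⟩ : ∃ y, y = ∏ p ∈ (n.primeFactors.filter (fun p => ¬ p ≤ b)).filter (fun p => ¬ p ≤ Y), (1 + 3 / (p : ℝ)) := ⟨_, rfl⟩
  obtain ⟨v, hv⟩ : ∃ v, v = ∏ p ∈ n.primeFactors.filter (fun p => b < p ∧ p ≤ Y), (1 + 3 / (p : ℝ)) := ⟨_, rfl⟩
  rw [← hx] at h1 g1 ⊢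
  rw [← hy] at h2 g2 ⊢
  rw [← hv] at g3 ⊢
  calc x * (v * y) = (x * y) * v := by ring
    _ ≤ (4 ^ b * 27) * v := by
        apply mul_le_mul_of_nonneg_right _ (by linarith)
        exact mul_le_mul h1 h2 (by linarith) (by positivity)

/-- Romanoff's sum for `e j * b ^ j + s` -/
theorem rom_shift (b : ℕ) (hb : 2 ≤ b) : ∃ C : ℝ, 0 ≤ C ∧ ∀ K : ℕ, 1 ≤ K → ∀ e : ℕ → ℤ, (∀ j, e j ≠ 0 ∧ |e j| < b) →
    ∀ J ⊆ range K, ∀ s : ℤ, |s| ≤ (b : ℤ) ^ (K + 1) →
    ∑ j ∈ J, (if e j * (b : ℤ) ^ j + s = 0 then 0 else gg (e j * (b : ℤ) ^ j + s).natAbs ^ 2) ≤ C * K := by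
  classical
  obtain ⟨C, hC0, hC⟩ := rom_sets b hb
  refine ⟨4 ^ b * 27 * (2 * b * C), by positivity, fun K hK e he J hJ s hs => ?_⟩
  obtain ⟨Y, hY⟩ : ∃ Y, Y = 4 * b * K := ⟨_, rfl⟩
  have hbK : 1 ≤ b * K := Nat.mul_pos (by omega) hK
  have hY' : Y = 4 * (b * K) := by rw [hY]; ring
  obtain ⟨P, hP⟩ : ∃ P, P = (Icc 1 Y).filter (fun p => p.Prime ∧ b < p) := ⟨_, rfl⟩
  -- size
  have hsize : ∀ j ∈ J, e j * (b : ℤ) ^ j + s ≠ 0 → (e j * (b : ℤ) ^ j + s).natAbs.primeFactors.card ≤ Y := by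
    intro j hj hne
    have hj' := mem_range.1 (hJ hj)
    apply card_pf
    · omega
    · have h1 : |e j * (b : ℤ) ^ j + s| ≤ 2 * (b : ℤ) ^ (K + 1) := by
        refine (abs_add_le _ _).trans ?_
        rw [abs_mul, abs_of_nonneg (show (0 : ℤ) ≤ (b : ℤ) ^ j by positivity)]
        have h2 : |e j| * (b : ℤ) ^ j ≤ b * (b : ℤ) ^ K := by
          apply mul_le_mul (he j).2.le _ (by positivity) (by positivity)
          exact pow_le_pow_right₀ (by exact_mod_cast (by omega : 1 ≤ b)) hj'.le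
        rw [pow_succ'] at hs ⊢
        linarith
      have h2 : ((e j * (b : ℤ) ^ j + s).natAbs : ℤ) ≤ ((2 * b ^ (K + 1) : ℕ) : ℤ) := by
        rw [Int.natCast_natAbs]
        push_cast
        exact h1
      have h3 : (e j * (b : ℤ) ^ j + s).natAbs ≤ 2 * b ^ (K + 1) := by exact_mod_cast h2
      refine h3.trans ?_
      have h4 : b ^ (K + 1) ≤ 2 ^ (b * (K + 1)) := by
        rw [pow_mul]
        exact Nat.pow_le_pow_left Nat.lt_two_pow_self.le _
      calc 2 * b ^ (K + 1) ≤ 2 * 2 ^ (b * (K + 1)) := Nat.mul_le_mul_left _ h4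
        _ = 2 ^ (b * (K + 1) + 1) := by rw [pow_succ']
        _ ≤ 2 ^ Y := by
            apply Nat.pow_le_pow_right (by norm_num)
            rw [hY', mul_add, mul_one]
            have : b ≤ b * K := Nat.le_mul_of_pos_right _ hK
            omega
  -- each position
  have hpos : ∀ j ∈ J, (if e j * (b : ℤ) ^ j + s = 0 then 0 else gg (e j * (b : ℤ) ^ j + s).natAbs ^ 2) ≤
      4 ^ b * 27 * ∑ T ∈ P.powerset, (if (∀ p ∈ T, (p : ℤ) ∣ e j * (b : ℤ) ^ j + s) then w3 T else 0) := by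
    intro j hj
    have hnn : ∀ T ∈ P.powerset, 0 ≤ (if (∀ p ∈ T, (p : ℤ) ∣ e j * (b : ℤ) ^ j + s) then w3 T else 0) := by
      intro T _
      split_ifs
      · exact w3_nonneg T
      · exact le_rfl
    by_cases hne : e j * (b : ℤ) ^ j + s = 0
    · rw [if_pos hne]
      exact mul_nonneg (by positivity) (sum_nonneg hnn)
    · rw [if_neg hne]
      refine (gg_sq_split b Y _ (by omega) (hsize j hj hne)).trans ?_
      apply mul_le_mul_of_nonneg_left _ (by positivity)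
      rw [← sum_filter]
      apply sum_le_sum_of_subset_of_nonneg
      · intro T hT
        rw [mem_powerset] at hT
        rw [mem_filter, mem_powerset]
        constructor
        · intro p hp
          have := hT hp
          rw [mem_filter] at this
          rw [hP, mem_filter, mem_Icc]
          have hpp := Nat.prime_of_mem_primeFactors this.1
          exact ⟨⟨hpp.one_le, this.2.2⟩, hpp, this.2.1⟩
        · intro p hp
          have := hT hp
          rw [mem_filter] at this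
          exact Int.natCast_dvd.2 (Nat.dvd_of_mem_primeFactors this.1)
      · intro T _ _
        exact w3_nonneg T
  refine (sum_le_sum hpos).trans ?_
  rw [← mul_sum, mul_assoc (4 ^ b * 27 : ℝ)]
  apply mul_le_mul_of_nonneg_left _ (by positivity)
  rw [sum_comm]
  have hcol : ∀ T ∈ P.powerset, ∑ j ∈ J, (if (∀ p ∈ T, (p : ℤ) ∣ e j * (b : ℤ) ^ j + s) then w3 T else 0) ≤
      2 * b * (w3 T * (((K / oT b T : ℕ) : ℝ) + 1)) := by
    intro T hT
    rw [mem_powerset] at hT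
    rw [← sum_filter, sum_const, nsmul_eq_mul]
    have h1 := cnt_all b K hb e he s T (fun p hp => by
      have := hT hp
      rw [hP, mem_filter] at this
      exact this.2) J hJ
    have h2 : ((J.filter (fun j => ∀ p ∈ T, (p : ℤ) ∣ e j * (b : ℤ) ^ j + s)).card : ℝ) ≤ 2 * b * (((K / oT b T : ℕ) : ℝ) + 1) := by
      exact_mod_cast h1
    calc _ ≤ (2 * b * (((K / oT b T : ℕ) : ℝ) + 1)) * w3 T := mul_le_mul_of_nonneg_right h2 (w3_nonneg T)
      _ = _ := by ring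
  refine (sum_le_sum hcol).trans ?_
  rw [← mul_sum, mul_assoc (2 * (b : ℝ))]
  apply mul_le_mul_of_nonneg_left _ (by positivity)
  apply hC K hK P
  · intro p hp
    rw [hP, mem_filter] at hp
    exact hp.2.1
  · have h1 : P.card ≤ (Icc 1 Y).card := by
      rw [hP]
      exact card_filter_le _ _
    rw [Nat.card_Icc] at h1
    omega

end Pool.Agent.TH894.SM
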