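import Pool.Agent.H43.G.R_seed8.TH894.SM9

set_option autoImplicit false

/-! Few sets of positions of a given size are exceptional. -/

namespace Pool.Agent.TH894.SM
open Finset
open Pool.Agent.W93.DG

theorem few_uniform (b : ℕ) (hb : 2 ≤ b) : ∃ R : ℕ, 1 ≤ R ∧ ∀ ε ρ : ℝ, 0 < ε → 0 < ρ → ∃ (C : ℝ) (k₀ : ℕ), 0 < C ∧
    ∀ K : ℕ, k₀ ≤ K → ∀ N : ℕ, b ^ (K - 1) ≤ N → N < b ^ K → ∀ f : ℕ → ℕ, (∀ j, f j < b ∧ f j ≠ N / b ^ j % b) →
    ∀ r : ℕ, C * K / Real.log K ≤ r → R * r ≤ K → ∀ S ⊆ powersetCard r (Ico 1 (K - 1)),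
    (∀ T ∈ S, 2 ∣ change b K N f T ∧ ¬ Good ε (change b K N f T)) →
    (S.card : ℝ) ≤ ρ * ((K - 2).choose r : ℝ) := by
  classical
  obtain ⟨R, A, hR, hA, hfg⟩ := few_general b hb
  refine ⟨24 * R, by omega, fun ε ρ hε hρ => ?_⟩
  obtain ⟨t, ht⟩ := hfg ε (ρ / 2) hε (by positivity)
  obtain ⟨k₀, hk₀⟩ := ht t le_rfl
  obtain ⟨k1, hk1⟩ := hh_small b A 4 hb
  have hlb : 0 < Real.log b := Real.log_pos (by exact_mod_cast (by omega : 1 < b))
  obtain ⟨M, hM⟩ : ∃ M : ℝ, M = 2 * t + 24 / ρ + 2 := ⟨_, rfl⟩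
  have h24 : 0 < 24 / ρ := by positivity
  have ht0 : (0 : ℝ) ≤ t := Nat.cast_nonneg _
  have hM2 : 2 ≤ M := by linarith
  refine ⟨M * Real.log b, k₀ + k1 + 4, by positivity, fun K hK N hN hN' f hf r hr hr' S hS hSb => ?_⟩
  have hh2 : 4 * hh b A K ≤ K := hk1 K (by omega)
  have hh3 : Nat.log b K + 1 ≤ hh b A K ∧ 2 ≤ hh b A K := by
    unfold hh
    constructor
    · calc Nat.log b K + 1 = 1 * 1 * (Nat.log b K + 1) := by ring
        _ ≤ 2 * A * (Nat.log b K + 1) := Nat.mul_le_mul_right _ (Nat.mul_le_mul (by norm_num) hA)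
    · calc 2 = 2 * 1 * (0 + 1) := by ring
        _ ≤ 2 * A * (Nat.log b K + 1) := Nat.mul_le_mul (Nat.mul_le_mul_left _ hA) (by omega)
  have hmain := hk₀ K (by omega) N hN hN' f hf
  set h := hh b A K with hhd
  obtain ⟨hh3, hh4⟩ := hh3
  obtain ⟨W, hW⟩ : ∃ W, W = Win h K := ⟨_, rfl⟩
  rw [← hW] at hmain
  have hWdisj : ∀ q q', q ≠ q' → Disjoint (W q) (W q') := fun q q' hq => by rw [hW]; exact Win_disj h K q q' (by omega) hq
  obtain ⟨V, hV⟩ : ∃ V, V = Ico 1 (K - 1) := ⟨_, rfl⟩
  rw [← hV] at hS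
  have hVW : un W = V := by rw [hW, hV]; exact un_Win h K (by omega)
  have hVc : V.card = K - 2 := by rw [hV, Nat.card_Ico]; omega
  have hWV : ∀ q, W q ⊆ V := fun q => by rw [hW, hV]; exact Win_sub h K q (by omega)
  have hWc : ∀ q, h ≤ (W q).card := by
    intro q
    rw [hW]
    unfold Win
    split_ifs <;> rw [Nat.card_Ico] <;> omega
  have hK4 : (4 : ℝ) ≤ K := by exact_mod_cast (by omega : 4 ≤ K)
  have hlK : 0 < Real.log K := Real.log_pos (by linarith)
  have hw0 : (0 : ℝ) < V.card := by rw [hVc]; exact_mod_cast (by omega : 0 < K - 2)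
  have hwK : (V.card : ℝ) ≤ K := by rw [hVc]; exact_mod_cast (by omega : K - 2 ≤ K)
  -- lower bound for the means
  have hlogh : Real.log K ≤ h * Real.log b := by
    have h1 : K < b ^ (Nat.log b K + 1) := Nat.lt_pow_succ_log_self (by omega) K
    have h2 : Real.log K ≤ Real.log ((b : ℝ) ^ (Nat.log b K + 1)) := by
      apply Real.log_le_log (by linarith)
      exact_mod_cast h1.le
    rw [Real.log_pow] at h2
    refine h2.trans (mul_le_mul_of_nonneg_right ?_ hlb.le)
    exact_mod_cast hh3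
  obtain ⟨μ, hμ⟩ : ∃ μ : Fin 3 → ℝ, μ = fun q => (r : ℝ) * (W q).card / V.card := ⟨_, rfl⟩
  have hr0 : M * Real.log b * K / Real.log K ≤ r := hr
  have hrh : M * V.card ≤ r * h := by
    have h1 : M * Real.log b * K ≤ r * Real.log K := by
      rwa [div_le_iff₀ hlK] at hr0
    have h2 : (r : ℝ) * Real.log K ≤ r * (h * Real.log b) := mul_le_mul_of_nonneg_left hlogh (Nat.cast_nonneg _)
    have h3 : (M * K) * Real.log b ≤ (r * h) * Real.log b := by nlinarith
    have h4 := le_of_mul_le_mul_right h3 hlb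
    have h5 : M * V.card ≤ M * K := mul_le_mul_of_nonneg_left hwK (by linarith)
    linarith
  have hμM : ∀ q, M ≤ μ q := by
    intro q
    rw [hμ]
    simp only
    rw [le_div_iff₀ hw0]
    refine hrh.trans (mul_le_mul_of_nonneg_left ?_ (Nat.cast_nonneg _))
    exact_mod_cast hWc q
  have hr2 : 2 ≤ r := by
    by_contra hcon
    have h1 : (r : ℝ) ≤ 1 := by exact_mod_cast (by omega : r ≤ 1)
    have h2 : (h : ℝ) ≤ V.card := by rw [hVc]; exact_mod_cast (by omega : h ≤ K - 2)
    have h3 : (r : ℝ) * h ≤ 1 * V.card := mul_le_mul h1 h2 (Nat.cast_nonneg _) (by norm_num)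
    nlinarith
  have hRr : r ≤ R * r := Nat.le_mul_of_pos_left _ (by omega)
  have hr'' : 24 * (R * r) ≤ K := by rw [← mul_assoc]; exact hr'
  have hrV : r ≤ V.card := by
    rw [hVc]
    omega
  -- deviations
  obtain ⟨G, hG⟩ : ∃ G : Finset ℕ → Fin 3 → Prop, ∀ T q, G T q ↔ (μ q / 2 ≤ ((T ∩ W q).card : ℝ) ∧ ((T ∩ W q).card : ℝ) ≤ 3 * μ q / 2) :=
    ⟨fun T q => μ q / 2 ≤ ((T ∩ W q).card : ℝ) ∧ ((T ∩ W q).card : ℝ) ≤ 3 * μ q / 2, fun T q => Iff.rfl⟩
  have hdev : ((S.filter (fun T => ¬ ∀ q, G T q)).card : ℝ) ≤ ρ / 2 * ((K - 2).choose r : ℝ) := by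
    have h1 : S.filter (fun T => ¬ ∀ q, G T q) ⊆ univ.biUnion (fun q => (powersetCard r V).filter (fun T => ¬ G T q)) := by
      intro T hT
      rw [mem_filter] at hT
      obtain ⟨h2, h3⟩ := hT
      push_neg at h3
      obtain ⟨q, hq⟩ := h3
      rw [mem_biUnion]
      exact ⟨q, mem_univ _, mem_filter.2 ⟨hS h2, hq⟩⟩
    have h2 : ((univ.biUnion (fun q => (powersetCard r V).filter (fun T => ¬ G T q))).card : ℝ) ≤ ∑ q : Fin 3, (((powersetCard r V).filter (fun T => ¬ G T q)).card : ℝ) := by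
      exact_mod_cast card_biUnion_le
    have h3 : ∀ q ∈ (univ : Finset (Fin 3)), (((powersetCard r V).filter (fun T => ¬ G T q)).card : ℝ) ≤ ρ / 6 * ((K - 2).choose r : ℝ) := by
      intro q _
      have hμ0 : 0 < μ q := by have := hμM q; linarith
      have h4 := hyp_dev (hWV q) r hr2 hrV (μ q) (by rw [hμ]) hμ0
      have h6 : (powersetCard r V).filter (fun T => ¬ G T q) =
          (powersetCard r V).filter (fun S => ¬ (μ q / 2 ≤ ((S ∩ W q).card : ℝ) ∧ ((S ∩ W q).card : ℝ) ≤ 3 * μ q / 2)) := by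
        apply filter_congr
        intro T _
        rw [hG]
      rw [h6]
      refine h4.trans ?_
      rw [hVc]
      apply mul_le_mul_of_nonneg_right _ (Nat.cast_nonneg _)
      have h5 : 24 / ρ ≤ μ q := by have := hμM q; linarith
      rw [div_le_iff₀ hρ] at h5
      rw [div_le_iff₀ hμ0]
      linarith
    have h4 : ((S.filter (fun T => ¬ ∀ q, G T q)).card : ℝ) ≤ ((univ.biUnion (fun q => (powersetCard r V).filter (fun T => ¬ G T q))).card : ℝ) := by
      exact_mod_cast card_le_card h1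
    refine h4.trans (h2.trans ((sum_le_sum h3).trans (le_of_eq ?_)))
    rw [sum_const, card_univ, Fintype.card_fin, nsmul_eq_mul]
    push_cast
    ring
  -- the typical sets
  obtain ⟨τ, hτ⟩ : ∃ τ : Finset ℕ → Fin 3 → ℕ, τ = fun T q => (T ∩ W q).card := ⟨_, rfl⟩
  obtain ⟨B, hB⟩ : ∃ B, B = S.filter (fun T => ∀ q, G T q) := ⟨_, rfl⟩
  have hBV : ∀ T ∈ B, T ⊆ V ∧ T.card = r := by
    intro T hT
    rw [hB, mem_filter] at hT
    exact mem_powersetCard.1 (hS hT.1)
  have hgood : (B.card : ℝ) ≤ ρ / 2 * ((K - 2).choose r : ℝ) := by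
    rw [card_eq_sum_card_image τ B]
    push_cast
    have h1 : ∀ v ∈ B.image τ, ((B.filter (fun T => τ T = v)).card : ℝ) ≤ ρ / 2 * (((powersetCard r V).filter (fun T => τ T = v)).card : ℝ) := by
      intro v hv
      rw [mem_image] at hv
      obtain ⟨T₀, hT₀, hv⟩ := hv
      have hT₀V := hBV T₀ hT₀
      have hT₀G : ∀ q, G T₀ q := by
        rw [hB, mem_filter] at hT₀
        exact hT₀.2
      have hvq : ∀ q, v q = (T₀ ∩ W q).card := fun q => by rw [← hv, hτ]
      have hvt : ∀ q, t ≤ v q := by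
        intro q
        have h2 := ((hG T₀ q).1 (hT₀G q)).1
        rw [← hvq] at h2
        have h3 := hμM q
        have h4 : (t : ℝ) ≤ v q := by linarith
        exact_mod_cast h4
      have hvR : ∀ q, 8 * R * v q ≤ (W q).card := by
        intro q
        have h2 := ((hG T₀ q).1 (hT₀G q)).2
        rw [← hvq] at h2
        have h3 : (12 : ℝ) * (R * r) ≤ V.card := by
          rw [hVc]
          exact_mod_cast (by omega : 12 * (R * r) ≤ K - 2)
        have h4 : μ q * V.card = r * (W q).card := by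
          rw [hμ]
          field_simp
        have h5 : (8 * R * v q : ℝ) * V.card ≤ (W q).card * V.card := by
          have hR0 : (0 : ℝ) ≤ R := Nat.cast_nonneg _
          calc (8 * R * v q : ℝ) * V.card ≤ (8 * R * (3 * μ q / 2)) * V.card := by
                apply mul_le_mul_of_nonneg_right _ hw0.le
                exact mul_le_mul_of_nonneg_left h2 (by positivity)
            _ = 12 * R * (μ q * V.card) := by ring
            _ = (12 * (R * r)) * (W q).card := by rw [h4]; ring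
            _ ≤ V.card * (W q).card := mul_le_mul_of_nonneg_right h3 (Nat.cast_nonneg _)
            _ = _ := by ring
        have h6 := le_of_mul_le_mul_right h5 hw0
        exact_mod_cast h6
      have hvsum : ∑ q, v q = r := by
        rw [← hT₀V.2]
        conv_rhs => rw [← un_inter W V T₀ hVW hT₀V.1]
        unfold un
        rw [card_biUnion]
        · exact sum_congr rfl fun q _ => hvq q
        · intro q _ q' _ hq
          exact disjoint_of_subset_left inter_subset_right (disjoint_of_subset_right inter_subset_right (hWdisj q q' hq))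
      obtain ⟨Ψ, hΨ⟩ : ∃ Ψ : Finset ℕ → Fin 3 → Finset ℕ, Ψ = fun T q => T ∩ W q := ⟨_, rfl⟩
      have hunΨ : ∀ T, T ⊆ V → un (Ψ T) = T := fun T hT => by rw [hΨ]; exact un_inter W V T hVW hT
      have hinj : Set.InjOn Ψ ↑(B.filter (fun T => τ T = v)) := by
        intro T hT T' hT' hTT
        rw [mem_coe, mem_filter] at hT hT'
        rw [← hunΨ T (hBV T hT.1).1, ← hunΨ T' (hBV T' hT'.1).1, hTT]
      have hcall := hmain v hvt hvR ((B.filter (fun T => τ T = v)).image Ψ) (by
          intro Z hZ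
          rw [mem_image] at hZ
          obtain ⟨T, hT, rfl⟩ := hZ
          rw [mem_filter] at hT
          rw [Fintype.mem_piFinset]
          intro q
          rw [mem_powersetCard, hΨ]
          refine ⟨inter_subset_right, ?_⟩
          rw [← hT.2, hτ]) (by
          intro Z hZ
          rw [mem_image] at hZ
          obtain ⟨T, hT, rfl⟩ := hZ
          rw [mem_filter] at hT
          rw [hunΨ T (hBV T hT.1).1]
          rw [hB, mem_filter] at hT
          exact hSb T hT.1.1)
      rw [card_image_of_injOn hinj] at hcall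
      refine hcall.trans (mul_le_mul_of_nonneg_left ?_ (by positivity))
      have h7 := fibre_card W V hVW hWdisj r v hvsum
      rw [hτ]
      exact_mod_cast h7
    refine (sum_le_sum h1).trans ?_
    rw [← mul_sum]
    apply mul_le_mul_of_nonneg_left _ (by positivity)
    have h8 : ∑ v ∈ B.image τ, ((powersetCard r V).filter (fun T => τ T = v)).card ≤ (K - 2).choose r := by
      rw [← hVc, ← card_powersetCard]
      rw [sum_card_fiberwise_eq_card_filter]
      exact card_filter_le _ _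
    exact_mod_cast h8
  have hsplit : (S.card : ℝ) = ((S.filter (fun T => ∀ q, G T q)).card : ℝ) + ((S.filter (fun T => ¬ ∀ q, G T q)).card : ℝ) := by
    exact_mod_cast (card_filter_add_card_filter_not (s := S) (fun T => ∀ q, G T q)).symm
  rw [hsplit, ← hB]
  linarith

end Pool.Agent.TH894.SM
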