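import Pool.Agent.H43.G.R_seed8.TH894.SM1
import Pool.Agent.H43.G.R_seed8.W93.RD4

set_option autoImplicit false

/-! The fourth moment over the positions, and correlations. -/

namespace Pool.Agent.TH894.SM
open Finset
open Pool.Agent.H807R2.Dav
open Pool.Agent.H373R2.T7
open Pool.Agent.W93.DG
open Pool.Agent.W93.HD
open Pool.Agent.W93.GB (pp pp_nonneg sum_pp vM_le)

/-- the sum over the positions -/
noncomputable def Ph (δ : ℕ → ℤ) (J : Finset ℕ) (θ : ℝ) : ℂ := ∑ j ∈ J, ee ((δ j : ℝ) * θ)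

/-- the difference of the changes -/
def yq (δ : ℕ → ℤ) (q : (ℕ × ℕ) × (ℕ × ℕ)) : ℤ := δ q.1.1 + (δ q.1.2 - δ q.2.1 - δ q.2.2)

lemma Ph_four (δ : ℕ → ℤ) (J : Finset ℕ) (θ : ℝ) :
    ((‖Ph δ J θ‖ ^ 4 : ℝ) : ℂ) = ∑ q ∈ (J ×ˢ J) ×ˢ (J ×ˢ J), ee ((yq δ q : ℝ) * θ) := by
  have h1 : ((‖Ph δ J θ‖ ^ 4 : ℝ) : ℂ) = (Ph δ J θ * Ph δ J θ) * (starRingEnd ℂ) (Ph δ J θ * Ph δ J θ) := by
    rw [Complex.mul_conj', norm_mul]
    push_cast
    ring
  have h2 : Ph δ J θ * Ph δ J θ = ∑ q ∈ J ×ˢ J, ee (((δ q.1 : ℝ) + δ q.2) * θ) := by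
    unfold Ph
    rw [sum_mul_sum, ← sum_product']
    apply sum_congr rfl
    intro q _
    rw [← ee_add]
    congr 1
    ring
  rw [h1, h2, map_sum, sum_mul_sum, ← sum_product']
  apply sum_congr rfl
  intro q _
  rw [conj_ee, ← ee_add]
  congr 1
  unfold yq
  push_cast
  ring

/-- the fourth moment -/
lemma fourth (δ : ℕ → ℤ) (J : Finset ℕ) (M : ℕ) (V : ℕ → ℝ) (c : ℤ → ℝ) (T : ℤ)
    (hT : ∀ q ∈ (J ×ˢ J) ×ˢ (J ×ˢ J), |yq δ q| ≤ T)
    (hV : ∀ y : ℤ, |y| ≤ T → ∑ r ∈ range M, ((V r : ℝ) : ℂ) * ee (-((y : ℝ) * ((r : ℝ) / (M : ℝ)))) = ((M * c y : ℝ) : ℂ)) :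
    ∑ r ∈ range M, ∑ r' ∈ range M, V r * V r' * ‖Ph δ J (((r' : ℝ) - r) / (M : ℝ))‖ ^ 4 =
      (M : ℝ) ^ 2 * ∑ q ∈ (J ×ˢ J) ×ˢ (J ×ˢ J), c (yq δ q) * c (-yq δ q) := by
  have h : ((∑ r ∈ range M, ∑ r' ∈ range M, V r * V r' * ‖Ph δ J (((r' : ℝ) - r) / (M : ℝ))‖ ^ 4 : ℝ) : ℂ) =
      (((M : ℝ) ^ 2 * ∑ q ∈ (J ×ˢ J) ×ˢ (J ×ˢ J), c (yq δ q) * c (-yq δ q) : ℝ) : ℂ) := by
    have h1 : ((∑ r ∈ range M, ∑ r' ∈ range M, V r * V r' * ‖Ph δ J (((r' : ℝ) - r) / (M : ℝ))‖ ^ 4 : ℝ) : ℂ) =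
        ∑ r ∈ range M, ∑ r' ∈ range M, ∑ q ∈ (J ×ˢ J) ×ˢ (J ×ˢ J),
          (((V r : ℝ) : ℂ) * ee (-((yq δ q : ℝ) * ((r : ℝ) / (M : ℝ))))) *
          (((V r' : ℝ) : ℂ) * ee (-(((-yq δ q : ℤ) : ℝ) * ((r' : ℝ) / (M : ℝ))))) := by
      rw [Complex.ofReal_sum]
      apply sum_congr rfl
      intro r _
      rw [Complex.ofReal_sum]
      apply sum_congr rfl
      intro r' _
      rw [Complex.ofReal_mul, Ph_four, mul_sum]
      apply sum_congr rfl
      intro q _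
      have e1 : ee ((yq δ q : ℝ) * (((r' : ℝ) - r) / (M : ℝ))) = ee (-((yq δ q : ℝ) * ((r : ℝ) / (M : ℝ)))) *
          ee (-(((-yq δ q : ℤ) : ℝ) * ((r' : ℝ) / (M : ℝ)))) := by
        rw [← ee_add]
        congr 1
        push_cast
        ring
      rw [e1]
      push_cast
      ring
    rw [h1]
    have h2 : ∑ r ∈ range M, ∑ r' ∈ range M, ∑ q ∈ (J ×ˢ J) ×ˢ (J ×ˢ J),
          (((V r : ℝ) : ℂ) * ee (-((yq δ q : ℝ) * ((r : ℝ) / (M : ℝ))))) *
          (((V r' : ℝ) : ℂ) * ee (-(((-yq δ q : ℤ) : ℝ) * ((r' : ℝ) / (M : ℝ))))) =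
        ∑ q ∈ (J ×ˢ J) ×ˢ (J ×ˢ J), (∑ r ∈ range M, ((V r : ℝ) : ℂ) * ee (-((yq δ q : ℝ) * ((r : ℝ) / (M : ℝ))))) *
          (∑ r' ∈ range M, ((V r' : ℝ) : ℂ) * ee (-(((-yq δ q : ℤ) : ℝ) * ((r' : ℝ) / (M : ℝ))))) := by
      have h3 : ∀ r ∈ range M, ∑ r' ∈ range M, ∑ q ∈ (J ×ˢ J) ×ˢ (J ×ˢ J),
          (((V r : ℝ) : ℂ) * ee (-((yq δ q : ℝ) * ((r : ℝ) / (M : ℝ))))) *
          (((V r' : ℝ) : ℂ) * ee (-(((-yq δ q : ℤ) : ℝ) * ((r' : ℝ) / (M : ℝ))))) =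
          ∑ q ∈ (J ×ˢ J) ×ˢ (J ×ˢ J), (((V r : ℝ) : ℂ) * ee (-((yq δ q : ℝ) * ((r : ℝ) / (M : ℝ))))) *
          (∑ r' ∈ range M, ((V r' : ℝ) : ℂ) * ee (-(((-yq δ q : ℤ) : ℝ) * ((r' : ℝ) / (M : ℝ))))) := by
        intro r _
        rw [sum_comm]
        apply sum_congr rfl
        intro q _
        rw [mul_sum]
      rw [sum_congr rfl h3, sum_comm]
      apply sum_congr rfl
      intro q _
      rw [sum_mul]
    rw [h2, Complex.ofReal_mul, Complex.ofReal_sum, mul_sum]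
    apply sum_congr rfl
    intro q hq
    have h4 := hT q hq
    have h5 : |(-yq δ q)| ≤ T := by rw [abs_neg]; exact h4
    rw [hV _ h4, hV _ h5]
    push_cast
    ring
  exact_mod_cast h

/-- the correlation -/
noncomputable def cor (f : ℕ → ℝ) (X : ℕ) (y : ℤ) : ℝ :=
  ∑ a ∈ Icc 1 X, ∑ a' ∈ Icc 1 X, (if (a : ℤ) - a' = y then f a * f a' else 0)

lemma cor_FF (f : ℕ → ℝ) (X M : ℕ) (hM : 1 ≤ M) (y : ℤ) (hy : |y| + X ≤ M) :
    ∑ r ∈ range M, ((‖FF f X M r‖ ^ 2 : ℝ) : ℂ) * ee (-((y : ℝ) * ((r : ℝ) / (M : ℝ)))) = ((M * cor f X y : ℝ) : ℂ) := by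
  have h1 : ∀ r ∈ range M, ((‖FF f X M r‖ ^ 2 : ℝ) : ℂ) * ee (-((y : ℝ) * ((r : ℝ) / (M : ℝ)))) =
      ∑ a ∈ Icc 1 X, ∑ a' ∈ Icc 1 X, (((f a * f a' : ℝ) : ℂ)) * ee ((r : ℝ) * ((((a : ℤ) - a' - y : ℤ) : ℝ) / M)) := by
    intro r _
    have h2 : ((‖FF f X M r‖ ^ 2 : ℝ) : ℂ) = FF f X M r * (starRingEnd ℂ) (FF f X M r) := by
      rw [Complex.mul_conj']
      push_cast
      rfl
    rw [h2]
    unfold FF
    rw [map_sum, sum_mul_sum, sum_mul]
    apply sum_congr rfl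
    intro a _
    rw [sum_mul]
    apply sum_congr rfl
    intro a' _
    rw [map_mul, conj_ee, Complex.conj_ofReal]
    have e1 : ee ((r : ℝ) * ((((a : ℤ) - a' - y : ℤ) : ℝ) / M)) = ee ((a : ℝ) * ((r : ℝ) / M)) * ee (-((a' : ℝ) * ((r : ℝ) / M))) *
        ee (-((y : ℝ) * ((r : ℝ) / (M : ℝ)))) := by
      rw [← ee_add, ← ee_add]
      congr 1
      push_cast
      ring
    rw [e1]
    push_cast
    ring
  rw [sum_congr rfl h1, sum_comm]
  unfold cor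
  rw [mul_sum, Complex.ofReal_sum]
  apply sum_congr rfl
  intro a ha
  rw [sum_comm, mul_sum, Complex.ofReal_sum]
  apply sum_congr rfl
  intro a' ha'
  rw [mem_Icc] at ha ha'
  rw [← mul_sum, orth M hM]
  by_cases h : (a : ℤ) - a' = y
  · rw [if_pos h, if_pos (by rw [h, sub_self]; exact dvd_zero _)]
    push_cast
    ring
  · rw [if_neg h, if_neg, mul_zero, mul_zero, Complex.ofReal_zero]
    intro hd
    have hyy : -|y| ≤ y ∧ y ≤ |y| := ⟨neg_abs_le y, le_abs_self y⟩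
    have := Int.eq_zero_of_abs_lt_dvd hd (by rw [abs_lt]; constructor <;> omega)
    omega

lemma cor_neg (f : ℕ → ℝ) (X : ℕ) (y : ℤ) : cor f X (-y) = cor f X y := by
  unfold cor
  rw [sum_comm]
  apply sum_congr rfl
  intro a _
  apply sum_congr rfl
  intro a' _
  by_cases h : (a : ℤ) - a' = y
  · rw [if_pos h, if_pos (by omega)]; ring
  · rw [if_neg h, if_neg (by omega)]

lemma cor_nonneg (f : ℕ → ℝ) (hf : ∀ a, 0 ≤ f a) (X : ℕ) (y : ℤ) : 0 ≤ cor f X y := by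
  unfold cor
  apply sum_nonneg
  intro a _
  apply sum_nonneg
  intro a' _
  split_ifs
  · exact mul_nonneg (hf _) (hf _)
  · exact le_rfl

lemma cor_le (f : ℕ → ℝ) (hf : ∀ a, 0 ≤ f a) (X : ℕ) (y : ℤ) : cor f X y ≤ ∑ a ∈ Icc 1 X, f a * f (a + y.natAbs) := T_le f hf X y

lemma exc_sum (X y : ℕ) (hX : 1 ≤ X) :
    ∑ a ∈ Icc 1 X, exc (Real.log X) y a ≤ 2 * √(X : ℝ) * Real.log X + y * Real.log X := by
  have hL : 0 ≤ Real.log (X : ℝ) := Real.log_natCast_nonneg X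
  unfold exc
  rw [sum_add_distrib]
  apply add_le_add (sum_pp X hX)
  rw [← sum_filter, sum_const, nsmul_eq_mul]
  apply mul_le_mul_of_nonneg_right _ hL
  have : ((Icc 1 X).filter (fun a => a ≤ y)).card ≤ y := by
    have h4 : (Icc 1 X).filter (fun a => a ≤ y) ⊆ Icc 1 y := by
      intro a ha
      rw [mem_filter, mem_Icc] at ha
      rw [mem_Icc]
      omega
    have h5 := card_le_card h4
    rw [Nat.card_Icc] at h5
    omega
  exact_mod_cast this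

/-- the correlations of the primes and of the model -/
theorem cor_bound (b : ℕ) (hb : 2 ≤ b) : ∃ C : ℝ, 1 ≤ C ∧ ∀ Ez : ℕ, ∃ k₀ : ℕ, ∀ K : ℕ, k₀ ≤ K → ∀ z : ℕ,
    Real.log ((b ^ K : ℕ) : ℝ) ≤ z → (z : ℝ) ≤ Real.log ((b ^ K : ℕ) : ℝ) ^ Ez →
    (cor (fun n => ArithmeticFunction.vonMangoldt n) (b ^ K) 0 + cor (lamz z) (b ^ K) 0 ≤ C * (b ^ K : ℕ) * K) ∧
    ∀ y : ℤ, y ≠ 0 → |y| ≤ (b ^ K : ℕ) →
      cor (fun n => ArithmeticFunction.vonMangoldt n) (b ^ K) y + cor (lamz z) (b ^ K) y ≤ C * (b ^ K : ℕ) * gg y.natAbs := by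
  classical
  obtain ⟨K₁, x0, hK₁, hp⟩ := pair_lamz
  obtain ⟨CV, hCV, hV⟩ := Vz_log_le
  obtain ⟨CI, hCI, hI⟩ := Vz_inv_log
  have hone : (1 : ℝ) ≤ 5 * (4 * K₁ * CV) ^ 2 + 1 + 5 + (6 + 3 * CI) * b := by
    have e1 : (0 : ℝ) ≤ (6 + 3 * CI) * b := by positivity
    have e2 : (0 : ℝ) ≤ (4 * K₁ * CV) ^ 2 := sq_nonneg _
    linarith
  refine ⟨5 * (4 * K₁ * CV) ^ 2 + 1 + 5 + (6 + 3 * CI) * b, hone, fun Ez => ?_⟩
  obtain ⟨n1, h1⟩ := ev_log' (Ez * K₁) 1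
  obtain ⟨n2, h2⟩ := ev_log' 2 50
  obtain ⟨n3, h3⟩ := ev_L' (x0 + 3)
  refine ⟨n1 + n2 + n3 + K₁ * (x0 + 3) + 4, fun K hK z hz1 hz2 => ?_⟩
  have hbn : 0 < b := by omega
  have hb1 : 1 < b := by omega
  obtain ⟨hL1, hL2⟩ := logX b K hb
  obtain ⟨X, hX⟩ : ∃ X, X = b ^ K := ⟨_, rfl⟩
  rw [← hX] at hz1 hz2 hL1 hL2 ⊢
  obtain ⟨L, hL⟩ : ∃ L, L = Real.log (X : ℝ) := ⟨_, rfl⟩
  rw [← hL] at hz1 hz2 hL1 hL2
  have hKX : K < X := by rw [hX]; exact Nat.lt_pow_self hb1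
  have hX1 : 1 ≤ X := by omega
  have hX0 : (0 : ℝ) < X := by exact_mod_cast hX1
  have hK4 : (4 : ℝ) ≤ K := by exact_mod_cast (by omega : 4 ≤ K)
  have hLge : 2 ≤ L := by linarith
  have hL0 : 0 < L := by linarith
  have hss : √(X : ℝ) * √(X : ℝ) = X := Real.mul_self_sqrt hX0.le
  have hs0 : 0 ≤ √(X : ℝ) := Real.sqrt_nonneg _
  -- the level z
  have hzX : z ^ K₁ ≤ X := by
    have e1 := h1 X (by omega)
    rw [← hL, one_mul] at e1
    have e2 : (z : ℝ) ^ K₁ ≤ X := by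
      calc (z : ℝ) ^ K₁ ≤ (L ^ Ez) ^ K₁ := pow_le_pow_left₀ (Nat.cast_nonneg _) hz2 _
        _ = L ^ (Ez * K₁) := by rw [← pow_mul]
        _ ≤ √(X : ℝ) := e1
        _ ≤ X := by
            rw [Real.sqrt_le_left hX0.le]
            have : (1 : ℝ) ≤ X := by exact_mod_cast hX1
            nlinarith
    exact_mod_cast e2
  have hz0 : x0 + 3 ≤ z := by
    have e1 := h3 X (by omega)
    rw [← hL] at e1
    have : ((x0 + 3 : ℕ) : ℝ) ≤ z := by push_cast; linarith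
    exact_mod_cast this
  obtain ⟨hz3, hz4⟩ := hp X z (by omega) hzX
  -- the level y
  obtain ⟨κ, hκ⟩ : ∃ κ, κ = K / K₁ := ⟨_, rfl⟩
  have hκ1 : x0 + 3 ≤ κ := by
    rw [hκ]
    apply (Nat.le_div_iff_mul_le (by omega)).2
    rw [mul_comm]
    omega
  obtain ⟨y, hy⟩ : ∃ y, y = b ^ κ := ⟨_, rfl⟩
  have hκy : κ < y := by rw [hy]; exact Nat.lt_pow_self hb1
  have hκK : κ * K₁ ≤ K := by rw [hκ]; exact Nat.div_mul_le_self _ _
  have hyX : y ^ K₁ ≤ X := by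
    rw [hy, hX, ← pow_mul]
    exact Nat.pow_le_pow_right hbn hκK
  obtain ⟨hy3, hy4⟩ := hp X y (by omega) hyX
  have hysq : (y : ℝ) ≤ √(X : ℝ) := by
    apply Real.le_sqrt_of_sq_le
    have : y ^ 2 ≤ X := (Nat.pow_le_pow_right (by omega) (by omega : 2 ≤ K₁)).trans hyX
    exact_mod_cast this
  have hVp := Vz_pos y
  -- logarithm of 2 X
  obtain ⟨L₂, hL₂⟩ : ∃ L₂, L₂ = Real.log ((2 * X : ℕ) : ℝ) := ⟨_, rfl⟩
  have hL₂L : L₂ ≤ 2 * L := by
    rw [hL₂, Nat.cast_mul, Real.log_mul (by norm_num) hX0.ne', ← hL]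
    have := Real.log_two_lt_d9
    push_cast
    linarith
  have hL₂0 : 0 ≤ L₂ := by rw [hL₂]; exact Real.log_natCast_nonneg _
  have hc : (L₂ * Vz y) ^ 2 ≤ (4 * K₁ * CV) ^ 2 := by
    apply pow_le_pow_left₀ (by positivity)
    have e1 : L ≤ 2 * K₁ * Real.log y := by
      have hlb : 0 < Real.log b := Real.log_pos (by exact_mod_cast hb1)
      have e2 : L = K * Real.log b := by rw [hL, hX]; push_cast; rw [Real.log_pow]
      have e3 : Real.log y = κ * Real.log b := by rw [hy]; push_cast; rw [Real.log_pow]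
      rw [e2, e3]
      have e4 : K ≤ 2 * K₁ * κ := by
        have : K < K₁ * (κ + 1) := by rw [hκ]; exact Nat.lt_mul_div_succ K (by omega)
        calc K ≤ K₁ * (κ + 1) := this.le
          _ ≤ K₁ * (2 * κ) := Nat.mul_le_mul_left _ (by omega)
          _ = _ := by ring
      have e5 : (K : ℝ) ≤ 2 * K₁ * κ := by exact_mod_cast e4
      calc (K : ℝ) * Real.log b ≤ (2 * K₁ * κ) * Real.log b := mul_le_mul_of_nonneg_right e5 hlb.le
        _ = _ := by ring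
    calc L₂ * Vz y ≤ (2 * (2 * K₁ * Real.log y)) * Vz y := mul_le_mul_of_nonneg_right (hL₂L.trans (by linarith)) hVp.le
      _ = 4 * K₁ * (Vz y * Real.log y) := by ring
      _ ≤ 4 * K₁ * CV := mul_le_mul_of_nonneg_left (hV y (by omega)) (by positivity)
  -- the error
  have herr : 2 * L₂ * (2 * √((2 * X : ℕ) : ℝ) * L₂ + y * L₂) ≤ X := by
    have e3 := h2 X (by omega)
    rw [← hL] at e3
    have e5 : √((2 * X : ℕ) : ℝ) ≤ 2 * √(X : ℝ) := by
      rw [Real.sqrt_le_left (by positivity), mul_pow, Real.sq_sqrt hX0.le]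
      push_cast
      linarith
    have e6 : L₂ ^ 2 ≤ 4 * L ^ 2 := by nlinarith
    calc 2 * L₂ * (2 * √((2 * X : ℕ) : ℝ) * L₂ + y * L₂) = L₂ ^ 2 * (4 * √((2 * X : ℕ) : ℝ) + 2 * y) := by ring
      _ ≤ (4 * L ^ 2) * (4 * (2 * √(X : ℝ)) + 2 * √(X : ℝ)) := by
          apply mul_le_mul e6 _ (by positivity) (by positivity)
          linarith
      _ = √(X : ℝ) * (40 * L ^ 2) := by ring
      _ ≤ √(X : ℝ) * √(X : ℝ) := by
          apply mul_le_mul_of_nonneg_left _ hs0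
          nlinarith [sq_nonneg L]
      _ = X := hss
  have hvn : ∀ n : ℕ, 0 ≤ (fun n : ℕ => (ArithmeticFunction.vonMangoldt n : ℝ)) n := fun n => ArithmeticFunction.vonMangoldt_nonneg
  have hb0 : (0 : ℝ) ≤ b := Nat.cast_nonneg b
  have hKr0 : (0 : ℝ) ≤ K := Nat.cast_nonneg K
  constructor
  · -- the diagonal
    have a1 := cor_le (fun n => ArithmeticFunction.vonMangoldt n) hvn X 0
    have a2 := cor_le (lamz z) (lamz_nonneg z) X 0
    rw [Int.natAbs_zero] at a1 a2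
    have a3 : ∑ a ∈ Icc 1 X, ArithmeticFunction.vonMangoldt a * ArithmeticFunction.vonMangoldt (a + 0) ≤ 6 * X * L := by
      have e0 := sum_vM_sq X hX1
      rw [← hL] at e0
      refine le_trans (le_of_eq ?_) e0
      apply sum_congr rfl
      intro a _
      rw [add_zero, sq]
    have a4 : ∑ a ∈ Icc 1 X, lamz z a * lamz z (a + 0) ≤ 3 * CI * X * L := by
      have hVz := hI z (by omega)
      have hlz : Real.log z ≤ L := by
        rw [hL]
        apply Real.log_le_log (by exact_mod_cast (by omega : 0 < z))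
        have : z ≤ z ^ K₁ := Nat.le_self_pow (by omega) z
        exact_mod_cast this.trans hzX
      have e1 : ∀ a ∈ Icc 1 X, lamz z a * lamz z (a + 0) ≤ lamz z a * (CI * L) := by
        intro a _
        apply mul_le_mul_of_nonneg_left _ (lamz_nonneg _ _)
        refine le_trans ?_ (hVz.trans (mul_le_mul_of_nonneg_left hlz (by linarith)))
        unfold lamz
        split_ifs
        · exact le_rfl
        · exact (inv_pos.2 (Vz_pos z)).le
      refine (sum_le_sum e1).trans ?_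
      rw [← sum_mul]
      calc (∑ a ∈ Icc 1 X, lamz z a) * (CI * L) ≤ (3 * X) * (CI * L) :=
            mul_le_mul_of_nonneg_right hz3 (by positivity)
        _ = _ := by ring
    have a5 : (6 + 3 * CI) * X * L ≤ (6 + 3 * CI) * X * (b * K) := mul_le_mul_of_nonneg_left hL2 (by positivity)
    have a6 : (0 : ℝ) ≤ (5 * (4 * K₁ * CV) ^ 2 + 1 + 5) * X * K := by positivity
    calc _ ≤ 6 * X * L + 3 * CI * X * L := add_le_add (a1.trans a3) (a2.trans a4)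
      _ = (6 + 3 * CI) * X * L := by ring
      _ ≤ (6 + 3 * CI) * X * (b * K) := a5
      _ ≤ (5 * (4 * K₁ * CV) ^ 2 + 1 + 5) * X * K + (6 + 3 * CI) * X * (b * K) := by linarith
      _ = _ := by ring
  · intro h hh0 hhX
    have a1 := cor_le (fun n => ArithmeticFunction.vonMangoldt n) hvn X h
    have a2 := cor_le (lamz z) (lamz_nonneg z) X h
    obtain ⟨d, hd⟩ : ∃ d, d = h.natAbs := ⟨_, rfl⟩
    rw [← hd] at a1 a2 ⊢
    have hd1 : 1 ≤ d := by omega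
    have hdX : d ≤ X := by
      have e0 : ((d : ℕ) : ℤ) ≤ X := by rw [hd, Int.natCast_natAbs]; exact hhX
      exact_mod_cast e0
    have hg := one_le_gg d
    have a3 := hz4 d hd1
    have a4 := hy4 d hd1
    have hmaj : ∀ a, a ∈ Icc 1 (2 * X) → ArithmeticFunction.vonMangoldt a ≤ (L₂ * Vz y) * lamz y a + exc L₂ y a := by
      intro a ha
      have := vM_maj (2 * X) y a (by omega) ha
      rwa [← hL₂] at this
    have hen : ∀ a, 0 ≤ exc L₂ y a := fun a => exc_nonneg L₂ hL₂0 y a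
    have hmn : ∀ a, 0 ≤ (L₂ * Vz y) * lamz y a := fun a => mul_nonneg (by positivity) (lamz_nonneg _ _)
    have hml : ∀ a, (L₂ * Vz y) * lamz y a ≤ L₂ := by
      intro a
      have : lamz y a ≤ (Vz y)⁻¹ := by
        unfold lamz
        split_ifs
        · exact le_rfl
        · exact (inv_pos.2 hVp).le
      calc (L₂ * Vz y) * lamz y a ≤ (L₂ * Vz y) * (Vz y)⁻¹ := mul_le_mul_of_nonneg_left this (by positivity)
        _ = L₂ := by rw [mul_assoc, mul_inv_cancel₀ hVp.ne', mul_one]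
    have hvl : ∀ a, a ≤ 2 * X → ArithmeticFunction.vonMangoldt a ≤ L₂ := by
      intro a ha
      rw [hL₂]
      exact vM_le a (2 * X) (by omega) ha
    have hpt : ∀ a ∈ Icc 1 X, ArithmeticFunction.vonMangoldt a * ArithmeticFunction.vonMangoldt (a + d) ≤
        (L₂ * Vz y) ^ 2 * (lamz y a * lamz y (a + d)) + L₂ * (exc L₂ y (a + d) + exc L₂ y a) := by
      intro a ha
      rw [mem_Icc] at ha
      have b1 := hmaj a (by rw [mem_Icc]; omega)
      have b2 := hmaj (a + d) (by rw [mem_Icc]; omega)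
      have b3 := hvl (a + d) (by omega)
      have b4 : 0 ≤ ArithmeticFunction.vonMangoldt (a + d) := ArithmeticFunction.vonMangoldt_nonneg
      calc ArithmeticFunction.vonMangoldt a * ArithmeticFunction.vonMangoldt (a + d) ≤
            ((L₂ * Vz y) * lamz y a + exc L₂ y a) * ArithmeticFunction.vonMangoldt (a + d) := mul_le_mul_of_nonneg_right b1 b4
        _ = (L₂ * Vz y) * lamz y a * ArithmeticFunction.vonMangoldt (a + d) + exc L₂ y a * ArithmeticFunction.vonMangoldt (a + d) := by ring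
        _ ≤ (L₂ * Vz y) * lamz y a * ((L₂ * Vz y) * lamz y (a + d) + exc L₂ y (a + d)) + exc L₂ y a * L₂ :=
            add_le_add (mul_le_mul_of_nonneg_left b2 (hmn a)) (mul_le_mul_of_nonneg_left b3 (hen a))
        _ = (L₂ * Vz y) ^ 2 * (lamz y a * lamz y (a + d)) + ((L₂ * Vz y) * lamz y a) * exc L₂ y (a + d) + exc L₂ y a * L₂ := by ring
        _ ≤ (L₂ * Vz y) ^ 2 * (lamz y a * lamz y (a + d)) + L₂ * exc L₂ y (a + d) + exc L₂ y a * L₂ := by
            have := mul_le_mul_of_nonneg_right (hml a) (hen (a + d))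
            linarith
        _ = _ := by ring
    have hE := exc_sum (2 * X) y (by omega)
    rw [← hL₂] at hE
    have hE1 : ∑ a ∈ Icc 1 X, exc L₂ y a ≤ ∑ a ∈ Icc 1 (2 * X), exc L₂ y a :=
      sum_le_sum_of_subset_of_nonneg (Icc_subset_Icc_right (by omega)) fun a _ _ => hen a
    have hE2 : ∑ a ∈ Icc 1 X, exc L₂ y (a + d) ≤ ∑ a ∈ Icc 1 (2 * X), exc L₂ y a := by
      rw [← sum_image (s := Icc 1 X) (g := fun a => a + d) (f := fun a => exc L₂ y a)]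
      · apply sum_le_sum_of_subset_of_nonneg _ fun a _ _ => hen a
        intro a ha
        rw [mem_image] at ha
        obtain ⟨a', ha', rfl⟩ := ha
        rw [mem_Icc] at ha' ⊢
        omega
      · intro a _ a' _ haa
        simp only at haa
        omega
    have a5 : ∑ a ∈ Icc 1 X, ArithmeticFunction.vonMangoldt a * ArithmeticFunction.vonMangoldt (a + d) ≤
        (4 * K₁ * CV) ^ 2 * (5 * X * gg d) + X := by
      refine (sum_le_sum hpt).trans ?_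
      rw [sum_add_distrib, ← mul_sum, ← mul_sum, sum_add_distrib]
      apply add_le_add
      · exact mul_le_mul hc a4 (sum_nonneg fun a _ => mul_nonneg (lamz_nonneg _ _) (lamz_nonneg _ _)) (by positivity)
      · refine le_trans ?_ herr
        have : L₂ * (∑ a ∈ Icc 1 X, exc L₂ y (a + d) + ∑ a ∈ Icc 1 X, exc L₂ y a) ≤
            L₂ * (2 * (2 * √((2 * X : ℕ) : ℝ) * L₂ + y * L₂)) := by
          apply mul_le_mul_of_nonneg_left _ hL₂0
          linarith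
        linarith
    have a6 : (X : ℝ) ≤ X * gg d := le_mul_of_one_le_right hX0.le hg
    have a7 : 0 ≤ (6 + 3 * CI) * b * X * gg d := by positivity
    calc _ ≤ ((4 * K₁ * CV) ^ 2 * (5 * X * gg d) + X) + 5 * X * gg d := add_le_add (a1.trans a5) (a2.trans a3)
      _ ≤ ((4 * K₁ * CV) ^ 2 * (5 * X * gg d) + X * gg d) + 5 * X * gg d + (6 + 3 * CI) * b * X * gg d := by linarith
      _ = _ := by ring

end Pool.Agent.TH894.SM
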