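import Pool.Agent.H43.G.R_seed8.TH894.SM2

set_option autoImplicit false

/-! The bound for the fourth moment. -/

namespace Pool.Agent.TH894.SM
open Finset
open Pool.Agent.H807R2.Dav
open Pool.Agent.H373R2.T7
open Pool.Agent.W93.DG
open Pool.Agent.W93.HD

/-- the changes -/
def dl (b : ℕ) (e : ℕ → ℤ) (j : ℕ) : ℤ := e j * (b : ℤ) ^ j

lemma dl_not_dvd (b : ℕ) (hb : 2 ≤ b) (e : ℕ → ℤ) (he : ∀ j, e j ≠ 0 ∧ |e j| < b) (j : ℕ) :
    ¬ (b : ℤ) ^ (j + 1) ∣ dl b e j := by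
  intro h
  unfold dl at h
  rw [pow_succ', mul_comm (e j)] at h
  have hb0 : (b : ℤ) ≠ 0 := by exact_mod_cast (by omega : b ≠ 0)
  rw [mul_comm (b : ℤ)] at h
  have h1 : (b : ℤ) ∣ e j := (mul_dvd_mul_iff_left (pow_ne_zero j hb0)).1 h
  exact (he j).1 (Int.eq_zero_of_abs_lt_dvd h1 (he j).2)

lemma dl_dvd (b : ℕ) (e : ℕ → ℤ) (i j : ℕ) (h : i ≤ j) : (b : ℤ) ^ i ∣ dl b e j :=
  (pow_dvd_pow (b : ℤ) h).mul_left _

lemma dl_inj (b : ℕ) (hb : 2 ≤ b) (e : ℕ → ℤ) (he : ∀ j, e j ≠ 0 ∧ |e j| < b) (j j' : ℕ) (h : dl b e j = dl b e j') : j = j' := by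
  by_contra hne
  rcases Nat.lt_or_gt_of_ne hne with h1 | h1
  · exact dl_not_dvd b hb e he j (by rw [h]; exact dl_dvd b e _ _ h1)
  · exact dl_not_dvd b hb e he j' (by rw [← h]; exact dl_dvd b e _ _ h1)

lemma dl_pair (b : ℕ) (hb : 2 ≤ b) (e : ℕ → ℤ) (he : ∀ j, e j ≠ 0 ∧ |e j| < b) (j₁ j₂ i₁ i₂ : ℕ) (h1 : j₁ < j₂) (h2 : i₁ < i₂)
    (h : dl b e j₁ + dl b e j₂ = dl b e i₁ + dl b e i₂) : j₁ = i₁ ∧ j₂ = i₂ := by
  have h3 : j₁ = i₁ := by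
    by_contra hne
    rcases Nat.lt_or_gt_of_ne hne with h3 | h3
    · apply dl_not_dvd b hb e he j₁
      have : dl b e j₁ = dl b e i₁ + dl b e i₂ - dl b e j₂ := by linarith
      rw [this]
      exact dvd_sub (dvd_add (dl_dvd b e _ _ (by omega)) (dl_dvd b e _ _ (by omega))) (dl_dvd b e _ _ (by omega))
    · apply dl_not_dvd b hb e he i₁
      have : dl b e i₁ = dl b e j₁ + dl b e j₂ - dl b e i₂ := by linarith
      rw [this]
      exact dvd_sub (dvd_add (dl_dvd b e _ _ (by omega)) (dl_dvd b e _ _ (by omega))) (dl_dvd b e _ _ (by omega))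
  refine ⟨h3, ?_⟩
  rw [h3] at h
  exact dl_inj b hb e he _ _ (by linarith)

lemma pair_cnt (b : ℕ) (hb : 2 ≤ b) (e : ℕ → ℤ) (he : ∀ j, e j ≠ 0 ∧ |e j| < b) (J : Finset ℕ) (s : ℤ) :
    ((J ×ˢ J).filter (fun p => dl b e p.1 + dl b e p.2 = s)).card ≤ 3 := by
  classical
  set S := (J ×ˢ J).filter (fun p => dl b e p.1 + dl b e p.2 = s) with hS
  have h1 : (S.filter (fun p => p.1 < p.2)).card ≤ 1 := by
    apply card_le_one.2
    rintro ⟨a, c⟩ hp ⟨a', c'⟩ hp'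
    rw [mem_filter, hS, mem_filter] at hp hp'
    obtain ⟨e1, e2⟩ := dl_pair b hb e he a c a' c' hp.2 hp'.2 (by rw [hp.1.2, hp'.1.2])
    rw [e1, e2]
  have h2 : (S.filter (fun p => p.2 < p.1)).card ≤ 1 := by
    apply card_le_one.2
    rintro ⟨a, c⟩ hp ⟨a', c'⟩ hp'
    rw [mem_filter, hS, mem_filter] at hp hp'
    have e0 := hp.1.2
    have e0' := hp'.1.2
    simp only at e0 e0'
    obtain ⟨e1, e2⟩ := dl_pair b hb e he c a c' a' hp.2 hp'.2 (by linarith)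
    rw [e1, e2]
  have h3 : (S.filter (fun p => p.1 = p.2)).card ≤ 1 := by
    apply card_le_one.2
    rintro ⟨a, c⟩ hp ⟨a', c'⟩ hp'
    rw [mem_filter, hS, mem_filter] at hp hp'
    have e0 := hp.1.2
    have e0' := hp'.1.2
    have e1 := hp.2
    have e1' := hp'.2
    simp only at e0 e0' e1 e1'
    subst e1
    subst e1'
    have := dl_inj b hb e he a a' (by linarith)
    rw [this]
  have h4 : S ⊆ (S.filter (fun p => p.1 < p.2)) ∪ ((S.filter (fun p => p.2 < p.1)) ∪ (S.filter (fun p => p.1 = p.2))) := by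
    intro p hp
    rcases Nat.lt_trichotomy p.1 p.2 with h | h | h
    · exact mem_union.2 (Or.inl (mem_filter.2 ⟨hp, h⟩))
    · exact mem_union.2 (Or.inr (mem_union.2 (Or.inr (mem_filter.2 ⟨hp, h⟩))))
    · exact mem_union.2 (Or.inr (mem_union.2 (Or.inl (mem_filter.2 ⟨hp, h⟩))))
  have h5 := card_le_card h4
  have h6 := card_union_le (S.filter (fun p => p.1 < p.2)) ((S.filter (fun p => p.2 < p.1)) ∪ (S.filter (fun p => p.1 = p.2)))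
  have h7 := card_union_le (S.filter (fun p => p.2 < p.1)) (S.filter (fun p => p.1 = p.2))
  omega

lemma zero_cnt (b : ℕ) (hb : 2 ≤ b) (e : ℕ → ℤ) (he : ∀ j, e j ≠ 0 ∧ |e j| < b) (J : Finset ℕ) :
    ∑ q ∈ (J ×ˢ J) ×ˢ (J ×ˢ J), (if yq (dl b e) q = 0 then (1 : ℝ) else 0) ≤ 3 * (J.card : ℝ) ^ 2 := by
  classical
  rw [sum_product, sum_comm]
  have h1 : ∀ p' ∈ J ×ˢ J, ∑ p ∈ J ×ˢ J, (if yq (dl b e) (p, p') = 0 then (1 : ℝ) else 0) ≤ 3 := by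
    intro p' _
    rw [← sum_filter, sum_const, nsmul_eq_mul, mul_one]
    have h2 := pair_cnt b hb e he J (dl b e p'.1 + dl b e p'.2)
    have h3 : (J ×ˢ J).filter (fun p => yq (dl b e) (p, p') = 0) = (J ×ˢ J).filter (fun p => dl b e p.1 + dl b e p.2 = dl b e p'.1 + dl b e p'.2) := by
      apply filter_congr
      intro p _
      unfold yq
      simp only
      constructor
      · intro h; linarith
      · intro h; linarith
    rw [h3]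
    exact_mod_cast h2
  refine (sum_le_sum h1).trans (le_of_eq ?_)
  rw [sum_const, card_product, nsmul_eq_mul]
  push_cast
  ring

lemma dl_abs (b : ℕ) (hb : 2 ≤ b) (e : ℕ → ℤ) (he : ∀ j, e j ≠ 0 ∧ |e j| < b) (j K : ℕ) (h : j < K) : |dl b e j| ≤ (b : ℤ) ^ K := by
  unfold dl
  rw [abs_mul, abs_of_nonneg (show (0 : ℤ) ≤ (b : ℤ) ^ j by positivity)]
  calc |e j| * (b : ℤ) ^ j ≤ b * (b : ℤ) ^ j := mul_le_mul_of_nonneg_right (he j).2.le (by positivity)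
    _ = (b : ℤ) ^ (j + 1) := by rw [pow_succ']
    _ ≤ (b : ℤ) ^ K := pow_le_pow_right₀ (by exact_mod_cast (by omega : 1 ≤ b)) h

/-- Romanoff's sum over four positions -/
theorem rom_four (b : ℕ) (hb : 2 ≤ b) : ∃ C : ℝ, 0 ≤ C ∧ ∀ K : ℕ, 3 ≤ K → ∀ e : ℕ → ℤ, (∀ j, e j ≠ 0 ∧ |e j| < b) →
    ∀ J ⊆ range (K - 2),
    ∑ q ∈ (J ×ˢ J) ×ˢ (J ×ˢ J), (if yq (dl b e) q = 0 then 0 else gg (yq (dl b e) q).natAbs ^ 2) ≤ C * K * (J.card : ℝ) ^ 3 := by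
  classical
  obtain ⟨C, hC0, hC⟩ := rom_shift b hb
  refine ⟨C, hC0, fun K hK e he J hJ => ?_⟩
  have hJK : J ⊆ range K := hJ.trans (range_subset_range.2 (by omega))
  have hsmall : ∀ j ∈ J, |dl b e j| ≤ (b : ℤ) ^ (K - 2) := fun j hj => dl_abs b hb e he j (K - 2) (mem_range.1 (hJ hj))
  have hbK : 3 * (b : ℤ) ^ (K - 2) ≤ (b : ℤ) ^ (K + 1) := by
    have e1 : (b : ℤ) ^ (K + 1) = (b : ℤ) ^ 3 * (b : ℤ) ^ (K - 2) := by rw [← pow_add]; congr 1; omega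
    rw [e1]
    apply mul_le_mul_of_nonneg_right _ (by positivity)
    have : (2 : ℤ) ^ 3 ≤ (b : ℤ) ^ 3 := pow_le_pow_left₀ (by norm_num) (by exact_mod_cast hb) 3
    linarith
  have h1 : ∑ q ∈ (J ×ˢ J) ×ˢ (J ×ˢ J), (if yq (dl b e) q = 0 then 0 else gg (yq (dl b e) q).natAbs ^ 2) =
      ∑ j₂ ∈ J, ∑ p' ∈ J ×ˢ J, ∑ j₁ ∈ J, (if yq (dl b e) ((j₁, j₂), p') = 0 then 0 else gg (yq (dl b e) ((j₁, j₂), p')).natAbs ^ 2) := by
    rw [sum_product, sum_product, sum_comm]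
    apply sum_congr rfl
    intro j₂ _
    rw [sum_comm]
  rw [h1]
  have h2 : ∀ j₂ ∈ J, ∀ p' ∈ J ×ˢ J, ∑ j₁ ∈ J, (if yq (dl b e) ((j₁, j₂), p') = 0 then 0 else gg (yq (dl b e) ((j₁, j₂), p')).natAbs ^ 2) ≤ C * K := by
    intro j₂ hj₂ p' hp'
    rw [mem_product] at hp'
    refine hC K (by omega) e he J hJK (dl b e j₂ - dl b e p'.1 - dl b e p'.2) ?_
    have a1 := hsmall _ hj₂
    have a2 := hsmall _ hp'.1
    have a3 := hsmall _ hp'.2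
    rw [abs_le] at a1 a2 a3 ⊢
    constructor <;> linarith
  have h3 : ∀ j₂ ∈ J, ∑ p' ∈ J ×ˢ J, ∑ j₁ ∈ J, (if yq (dl b e) ((j₁, j₂), p') = 0 then 0 else gg (yq (dl b e) ((j₁, j₂), p')).natAbs ^ 2) ≤
      (J.card : ℝ) ^ 2 * (C * K) := by
    intro j₂ hj₂
    refine (sum_le_sum (h2 j₂ hj₂)).trans (le_of_eq ?_)
    rw [sum_const, card_product, nsmul_eq_mul]
    push_cast
    ring
  refine (sum_le_sum h3).trans (le_of_eq ?_)
  rw [sum_const, nsmul_eq_mul]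
  ring

/-- the sum of the squares of the transforms of the primes and of the model -/
noncomputable def VV (z X M r : ℕ) : ℝ := ‖FF (fun n => ArithmeticFunction.vonMangoldt n) X M r‖ ^ 2 + ‖FF (lamz z) X M r‖ ^ 2

lemma VV_nonneg (z X M r : ℕ) : 0 ≤ VV z X M r := by unfold VV; positivity

/-- the fourth moment -/
theorem VV_four (b : ℕ) (hb : 2 ≤ b) : ∃ C : ℝ, 0 ≤ C ∧ ∀ Ez : ℕ, ∃ k₀ : ℕ, ∀ K : ℕ, k₀ ≤ K → ∀ z : ℕ,
    Real.log ((b ^ K : ℕ) : ℝ) ≤ z → (z : ℝ) ≤ Real.log ((b ^ K : ℕ) : ℝ) ^ Ez → ∀ e : ℕ → ℤ, (∀ j, e j ≠ 0 ∧ |e j| < b) →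
    ∀ J ⊆ range (K - 2), K ≤ 4 * J.card →
    ∑ r ∈ range (b ^ (K + 1)), ∑ r' ∈ range (b ^ (K + 1)), VV z (b ^ K) (b ^ (K + 1)) r * VV z (b ^ K) (b ^ (K + 1)) r' *
        ‖Ph (dl b e) J (((r' : ℝ) - r) / ((b ^ (K + 1) : ℕ) : ℝ))‖ ^ 4 ≤
      C * (((b ^ (K + 1) : ℕ) : ℝ) * ((b ^ K : ℕ) : ℝ)) ^ 2 * (J.card : ℝ) ^ 4 := by
  classical
  obtain ⟨C₁, hC₁, hcor⟩ := cor_bound b hb
  obtain ⟨C₂, hC₂, hrom⟩ := rom_four b hb
  refine ⟨C₁ ^ 2 * (48 + 4 * C₂), by positivity, fun Ez => ?_⟩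
  obtain ⟨k₀, h0⟩ := hcor Ez
  refine ⟨k₀ + 3, fun K hK z hz1 hz2 e he J hJ hJK => ?_⟩
  obtain ⟨hc0, hc1⟩ := h0 K (by omega) z hz1 hz2
  obtain ⟨X, hX⟩ : ∃ X, X = b ^ K := ⟨_, rfl⟩
  obtain ⟨M, hM⟩ : ∃ M, M = b ^ (K + 1) := ⟨_, rfl⟩
  rw [← hX] at hc0 hc1 ⊢
  rw [← hM]
  have hbn : 0 < b := by omega
  have hX0 : 0 < X := by rw [hX]; exact Nat.pow_pos hbn
  have hMX : M = b * X := by rw [hM, hX, pow_succ']
  have hXM : 2 * X ≤ M := by rw [hMX]; exact Nat.mul_le_mul_right _ hb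
  have hXr : (0 : ℝ) < X := by exact_mod_cast hX0
  have hMr : (0 : ℝ) < M := by exact_mod_cast (by omega : 0 < M)
  obtain ⟨c, hc⟩ : ∃ c : ℤ → ℝ, c = fun y => cor (fun n => ArithmeticFunction.vonMangoldt n) X y + cor (lamz z) X y := ⟨_, rfl⟩
  have hsmall : ∀ j ∈ J, |dl b e j| ≤ (b : ℤ) ^ (K - 2) := fun j hj => dl_abs b hb e he j (K - 2) (mem_range.1 (hJ hj))
  have hb4 : 4 * (b : ℤ) ^ (K - 2) ≤ X := by
    have e1 : (X : ℤ) = (b : ℤ) ^ 2 * (b : ℤ) ^ (K - 2) := by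
      rw [hX]; push_cast; rw [← pow_add]; congr 1; omega
    rw [e1]
    apply mul_le_mul_of_nonneg_right _ (by positivity)
    have : (2 : ℤ) ^ 2 ≤ (b : ℤ) ^ 2 := pow_le_pow_left₀ (by norm_num) (by exact_mod_cast hb) 2
    linarith
  have hyq : ∀ q ∈ (J ×ˢ J) ×ˢ (J ×ˢ J), |yq (dl b e) q| ≤ (X : ℤ) := by
    intro q hq
    rw [mem_product, mem_product, mem_product] at hq
    have a0 := hsmall _ hq.1.1
    have a1 := hsmall _ hq.1.2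
    have a2 := hsmall _ hq.2.1
    have a3 := hsmall _ hq.2.2
    unfold yq
    rw [abs_le] at a0 a1 a2 a3 ⊢
    constructor <;> linarith
  have hV : ∀ y : ℤ, |y| ≤ (X : ℤ) → ∑ r ∈ range M, ((VV z X M r : ℝ) : ℂ) * ee (-((y : ℝ) * ((r : ℝ) / (M : ℝ)))) = ((M * c y : ℝ) : ℂ) := by
    intro y hy
    have hyM : |y| + X ≤ M := by
      have : (2 * X : ℤ) ≤ M := by exact_mod_cast hXM
      linarith
    have a1 := cor_FF (fun n => ArithmeticFunction.vonMangoldt n) X M (by omega) y hyM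
    have a2 := cor_FF (lamz z) X M (by omega) y hyM
    rw [hc]
    simp only
    rw [mul_add, Complex.ofReal_add, ← a1, ← a2, ← sum_add_distrib]
    apply sum_congr rfl
    intro r _
    unfold VV
    push_cast
    ring
  rw [fourth (dl b e) J M (VV z X M) c X hyq hV]
  have hcn : ∀ y, c (-y) = c y := by
    intro y
    rw [hc]
    simp only
    rw [cor_neg, cor_neg]
  have hcp : ∀ y, 0 ≤ c y := by
    intro y
    rw [hc]
    exact add_nonneg (cor_nonneg _ (fun a => ArithmeticFunction.vonMangoldt_nonneg) X y) (cor_nonneg _ (lamz_nonneg z) X y)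
  have hterm : ∀ q ∈ (J ×ˢ J) ×ˢ (J ×ˢ J), c (yq (dl b e) q) * c (-yq (dl b e) q) ≤
      (C₁ * X) ^ 2 * ((K : ℝ) ^ 2 * (if yq (dl b e) q = 0 then (1 : ℝ) else 0) + (if yq (dl b e) q = 0 then 0 else gg (yq (dl b e) q).natAbs ^ 2)) := by
    intro q hq
    rw [hcn, ← sq]
    by_cases h : yq (dl b e) q = 0
    · rw [if_pos h, if_pos h, h, mul_one, add_zero, ← mul_pow]
      apply pow_le_pow_left₀ (hcp _)
      rw [hc]
      exact hc0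
    · rw [if_neg h, if_neg h, mul_zero, zero_add, ← mul_pow]
      apply pow_le_pow_left₀ (hcp _)
      rw [hc]
      exact hc1 _ h (hyq q hq)
  have hsum := sum_le_sum hterm
  rw [← mul_sum, sum_add_distrib, ← mul_sum] at hsum
  have hz := zero_cnt b hb e he J
  have hr := hrom K (by omega) e he J hJ
  have hK4 : (K : ℝ) ≤ 4 * J.card := by exact_mod_cast hJK
  have hK0 : (0 : ℝ) ≤ K := Nat.cast_nonneg K
  have hJ0 : (0 : ℝ) ≤ J.card := Nat.cast_nonneg _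
  have hfin : (K : ℝ) ^ 2 * ∑ q ∈ (J ×ˢ J) ×ˢ (J ×ˢ J), (if yq (dl b e) q = 0 then (1 : ℝ) else 0) +
      ∑ q ∈ (J ×ˢ J) ×ˢ (J ×ˢ J), (if yq (dl b e) q = 0 then 0 else gg (yq (dl b e) q).natAbs ^ 2) ≤ (48 + 4 * C₂) * (J.card : ℝ) ^ 4 := by
    have a1 : (K : ℝ) ^ 2 * ∑ q ∈ (J ×ˢ J) ×ˢ (J ×ˢ J), (if yq (dl b e) q = 0 then (1 : ℝ) else 0) ≤ (4 * (J.card : ℝ)) ^ 2 * (3 * (J.card : ℝ) ^ 2) := by
      apply mul_le_mul (pow_le_pow_left₀ hK0 hK4 2) hz _ (by positivity)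
      exact sum_nonneg fun _ _ => by split_ifs <;> norm_num
    have a2 : C₂ * K * (J.card : ℝ) ^ 3 ≤ C₂ * (4 * J.card) * (J.card : ℝ) ^ 3 := by
      apply mul_le_mul_of_nonneg_right _ (by positivity)
      exact mul_le_mul_of_nonneg_left hK4 hC₂
    calc _ ≤ (4 * (J.card : ℝ)) ^ 2 * (3 * (J.card : ℝ) ^ 2) + C₂ * (4 * J.card) * (J.card : ℝ) ^ 3 := add_le_add a1 (hr.trans a2)
      _ = _ := by ring
  calc (M : ℝ) ^ 2 * ∑ q ∈ (J ×ˢ J) ×ˢ (J ×ˢ J), c (yq (dl b e) q) * c (-yq (dl b e) q) ≤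
      (M : ℝ) ^ 2 * ((C₁ * X) ^ 2 * ((48 + 4 * C₂) * (J.card : ℝ) ^ 4)) := by
        apply mul_le_mul_of_nonneg_left _ (by positivity)
        exact hsum.trans (mul_le_mul_of_nonneg_left hfin (by positivity))
    _ = _ := by ring

end Pool.Agent.TH894.SM
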