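import Pool.Agent.H43.G.R_seed8.TH894.SM3

set_option autoImplicit false

/-! The sum over the positions of a window is small unless the digits are nearly extremal. -/

namespace Pool.Agent.TH894.SM
open Finset
open Pool.Agent.H807R2.Dav
open Pool.Agent.H373R2.T7
open Pool.Agent.W93.DG
open Pool.Agent.W93.HD
open Pool.Agent.W93.RD (ext_dist cos_dist)

lemma dist_s (b K j r r' μ : ℕ) (hb : 2 ≤ b) (hj : j + 1 ≤ K) (hr : r ≤ b ^ (K + 1))
    (hE : ¬ Ext b (K - 1 - j) ((μ * r' + μ * (b ^ (K + 1) - r)) % b ^ (K + 1))) (n : ℤ) :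
    1 / (b : ℝ) ^ 2 ≤ |(μ : ℝ) * ((b : ℝ) ^ j * (((r' : ℝ) - r) / ((b ^ (K + 1) : ℕ) : ℝ))) - n| := by
  have hbn : 0 < b := by omega
  have hb0 : (0 : ℝ) < b := by exact_mod_cast hbn
  obtain ⟨M, hM⟩ : ∃ M, M = b ^ (K + 1) := ⟨_, rfl⟩
  rw [← hM] at hE hr ⊢
  have hM0 : (0 : ℝ) < M := by rw [hM]; exact_mod_cast Nat.pow_pos hbn
  obtain ⟨u, hu⟩ : ∃ u, u = μ * r' + μ * (M - r) := ⟨_, rfl⟩
  rw [← hu] at hE
  have h1 := Nat.div_add_mod u M
  obtain ⟨q, hq⟩ : ∃ q, q = u / M := ⟨_, rfl⟩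
  rw [← hq] at h1
  have h2 : (u : ℝ) = μ * r' + μ * (M - r) := by
    rw [hu]; push_cast [Nat.cast_sub hr]; ring
  have h3 : ((u % M : ℕ) : ℝ) = μ * r' + μ * (M - r) - M * (q : ℝ) := by
    have : (u : ℝ) = M * (q : ℝ) + ((u % M : ℕ) : ℝ) := by exact_mod_cast h1.symm
    linarith
  have h4 := ext_dist b (K - 1 - j) (u % M) hb hE (n + ((μ : ℤ) - (q : ℤ)) * (b : ℤ) ^ j)
  have h5 : (b : ℝ) ^ (K - 1 - j + 2) = M / (b : ℝ) ^ j := by
    have e1 : (M : ℝ) = (b : ℝ) ^ j * (b : ℝ) ^ (K - 1 - j + 2) := by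
      rw [hM, ← pow_add]; push_cast; congr 1; omega
    rw [e1]
    field_simp
  rw [h5, h3] at h4
  refine h4.trans (le_of_eq ?_)
  congr 1
  push_cast
  field_simp
  ring

lemma cos_le (x κ : ℝ) (hκ : 0 ≤ κ) (hκ1 : κ ≤ 1 / 2) (h : ∀ n : ℤ, κ ≤ |x - n|) : (ee x).re ≤ 1 - 4 * κ ^ 2 := by
  have h1 := cos_dist x κ hκ h
  have h2 : ‖1 + ee x‖ ^ 2 = 2 + 2 * (ee x).re := by
    have e1 := norm_ee x
    have e2 : ‖ee x‖ ^ 2 = (ee x).re ^ 2 + (ee x).im ^ 2 := by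
      rw [← Complex.normSq_eq_norm_sq, Complex.normSq_apply]; ring
    rw [← Complex.normSq_eq_norm_sq, Complex.normSq_apply]
    simp only [Complex.add_re, Complex.one_re, Complex.add_im, Complex.one_im, zero_add]
    rw [e1, one_pow] at e2
    nlinarith
  have h3 : ‖1 + ee x‖ ^ 2 ≤ (2 - 4 * κ ^ 2) ^ 2 := pow_le_pow_left₀ (norm_nonneg _) h1 2
  rw [h2] at h3
  have h4 : κ ^ 2 ≤ 1 / 4 := by nlinarith
  nlinarith [sq_nonneg κ]

/-- the sum of unit vectors -/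
lemma Ph_split (δ : ℕ → ℤ) (J : Finset ℕ) (θ κ : ℝ) (hκ : 0 ≤ κ) (hκ1 : κ ≤ 1 / 2) : ∃ c : ℝ, ∃ G ⊆ J,
    (∀ j ∈ G, ∃ n : ℤ, |(δ j : ℝ) * θ - c - n| < κ) ∧ ‖Ph δ J θ‖ ≤ J.card - 4 * κ ^ 2 * (J \ G).card := by
  classical
  obtain ⟨c, hc⟩ : ∃ c, c = Complex.arg (Ph δ J θ) / (2 * Real.pi) := ⟨_, rfl⟩
  have hpi : Real.pi ≠ 0 := Real.pi_ne_zero
  refine ⟨c, J.filter (fun j => ∃ n : ℤ, |(δ j : ℝ) * θ - c - n| < κ), filter_subset _ _, fun j hj => (mem_filter.1 hj).2, ?_⟩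
  have h1 : ee c = Complex.exp (Complex.arg (Ph δ J θ) * Complex.I) := by
    rw [ee_eq]
    congr 2
    rw [hc]
    have : 2 * Real.pi * (Complex.arg (Ph δ J θ) / (2 * Real.pi)) = Complex.arg (Ph δ J θ) := by field_simp
    rw [this]
  have h2 : ((‖Ph δ J θ‖ : ℝ) : ℂ) = ∑ j ∈ J, ee ((δ j : ℝ) * θ - c) := by
    have h3 := Complex.norm_mul_exp_arg_mul_I (Ph δ J θ)
    rw [← h1] at h3
    have h4 : ee c * ee (-c) = 1 := by rw [← ee_add, add_neg_cancel, ee_zero]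
    calc ((‖Ph δ J θ‖ : ℝ) : ℂ) = (((‖Ph δ J θ‖ : ℝ) : ℂ) * ee c) * ee (-c) := by rw [mul_assoc, h4, mul_one]
      _ = Ph δ J θ * ee (-c) := by rw [h3]
      _ = _ := by
          unfold Ph
          rw [sum_mul]
          apply sum_congr rfl
          intro j _
          rw [← ee_add]
          congr 1
  have h3 : ‖Ph δ J θ‖ = ∑ j ∈ J, (ee ((δ j : ℝ) * θ - c)).re := by
    have := congrArg Complex.re h2
    rw [Complex.ofReal_re, Complex.re_sum] at this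
    exact this
  rw [h3]
  have h4 : ∀ j ∈ J, (ee ((δ j : ℝ) * θ - c)).re ≤ 1 - 4 * κ ^ 2 * (if (∃ n : ℤ, |(δ j : ℝ) * θ - c - n| < κ) then 0 else 1) := by
    intro j _
    by_cases h : ∃ n : ℤ, |(δ j : ℝ) * θ - c - n| < κ
    · rw [if_pos h, mul_zero, sub_zero]
      exact (Complex.re_le_norm _).trans (le_of_eq (norm_ee _))
    · rw [if_neg h, mul_one]
      push Not at h
      exact cos_le _ κ hκ hκ1 h
  refine (sum_le_sum h4).trans (le_of_eq ?_)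
  rw [sum_sub_distrib, sum_const, nsmul_eq_mul, mul_one, ← mul_sum]
  congr 2
  have h5 : J \ J.filter (fun j => ∃ n : ℤ, |(δ j : ℝ) * θ - c - n| < κ) = J.filter (fun j => ¬ ∃ n : ℤ, |(δ j : ℝ) * θ - c - n| < κ) := by
    ext j
    simp only [mem_sdiff, mem_filter]
    tauto
  rw [h5, card_filter]
  push_cast
  apply sum_congr rfl
  intro j _
  split_ifs <;> simp_all

/-- two consecutive elements -/
lemma consec (G : Finset ℕ) (x w : ℕ) (hG : G ⊆ Ico x (x + w)) (h : ∀ a ∈ G, a + 1 ∉ G) : G.card ≤ (w + 1) / 2 := by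
  have h1 : G.card ≤ (range ((w + 1) / 2)).card := by
    apply card_le_card_of_injOn (fun a => (a - x) / 2)
    · intro a ha
      have := mem_Ico.1 (hG ha)
      rw [mem_coe, mem_range]
      show (a - x) / 2 < (w + 1) / 2
      omega
    · intro a ha a' ha' hh
      simp only at hh
      have h2 := mem_Ico.1 (hG ha)
      have h3 := mem_Ico.1 (hG ha')
      by_contra hne
      rcases Nat.lt_or_gt_of_ne hne with h4 | h4
      · have : a' = a + 1 := by omega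
        exact h a ha (this ▸ ha')
      · have : a = a' + 1 := by omega
        exact h a' ha' (this ▸ ha)
  rwa [card_range] at h1

/-- the multiplier -/
def mu (b : ℕ) : ℕ := (b ^ 2).factorial * b.factorial

lemma mu_pos (b : ℕ) : 0 < mu b := Nat.mul_pos (Nat.factorial_pos _) (Nat.factorial_pos _)

/-- all good positions are extremal -/
lemma good_ext (b : ℕ) (hb : 2 ≤ b) (e : ℕ → ℤ) (he : ∀ j, e j ≠ 0 ∧ |e j| < b) (θ c κ : ℝ) (hκ0 : 0 < κ)
    (hκ : κ * (4 * (b : ℝ) ^ 4 * mu b) ≤ 1) (G : Finset ℕ)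
    (hG : ∀ j ∈ G, ∃ n : ℤ, |(dl b e j : ℝ) * θ - c - n| < κ) (a : ℕ) (ha : a ∈ G) (ha1 : a + 1 ∈ G) (j : ℕ) (hj : j ∈ G) :
    ∃ n : ℤ, |(mu b : ℝ) * ((b : ℝ) ^ j * θ) - n| < 1 / (b : ℝ) ^ 2 := by
  obtain ⟨n₁, h1⟩ := hG a ha
  obtain ⟨n₂, h2⟩ := hG (a + 1) ha1
  obtain ⟨n₃, h3⟩ := hG j hj
  obtain ⟨ε₁, hε₁⟩ : ∃ ε₁, ε₁ = (dl b e a : ℝ) * θ - c - n₁ := ⟨_, rfl⟩
  obtain ⟨ε₂, hε₂⟩ : ∃ ε₂, ε₂ = (dl b e (a + 1) : ℝ) * θ - c - n₂ := ⟨_, rfl⟩
  obtain ⟨ε₃, hε₃⟩ : ∃ ε₃, ε₃ = (dl b e j : ℝ) * θ - c - n₃ := ⟨_, rfl⟩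
  rw [← hε₁] at h1
  rw [← hε₂] at h2
  rw [← hε₃] at h3
  have hbr : (2 : ℝ) ≤ b := by exact_mod_cast hb
  have hb0 : (0 : ℝ) < b := by linarith
  have hμ0 : (0 : ℝ) < mu b := by exact_mod_cast mu_pos b
  obtain ⟨D, hD⟩ : ∃ D, D = e a - b * e (a + 1) := ⟨_, rfl⟩
  have hea := he a
  have hea1 := he (a + 1)
  have hej := he j
  have hD0 : D ≠ 0 := by
    intro h
    have h4 : (b : ℤ) ∣ e a := ⟨e (a + 1), by linarith⟩
    exact hea.1 (Int.eq_zero_of_abs_lt_dvd h4 hea.2)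
  have hea' : |e a| ≤ (b : ℤ) - 1 := by have := hea.2; omega
  have hea1' : |e (a + 1)| ≤ (b : ℤ) - 1 := by have := hea1.2; omega
  have hDb : |D| ≤ (b : ℤ) ^ 2 := by
    rw [hD]
    refine (abs_sub _ _).trans ?_
    rw [abs_mul, abs_of_nonneg (show (0 : ℤ) ≤ b by positivity)]
    have hbz : (2 : ℤ) ≤ b := by exact_mod_cast hb
    nlinarith
  -- D c is nearly an integer
  obtain ⟨n₄, hn₄⟩ : ∃ n₄ : ℤ, n₄ = b * e (a + 1) * n₁ - e a * n₂ := ⟨_, rfl⟩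
  obtain ⟨ε₄, hε₄⟩ : ∃ ε₄ : ℝ, ε₄ = b * e (a + 1) * ε₁ - e a * ε₂ := ⟨_, rfl⟩
  have hrel : (e a : ℝ) * ((dl b e (a + 1) : ℝ) * θ) = (b : ℝ) * e (a + 1) * ((dl b e a : ℝ) * θ) := by
    unfold dl
    push_cast
    rw [pow_succ]
    ring
  have hDc : (D : ℝ) * c = n₄ + ε₄ := by
    have a1 : (dl b e a : ℝ) * θ = c + n₁ + ε₁ := by rw [hε₁]; ring
    have a2 : (dl b e (a + 1) : ℝ) * θ = c + n₂ + ε₂ := by rw [hε₂]; ring
    rw [a1, a2] at hrel
    rw [hD, hn₄, hε₄]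
    push_cast
    linarith
  have hear : |(e a : ℝ)| ≤ b := by
    have : ((|e a| : ℤ) : ℝ) ≤ ((b : ℤ) : ℝ) := by exact_mod_cast hea.2.le
    rw [Int.cast_abs] at this
    simpa using this
  have hea1r : |(e (a + 1) : ℝ)| ≤ b - 1 := by
    have : ((|e (a + 1)| : ℤ) : ℝ) ≤ (((b : ℤ) - 1 : ℤ) : ℝ) := by exact_mod_cast hea1'
    rw [Int.cast_abs] at this
    push_cast at this
    exact this
  have hε₄b : |ε₄| ≤ (b : ℝ) ^ 2 * κ := by
    rw [hε₄]
    refine (abs_sub _ _).trans ?_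
    rw [abs_mul, abs_mul, abs_mul, abs_of_pos hb0]
    have a1 : (b : ℝ) * |(e (a + 1) : ℝ)| * |ε₁| ≤ b * (b - 1) * κ := by
      apply mul_le_mul _ h1.le (abs_nonneg _) (by nlinarith)
      exact mul_le_mul_of_nonneg_left hea1r hb0.le
    have a2 : |(e a : ℝ)| * |ε₂| ≤ b * κ := mul_le_mul hear h2.le (abs_nonneg _) hb0.le
    nlinarith
  -- the multiplier
  have hd1 : D ∣ ((b ^ 2).factorial : ℤ) := by
    rw [← Int.natAbs_dvd_natAbs]
    apply Nat.dvd_factorial (Int.natAbs_pos.2 hD0)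
    rw [← Int.natCast_natAbs] at hDb
    exact_mod_cast hDb
  have hd2 : e j ∣ (b.factorial : ℤ) := by
    rw [← Int.natAbs_dvd_natAbs]
    apply Nat.dvd_factorial (Int.natAbs_pos.2 hej.1)
    have := hej.2.le
    rw [← Int.natCast_natAbs] at this
    exact_mod_cast this
  obtain ⟨m₁, hm₁⟩ := hd1
  obtain ⟨m₂, hm₂⟩ := hd2
  obtain ⟨m, hm⟩ : ∃ m, m = m₁ * m₂ := ⟨_, rfl⟩
  have hμ : (mu b : ℤ) = D * e j * m := by
    unfold mu
    rw [hm]
    push_cast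
    rw [hm₁, hm₂]
    ring
  have hμr : (mu b : ℝ) = D * e j * m := by exact_mod_cast hμ
  have hmabs : |(m : ℝ)| * |(D : ℝ)| ≤ mu b := by
    have a1 : |(mu b : ℝ)| = |(D : ℝ)| * |(e j : ℝ)| * |(m : ℝ)| := by rw [hμr, abs_mul, abs_mul]
    rw [abs_of_pos hμ0] at a1
    have a2 : (1 : ℝ) ≤ |(e j : ℝ)| := by
      have := Int.one_le_abs hej.1
      have h5 : ((1 : ℤ) : ℝ) ≤ ((|e j| : ℤ) : ℝ) := by exact_mod_cast this
      rw [Int.cast_abs] at h5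
      simpa using h5
    rw [a1]
    have a3 : 0 ≤ |(D : ℝ)| * |(m : ℝ)| := by positivity
    nlinarith
  have hDr1 : (1 : ℝ) ≤ |(D : ℝ)| := by
    have := Int.one_le_abs hD0
    have h5 : ((1 : ℤ) : ℝ) ≤ ((|D| : ℤ) : ℝ) := by exact_mod_cast this
    rw [Int.cast_abs] at h5
    simpa using h5
  have hmabs' : |(m : ℝ)| ≤ mu b := by
    have : |(m : ℝ)| * 1 ≤ |(m : ℝ)| * |(D : ℝ)| := mul_le_mul_of_nonneg_left hDr1 (abs_nonneg _)
    linarith
  refine ⟨m * n₄ + D * m * n₃, ?_⟩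
  have hval : (mu b : ℝ) * ((b : ℝ) ^ j * θ) - ((m * n₄ + D * m * n₃ : ℤ) : ℝ) = m * ε₄ + (m * D) * ε₃ := by
    have a3 : (dl b e j : ℝ) * θ = c + n₃ + ε₃ := by rw [hε₃]; ring
    have a4 : (mu b : ℝ) * ((b : ℝ) ^ j * θ) = D * m * ((dl b e j : ℝ) * θ) := by
      rw [hμr]
      unfold dl
      push_cast
      ring
    rw [a4, a3]
    push_cast
    have a5 : (D : ℝ) * m * (c + n₃ + ε₃) = m * (D * c) + D * m * n₃ + D * m * ε₃ := by ring
    rw [a5, hDc]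
    ring
  rw [hval]
  have hfin : |(m : ℝ) * ε₄ + (m * D) * ε₃| ≤ mu b * ((b : ℝ) ^ 2 * κ) + mu b * κ := by
    refine (abs_add_le _ _).trans ?_
    rw [abs_mul, abs_mul, abs_mul]
    apply add_le_add
    · exact mul_le_mul hmabs' hε₄b (abs_nonneg _) hμ0.le
    · exact mul_le_mul hmabs h3.le (abs_nonneg _) hμ0.le
  refine hfin.trans_lt ?_
  rw [lt_div_iff₀ (by positivity)]
  have hb4 : (b : ℝ) ^ 2 ≤ (b : ℝ) ^ 4 := pow_le_pow_right₀ (by linarith) (by norm_num)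
  have hμκ : 0 < (mu b : ℝ) * κ := by positivity
  calc (mu b * ((b : ℝ) ^ 2 * κ) + mu b * κ) * (b : ℝ) ^ 2 = (mu b * κ) * ((b : ℝ) ^ 4 + (b : ℝ) ^ 2) := by ring
    _ ≤ (mu b * κ) * (2 * (b : ℝ) ^ 4) := mul_le_mul_of_nonneg_left (by linarith) hμκ.le
    _ = (κ * (4 * (b : ℝ) ^ 4 * mu b)) / 2 := by ring
    _ < 1 := by linarith

/-- the savings of a window -/
lemma Ph_window (b R : ℕ) (hb : 2 ≤ b) (hR : 1 ≤ R) : ∃ η : ℝ, 0 < η ∧ η < 1 ∧ ∀ K x w r r' : ℕ, r ≤ b ^ (K + 1) → x + w ≤ K → 8 ≤ w →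
    ∀ e : ℕ → ℤ, (∀ j, e j ≠ 0 ∧ |e j| < b) → ∀ J ⊆ Ico x (x + w), 8 * R * (Ico x (x + w) \ J).card ≤ w →
    w ≤ R * ne b (K - x - w) w ((mu b * r' + mu b * (b ^ (K + 1) - r)) % b ^ (K + 1)) →
    ‖Ph (dl b e) J (((r' : ℝ) - r) / ((b ^ (K + 1) : ℕ) : ℝ))‖ ≤ (1 - η) * J.card := by
  classical
  have hbr : (2 : ℝ) ≤ b := by exact_mod_cast hb
  have hb0 : (0 : ℝ) < b := by linarith
  have hμ0 : (0 : ℝ) < mu b := by exact_mod_cast mu_pos b
  have hμ1 : (1 : ℝ) ≤ mu b := by exact_mod_cast mu_pos b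
  have hR0 : (0 : ℝ) < R := by exact_mod_cast hR
  have hR1 : (1 : ℝ) ≤ R := by exact_mod_cast hR
  obtain ⟨κ, hκ⟩ : ∃ κ : ℝ, κ = 1 / (4 * (b : ℝ) ^ 4 * mu b) := ⟨_, rfl⟩
  have hκ0 : 0 < κ := by rw [hκ]; positivity
  have hb41 : (1 : ℝ) ≤ (b : ℝ) ^ 4 := one_le_pow₀ (by linarith)
  have hκ1 : κ ≤ 1 / 4 := by
    rw [hκ]
    apply one_div_le_one_div_of_le (by norm_num)
    nlinarith [mul_le_mul hb41 hμ1 (by norm_num) (by positivity)]
  have hκ2 : κ ^ 2 ≤ 1 / 16 := by nlinarith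
  refine ⟨κ ^ 2 / (2 * R), by positivity, ?_, fun K x w r r' hr hxw hw e he J hJ hJc hne => ?_⟩
  · rw [div_lt_one (by positivity)]
    linarith
  obtain ⟨s, hs⟩ : ∃ s, s = (mu b * r' + mu b * (b ^ (K + 1) - r)) % b ^ (K + 1) := ⟨_, rfl⟩
  rw [← hs] at hne
  obtain ⟨θ, hθ⟩ : ∃ θ : ℝ, θ = ((r' : ℝ) - r) / ((b ^ (K + 1) : ℕ) : ℝ) := ⟨_, rfl⟩
  rw [← hθ]
  obtain ⟨c, G, hGJ, hG, hle⟩ := Ph_split (dl b e) J θ κ hκ0.le (by linarith)
  have hWcard : (Ico x (x + w)).card = w := by rw [Nat.card_Ico, Nat.add_sub_cancel_left]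
  have hJW : J.card + (Ico x (x + w) \ J).card = w := by
    have := card_sdiff_add_card_eq_card hJ
    omega
  have hJG : (J \ G).card + G.card = J.card := card_sdiff_add_card_eq_card hGJ
  -- the number of positions which are not good
  have hkey : w ≤ 8 * R * (J \ G).card := by
    by_cases hcon : ∀ a ∈ G, a + 1 ∉ G
    · have h1 := consec G x w (hGJ.trans hJ) hcon
      have h2 : 8 * (Ico x (x + w) \ J).card ≤ w := by
        refine le_trans ?_ hJc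
        calc 8 * (Ico x (x + w) \ J).card = 8 * 1 * (Ico x (x + w) \ J).card := by ring
          _ ≤ 8 * R * (Ico x (x + w) \ J).card := Nat.mul_le_mul_right _ (Nat.mul_le_mul_left _ hR)
      have h3 : w ≤ 8 * (J \ G).card := by omega
      refine h3.trans ?_
      calc 8 * (J \ G).card = 8 * 1 * (J \ G).card := by ring
        _ ≤ 8 * R * (J \ G).card := Nat.mul_le_mul_right _ (Nat.mul_le_mul_left _ hR)
    · push Not at hcon
      obtain ⟨a, ha, ha1⟩ := hcon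
      -- nonextremal positions are not good
      have h1 : (Ico x (x + w)).filter (fun j => ¬ Ext b (K - 1 - j) s) ⊆ (Ico x (x + w) \ J) ∪ (J \ G) := by
        intro j hj
        rw [mem_filter] at hj
        rw [mem_union, mem_sdiff, mem_sdiff]
        by_cases hjJ : j ∈ J
        · right
          refine ⟨hjJ, fun hjG => ?_⟩
          obtain ⟨n, hn⟩ := good_ext b hb e he θ c κ hκ0 (by rw [hκ]; exact (div_mul_cancel₀ _ (by positivity)).le) G hG a ha ha1 j hjG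
          have h2 := dist_s b K j r r' (mu b) hb (by have := mem_Ico.1 hj.1; omega) hr (by rw [← hs]; exact hj.2) n
          rw [← hθ] at h2
          linarith
        · left
          exact ⟨hj.1, hjJ⟩
      have h2 := (card_le_card h1).trans (card_union_le _ _)
      have h3 : ne b (K - x - w) w s = ((Ico x (x + w)).filter (fun j => ¬ Ext b (K - 1 - j) s)).card := by
        unfold ne
        symm
        apply card_bij (fun j _ => K - 1 - j)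
        · intro j hj
          rw [mem_filter, mem_Ico] at hj ⊢
          exact ⟨⟨by omega, by omega⟩, hj.2⟩
        · intro j hj j' hj' h
          rw [mem_filter, mem_Ico] at hj hj'
          omega
        · intro i hi
          rw [mem_filter, mem_Ico] at hi
          refine ⟨K - 1 - i, ?_, by omega⟩
          rw [mem_filter, mem_Ico]
          have : K - 1 - (K - 1 - i) = i := by omega
          rw [this]
          exact ⟨⟨by omega, by omega⟩, hi.2⟩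
      rw [← h3] at h2
      have h4 : R * ne b (K - x - w) w s ≤ R * ((Ico x (x + w) \ J).card + (J \ G).card) := Nat.mul_le_mul_left _ h2
      rw [mul_add] at h4
      have h5 : 8 * (R * (Ico x (x + w) \ J).card) ≤ w := by
        calc 8 * (R * (Ico x (x + w) \ J).card) = 8 * R * (Ico x (x + w) \ J).card := by ring
          _ ≤ w := hJc
      have h6 : 8 * R * (J \ G).card = 8 * (R * (J \ G).card) := by ring
      omega
  have hkr : (w : ℝ) ≤ 8 * R * (J \ G).card := by exact_mod_cast hkey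
  have hJw : (J.card : ℝ) ≤ w := by exact_mod_cast (by omega : J.card ≤ w)
  refine hle.trans ?_
  have h1 : κ ^ 2 / (2 * R) * J.card ≤ 4 * κ ^ 2 * (J \ G).card := by
    rw [div_mul_eq_mul_div, div_le_iff₀ (by positivity)]
    have : κ ^ 2 * (J.card : ℝ) ≤ κ ^ 2 * (8 * R * (J \ G).card) := mul_le_mul_of_nonneg_left (hJw.trans hkr) (by positivity)
    linarith
  linarith

end Pool.Agent.TH894.SM
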