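import Pool.Agent.H43.G.R_seed8.TH894.SM4

set_option autoImplicit false

/-! The second moment over random changes of digits. -/

namespace Pool.Agent.TH894.SM
open Finset
open Pool.Agent.H807R2.Dav
open Pool.Agent.H373R2.T7
open Pool.Agent.W93.DG
open Pool.Agent.W93.HD
open Pool.Agent.W93.RD (EE mass ne_window)

/-- the choices of the positions -/
def Om (J : Fin 3 → Finset ℕ) (t : ℕ) : Finset (Fin 3 × Fin t → ℕ) := Fintype.piFinset (fun c => J c.1)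

/-- the integer after the changes -/
def nw (b : ℕ) (N : ℕ) (e : ℕ → ℤ) {t : ℕ} (ω : Fin 3 × Fin t → ℕ) : ℤ := N + ∑ c, dl b e (ω c)

lemma card_Om (J : Fin 3 → Finset ℕ) (t : ℕ) : ((Om J t).card : ℝ) = ∏ q, ((J q).card : ℝ) ^ t := by
  unfold Om
  rw [Fintype.card_piFinset]
  push_cast
  rw [Fintype.prod_prod_type]
  apply prod_congr rfl
  intro q _
  simp

lemma ee_sum {ι : Type*} (s : Finset ι) (f : ι → ℝ) : ee (∑ j ∈ s, f j) = ∏ j ∈ s, ee (f j) := by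
  classical
  induction s using Finset.induction_on with
  | empty => simp [ee_zero]
  | insert a s ha ih => rw [prod_insert ha, sum_insert ha, ee_add, ih]

lemma sum_Om (b : ℕ) (e : ℕ → ℤ) (J : Fin 3 → Finset ℕ) (t : ℕ) (θ : ℝ) :
    ∑ ω ∈ Om J t, ee (((∑ c, dl b e (ω c) : ℤ) : ℝ) * θ) = ∏ q, Ph (dl b e) (J q) θ ^ t := by
  have h1 : ∏ c : Fin 3 × Fin t, Ph (dl b e) (J c.1) θ = ∑ ω ∈ Om J t, ∏ c, ee ((dl b e (ω c) : ℝ) * θ) := by
    unfold Ph Om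
    rw [Finset.prod_univ_sum]
  have h2 : ∏ c : Fin 3 × Fin t, Ph (dl b e) (J c.1) θ = ∏ q, Ph (dl b e) (J q) θ ^ t := by
    rw [Fintype.prod_prod_type]
    apply prod_congr rfl
    intro q _
    simp
  rw [← h2, h1]
  apply sum_congr rfl
  intro ω _
  rw [← ee_sum]
  congr 1
  push_cast
  rw [sum_mul]

/-- the expansion of the second moment -/
lemma EE_second (b N M : ℕ) (e : ℕ → ℤ) (J : Fin 3 → Finset ℕ) (t : ℕ) (A : ℕ → ℂ) :
    ∑ ω ∈ Om J t, ‖EE A M (nw b N e ω)‖ ^ 2 ≤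
      ∑ r ∈ range M, ∑ r' ∈ range M, ‖A r‖ * ‖A r'‖ * ∏ q, ‖Ph (dl b e) (J q) (((r' : ℝ) - r) / (M : ℝ))‖ ^ t := by
  have h1 : ∀ n : ℤ, ((‖EE A M n‖ : ℂ)) ^ 2 = ∑ r ∈ range M, ∑ r' ∈ range M, A r * (starRingEnd ℂ) (A r') *
      ee ((n : ℝ) * (((r' : ℝ) - r) / (M : ℝ))) := by
    intro n
    unfold EE
    rw [← Complex.mul_conj', map_sum, sum_mul_sum]
    apply sum_congr rfl
    intro r _
    apply sum_congr rfl
    intro r' _
    rw [map_mul, conj_ee]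
    have h2 : ee ((n : ℝ) * (((r' : ℝ) - r) / (M : ℝ))) = ee (-((n : ℝ) * ((r : ℝ) / (M : ℝ)))) * ee (- -((n : ℝ) * ((r' : ℝ) / (M : ℝ)))) := by
      rw [← ee_add]
      congr 1
      ring
    rw [h2]
    ring
  have hnn : 0 ≤ ∑ ω ∈ Om J t, ‖EE A M (nw b N e ω)‖ ^ 2 := sum_nonneg fun _ _ => sq_nonneg _
  have h2 : ((∑ ω ∈ Om J t, ‖EE A M (nw b N e ω)‖ ^ 2 : ℝ) : ℂ) =
      ∑ r ∈ range M, ∑ r' ∈ range M, A r * (starRingEnd ℂ) (A r') * ee ((N : ℝ) * (((r' : ℝ) - r) / (M : ℝ))) *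
        ∏ q, Ph (dl b e) (J q) (((r' : ℝ) - r) / (M : ℝ)) ^ t := by
    push_cast
    simp only [h1]
    rw [sum_comm]
    apply sum_congr rfl
    intro r _
    rw [sum_comm]
    apply sum_congr rfl
    intro r' _
    rw [← sum_Om, mul_sum]
    apply sum_congr rfl
    intro ω _
    have h3 : ee ((nw b N e ω : ℝ) * (((r' : ℝ) - r) / (M : ℝ))) = ee ((N : ℝ) * (((r' : ℝ) - r) / (M : ℝ))) *
        ee (((∑ c, dl b e (ω c) : ℤ) : ℝ) * (((r' : ℝ) - r) / (M : ℝ))) := by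
      rw [← ee_add]
      congr 1
      unfold nw
      push_cast
      ring
    rw [h3]
    ring
  have h3 : ∑ ω ∈ Om J t, ‖EE A M (nw b N e ω)‖ ^ 2 = ‖((∑ ω ∈ Om J t, ‖EE A M (nw b N e ω)‖ ^ 2 : ℝ) : ℂ)‖ := by
    rw [Complex.norm_real, Real.norm_of_nonneg hnn]
  rw [h3, h2]
  refine (norm_sum_le _ _).trans ?_
  apply sum_le_sum
  intro r _
  refine (norm_sum_le _ _).trans ?_
  apply sum_le_sum
  intro r' _
  rw [norm_mul, norm_mul, norm_mul, norm_ee, mul_one, RCLike.norm_conj, norm_prod]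
  simp only [norm_pow]
  exact le_rfl

lemma Ph_le (δ : ℕ → ℤ) (J : Finset ℕ) (θ : ℝ) : ‖Ph δ J θ‖ ≤ J.card := by
  unfold Ph
  refine (norm_sum_le _ _).trans (le_of_eq ?_)
  simp only [norm_ee]
  rw [sum_const, nsmul_eq_mul, mul_one]

/-- the product of the three windows -/
lemma three_win (P T : Fin 3 → ℝ) (η : ℝ) (t : ℕ) (ht : 4 ≤ t) (hη0 : 0 ≤ η) (hη1 : η ≤ 1) (hP : ∀ q, 0 ≤ P q) (hPT : ∀ q, P q ≤ T q)
    (hT1 : 0 < T 1) (q₀ : Fin 3) (h : P q₀ ≤ (1 - η) * T q₀) :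
    ∏ q, P q ^ t ≤ (1 - η) ^ (t - 4) * (P 1 ^ 4 / T 1 ^ 4) * ∏ q, T q ^ t := by
  have h1 : 0 ≤ 1 - η := by linarith
  have hT : ∀ q, 0 ≤ T q := fun q => (hP q).trans (hPT q)
  obtain ⟨s, hs⟩ : ∃ s, t = 4 + s := ⟨t - 4, by omega⟩
  have hts : t - 4 = s := by omega
  rw [hts, Fin.prod_univ_three, Fin.prod_univ_three]
  have e1 : P 1 ^ t = P 1 ^ 4 * P 1 ^ s := by rw [hs, pow_add]
  have e2 : T 1 ^ t = T 1 ^ 4 * T 1 ^ s := by rw [hs, pow_add]
  rw [e1, e2]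
  have e3 : (1 - η) ^ s * (P 1 ^ 4 / T 1 ^ 4) * (T 0 ^ t * (T 1 ^ 4 * T 1 ^ s) * T 2 ^ t) =
      P 1 ^ 4 * ((1 - η) ^ s * (T 0 ^ t * T 1 ^ s * T 2 ^ t)) := by
    have : T 1 ^ 4 ≠ 0 := (pow_pos hT1 4).ne'
    field_simp
  have e4 : P 0 ^ t * (P 1 ^ 4 * P 1 ^ s) * P 2 ^ t = P 1 ^ 4 * (P 0 ^ t * P 1 ^ s * P 2 ^ t) := by ring
  rw [e3, e4]
  apply mul_le_mul_of_nonneg_left _ (pow_nonneg (hP 1) 4)
  have p0 := hP 0
  have p1 := hP 1
  have p2 := hP 2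
  have t0 := hT 0
  have t1 := hT 1
  have t2 := hT 2
  have f0 : P 0 ^ t ≤ T 0 ^ t := pow_le_pow_left₀ p0 (hPT 0) t
  have f1 : P 1 ^ s ≤ T 1 ^ s := pow_le_pow_left₀ p1 (hPT 1) s
  have f2 : P 2 ^ t ≤ T 2 ^ t := pow_le_pow_left₀ p2 (hPT 2) t
  have hpow : (1 - η) ^ t ≤ (1 - η) ^ s := pow_le_pow_of_le_one h1 (by linarith) (by omega)
  have hq3 : q₀ = 0 ∨ q₀ = 1 ∨ q₀ = 2 := by
    revert q₀
    intro q₀ _
    fin_cases q₀ <;> simp
  rcases hq3 with rfl | rfl | rfl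
  · have g0 : P 0 ^ t ≤ (1 - η) ^ s * T 0 ^ t := by
      calc P 0 ^ t ≤ ((1 - η) * T 0) ^ t := pow_le_pow_left₀ p0 h t
        _ = (1 - η) ^ t * T 0 ^ t := by rw [mul_pow]
        _ ≤ _ := mul_le_mul_of_nonneg_right hpow (by positivity)
    calc P 0 ^ t * P 1 ^ s * P 2 ^ t ≤ ((1 - η) ^ s * T 0 ^ t) * T 1 ^ s * T 2 ^ t :=
          mul_le_mul (mul_le_mul g0 f1 (by positivity) (by positivity)) f2 (by positivity) (by positivity)
      _ = _ := by ring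
  · have g1 : P 1 ^ s ≤ (1 - η) ^ s * T 1 ^ s := by
      calc P 1 ^ s ≤ ((1 - η) * T 1) ^ s := pow_le_pow_left₀ p1 h s
        _ = _ := by rw [mul_pow]
    calc P 0 ^ t * P 1 ^ s * P 2 ^ t ≤ T 0 ^ t * ((1 - η) ^ s * T 1 ^ s) * T 2 ^ t :=
          mul_le_mul (mul_le_mul f0 g1 (by positivity) (by positivity)) f2 (by positivity) (by positivity)
      _ = _ := by ring
  · have g2 : P 2 ^ t ≤ (1 - η) ^ s * T 2 ^ t := by
      calc P 2 ^ t ≤ ((1 - η) * T 2) ^ t := pow_le_pow_left₀ p2 h t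
        _ = (1 - η) ^ t * T 2 ^ t := by rw [mul_pow]
        _ ≤ _ := mul_le_mul_of_nonneg_right hpow (by positivity)
    calc P 0 ^ t * P 1 ^ s * P 2 ^ t ≤ T 0 ^ t * T 1 ^ s * ((1 - η) ^ s * T 2 ^ t) :=
          mul_le_mul (mul_le_mul f0 f1 (by positivity) (by positivity)) g2 (by positivity) (by positivity)
      _ = _ := by ring

/-- the conditions on the positions -/
structure Pos (b R K h : ℕ) (J : Fin 3 → Finset ℕ) : Prop where
  s0 : J 0 ⊆ Ico 1 (1 + h)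
  s1 : J 1 ⊆ Ico (1 + h) (K - 1 - h)
  s2 : J 2 ⊆ Ico (K - 1 - h) (K - 1)
  c0 : 8 * R * (Ico 1 (1 + h) \ J 0).card ≤ h
  c1 : 8 * R * (Ico (1 + h) (K - 1 - h) \ J 1).card ≤ K - 2 - 2 * h
  c2 : 8 * R * (Ico (K - 1 - h) (K - 1) \ J 2).card ≤ h

/-- the second moment over random changes of digits -/
theorem second_moment (b : ℕ) (hb : 2 ≤ b) : ∃ R A B : ℕ, 1 ≤ R ∧ 1 ≤ A ∧ ∀ δ : ℝ, 0 < δ → ∃ t₀ : ℕ, ∀ t : ℕ, t₀ ≤ t →
    ∀ Ez : ℕ, ∃ k₀ : ℕ, ∀ K : ℕ, k₀ ≤ K → ∀ z : ℕ,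
    Real.log ((b ^ K : ℕ) : ℝ) ^ B ≤ z → (z : ℝ) ≤ Real.log ((b ^ K : ℕ) : ℝ) ^ Ez → ∀ (N : ℕ) (e : ℕ → ℤ), (∀ j, e j ≠ 0 ∧ |e j| < b) →
    ∀ J : Fin 3 → Finset ℕ, Pos b R K (hh b A K) J →
    ∑ ω ∈ Om J t, ‖EE (fun r => FF (fun n => ArithmeticFunction.vonMangoldt n) (b ^ K) (b ^ (K + 1)) r *
        FF (fun n => ArithmeticFunction.vonMangoldt n - lamz z n) (b ^ K) (b ^ (K + 1)) r) (b ^ (K + 1)) (nw b N e ω)‖ ^ 2 ≤
      δ * (((b ^ (K + 1) : ℕ) : ℝ) * ((b ^ K : ℕ) : ℝ)) ^ 2 * (Om J t).card := by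
  classical
  have hbn : 0 < b := by omega
  obtain ⟨R, hR, hbad⟩ := bad_sum b hb
  obtain ⟨C, hC0, hfour⟩ := VV_four b hb
  obtain ⟨η, hη0, hη1, hwin⟩ := Ph_window b R hb hR
  obtain ⟨A, B, hUA, hB⟩ := hbad (mu b) 3
  refine ⟨R, A, max B 1, hR, by omega, fun δ hδ => ?_⟩
  -- the number of changes
  obtain ⟨v, hv⟩ := exists_pow_lt_of_lt_one (show (0 : ℝ) < δ / 2 / (4 * C + 1) by positivity) (show 1 - η < 1 by linarith)
  refine ⟨v + 4, fun t ht Ez => ?_⟩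
  obtain ⟨k1, h1⟩ := hB Ez
  obtain ⟨N2, h2⟩ := mass Ez
  obtain ⟨k3, h3⟩ := hfour Ez
  obtain ⟨k4, h4⟩ := hh_small b A (512 * b) hb
  obtain ⟨k5, hk5⟩ := exists_nat_ge (20 * (b : ℝ) ^ 2 / δ)
  refine ⟨k1 + N2 + k3 + k4 + k5 + 256 * b + 64, fun K hK z hz1 hz2 N e he J hJ => ?_⟩
  refine (EE_second b N (b ^ (K + 1)) e J t _).trans ?_
  obtain ⟨X, hX⟩ : ∃ X, X = b ^ K := ⟨_, rfl⟩
  obtain ⟨M, hM⟩ : ∃ M, M = b ^ (K + 1) := ⟨_, rfl⟩
  have hb1 : 1 < b := by omega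
  have hKX : K < X := by rw [hX]; exact Nat.lt_pow_self hb1
  have hMX : M = b * X := by rw [hM, hX, pow_succ']
  have hXM : X ≤ M := by rw [hMX]; exact Nat.le_mul_of_pos_left _ hbn
  have hX0 : (0 : ℝ) < X := by exact_mod_cast (by omega : 0 < X)
  have hM0 : (0 : ℝ) < M := by exact_mod_cast (by omega : 0 < M)
  obtain ⟨hL1, hL2⟩ := logX b K hb
  obtain ⟨L, hL⟩ : ∃ L, L = Real.log (X : ℝ) := ⟨_, rfl⟩
  rw [← hX] at hz1 hz2 hL1 hL2 ⊢
  rw [← hL] at hz1 hz2 hL1 hL2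
  rw [← hM]
  have hK4 : (4 : ℝ) ≤ K := by exact_mod_cast (by omega : 4 ≤ K)
  have hK0 : (0 : ℝ) < K := by linarith
  have hL2' : 2 ≤ L := by linarith
  have hL0 : 0 < L := by linarith
  have hz3 : L ^ B ≤ z := (pow_le_pow_right₀ (by linarith) (le_max_left _ _)).trans hz1
  have hz4 : L ≤ z := by
    refine le_trans ?_ hz1
    exact le_self_pow₀ (by linarith) (by have := le_max_right B 1; omega)
  have hz : 1 ≤ z := by
    have : (1 : ℝ) ≤ z := by linarith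
    exact_mod_cast this
  obtain ⟨h, hh'⟩ : ∃ h, h = hh b A K := ⟨_, rfl⟩
  rw [← hh'] at hJ
  obtain ⟨g, hg⟩ : ∃ g, g = K / (16 * b) / 8 := ⟨_, rfl⟩
  have hh1 : 8 ≤ h := by
    rw [hh']
    unfold hh
    have hlog : 1 ≤ Nat.log b K := Nat.log_pos hb1 (by omega)
    calc 8 ≤ 2 * 3 * (1 + 1) := by norm_num
      _ ≤ 2 * A * (Nat.log b K + 1) := Nat.mul_le_mul (Nat.mul_le_mul_left _ hUA) (by omega)
  have hgh : 4 * h ≤ g := by
    have e1 := h4 K (by omega)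
    rw [← hh'] at e1
    rw [hg, Nat.div_div_eq_div_mul]
    apply (Nat.le_div_iff_mul_le (by omega)).2
    calc 4 * h * (16 * b * 8) = 512 * b * h := by ring
      _ ≤ K := e1
  have hgK3 : 256 * g ≤ K := by
    rw [hg, Nat.div_div_eq_div_mul]
    refine le_trans ?_ (Nat.mul_div_le K (16 * b * 8))
    apply Nat.mul_le_mul_right
    omega
  have hKh : 2 * h + 10 ≤ K := by omega
  -- sizes of the windows
  have hcd : ∀ (x y : ℕ) (S : Finset ℕ), S ⊆ Ico x y → 8 * R * (Ico x y \ S).card ≤ y - x → 7 * (y - x) ≤ 8 * S.card := by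
    intro x y S hS hc
    have e1 := card_sdiff_add_card_eq_card hS
    rw [Nat.card_Ico] at e1
    have e2 : 8 * (Ico x y \ S).card ≤ 8 * R * (Ico x y \ S).card := by
      calc 8 * (Ico x y \ S).card = 8 * 1 * (Ico x y \ S).card := by ring
        _ ≤ _ := Nat.mul_le_mul_right _ (Nat.mul_le_mul_left _ hR)
    omega
  have hc1 := hcd _ _ _ hJ.s1 (hJ.c1.trans (by omega))
  have hJ1card : K ≤ 4 * (J 1).card := by omega
  have hJ1pos : (0 : ℝ) < (J 1).card := by exact_mod_cast (by omega : 0 < (J 1).card)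
  have hJ1sub : J 1 ⊆ range (K - 2) := by
    intro j hj
    have := mem_Ico.1 (hJ.s1 hj)
    rw [mem_range]
    omega
  -- the transforms
  obtain ⟨F, hF⟩ : ∃ F : ℕ → ℂ, F = FF (fun n => ArithmeticFunction.vonMangoldt n) X M := ⟨_, rfl⟩
  obtain ⟨G, hG⟩ : ∃ G : ℕ → ℂ, G = FF (fun n => ArithmeticFunction.vonMangoldt n - lamz z n) X M := ⟨_, rfl⟩
  have hbadK := h1 K (by omega) z (by rw [← hX, ← hL]; exact hz3) (by rw [← hX, ← hL]; exact hz2)
  have hmass := h2 X (by omega) M hXM z hz (by rw [← hL]; exact hz2)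
  have hfourK := h3 K (by omega) z (by rw [← hX, ← hL]; exact hz4) (by rw [← hX, ← hL]; exact hz2) e he (J 1) hJ1sub hJ1card
  rw [← hX, ← hM] at hbadK hfourK
  rw [← hF, ← hG] at hmass hbadK
  rw [← hF, ← hG]
  obtain ⟨V, hVd⟩ : ∃ V : ℕ → ℝ, V = VV z X M := ⟨_, rfl⟩
  rw [← hVd] at hfourK
  have hV0 : ∀ r, 0 ≤ V r := fun r => by rw [hVd]; exact VV_nonneg z X M r
  have hAV : ∀ r, ‖F r * G r‖ ≤ 2 * V r := by
    intro r
    have e1 : G r = F r - FF (lamz z) X M r := by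
      rw [hG, hF, ← FF_sub]
    have e2 : ‖G r‖ ≤ ‖F r‖ + ‖FF (lamz z) X M r‖ := by rw [e1]; exact norm_sub_le _ _
    have e3 : V r = ‖F r‖ ^ 2 + ‖FF (lamz z) X M r‖ ^ 2 := by rw [hVd, hF]; rfl
    rw [e3, norm_mul]
    have e4 : ‖F r‖ * ‖G r‖ ≤ ‖F r‖ * (‖F r‖ + ‖FF (lamz z) X M r‖) := mul_le_mul_of_nonneg_left e2 (norm_nonneg _)
    nlinarith [sq_nonneg (‖F r‖ - ‖FF (lamz z) X M r‖), sq_nonneg (‖F r‖), sq_nonneg (‖FF (lamz z) X M r‖)]
  obtain ⟨s, hs⟩ : ∃ s : ℕ → ℕ → ℕ, s = fun r r' => (mu b * r' + mu b * (M - r)) % M := ⟨_, rfl⟩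
  obtain ⟨P, hP⟩ : ∃ P : Fin 3 → ℕ → ℕ → ℝ, P = fun (q : Fin 3) (r r' : ℕ) => ‖Ph (dl b e) (J q) (((r' : ℝ) - (r : ℝ)) / (M : ℝ))‖ := ⟨_, rfl⟩
  obtain ⟨T, hT⟩ : ∃ T : Fin 3 → ℝ, T = fun q => ((J q).card : ℝ) := ⟨_, rfl⟩
  have hP0 : ∀ q r r', 0 ≤ P q r r' := fun q r r' => by rw [hP]; exact norm_nonneg _
  have hPT : ∀ q r r', P q r r' ≤ T q := fun q r r' => by rw [hP, hT]; exact Ph_le _ _ _
  have hT0 : ∀ q, 0 ≤ T q := fun q => by rw [hT]; exact Nat.cast_nonneg _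
  have hOm : ((Om J t).card : ℝ) = ∏ q, T q ^ t := by rw [card_Om, hT]
  have hTall : 0 ≤ ∏ q, T q ^ t := prod_nonneg fun q _ => pow_nonneg (hT0 q) t
  have hT1 : 0 < T 1 := by rw [hT]; exact hJ1pos
  rw [hOm]
  -- the frequencies which are not nearly extremal
  have hgood : ∀ r < M, ∀ r', ¬ Bad b R K h (K / (16 * b)) (s r r') →
      ∏ q, P q r r' ^ t ≤ (1 - η) ^ (t - 4) * (P 1 r r' ^ 4 / T 1 ^ 4) * ∏ q, T q ^ t := by
    intro r hr r' hnb
    have hex : ∃ q₀ : Fin 3, P q₀ r r' ≤ (1 - η) * T q₀ := by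
      unfold Bad at hnb
      rw [← hg] at hnb
      rw [hs] at hnb
      simp only at hnb
      by_cases c1 : ne b (K - 1 - h) h ((mu b * r' + mu b * (M - r)) % M) * R ≤ 2 * h
      · by_cases c2 : ne b 1 h ((mu b * r' + mu b * (M - r)) % M) * R ≤ 2 * h
        · by_cases c3 : ne b g (K - 2 * g) ((mu b * r' + mu b * (M - r)) % M) * R ≤ K
          · exact absurd ⟨c1, c2, c3⟩ hnb
          · refine ⟨1, ?_⟩
            have e1 : Ico (1 + h) (K - 1 - h) = Ico (1 + h) ((1 + h) + (K - 2 - 2 * h)) := by congr 1; omega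
            have e0 := hwin K (1 + h) (K - 2 - 2 * h) r r' (by rw [← hM]; exact hr.le) (by omega) (by omega) e he (J 1)
              (by rw [← e1]; exact hJ.s1) (by rw [← e1]; exact hJ.c1) (by
                rw [← hM]
                have e2 : K - (1 + h) - (K - 2 - 2 * h) = 1 + h := by omega
                rw [e2]
                have e3 := ne_window b g (K - 2 * g) (1 + h) (K - 2 - 2 * h) ((mu b * r' + mu b * (M - r)) % M) (by omega) (by omega)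
                have e4 : ne b g (K - 2 * g) ((mu b * r' + mu b * (M - r)) % M) * R ≤ ne b (1 + h) (K - 2 - 2 * h) ((mu b * r' + mu b * (M - r)) % M) * R :=
                  Nat.mul_le_mul_right _ e3
                rw [mul_comm R]
                omega)
            rw [← hM] at e0
            rw [hP, hT]
            exact e0
        · refine ⟨2, ?_⟩
          have e1 : Ico (K - 1 - h) (K - 1) = Ico (K - 1 - h) ((K - 1 - h) + h) := by congr 1; omega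
          have e0 := hwin K (K - 1 - h) h r r' (by rw [← hM]; exact hr.le) (by omega) hh1 e he (J 2)
              (by rw [← e1]; exact hJ.s2) (by rw [← e1]; exact hJ.c2) (by
                rw [← hM]
                have e2 : K - (K - 1 - h) - h = 1 := by omega
                rw [e2, mul_comm R]
                omega)
          rw [← hM] at e0
          rw [hP, hT]
          exact e0
      · refine ⟨0, ?_⟩
        have e0 := hwin K 1 h r r' (by rw [← hM]; exact hr.le) (by omega) hh1 e he (J 0) hJ.s0 hJ.c0 (by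
                rw [← hM]
                have e2 : K - 1 - h = K - 1 - h := rfl
                rw [mul_comm R]
                omega)
        rw [← hM] at e0
        rw [hP, hT]
        exact e0
    obtain ⟨q₀, hq₀⟩ := hex
    exact three_win (fun q => P q r r') T η t (by omega) hη0.le hη1.le (fun q => hP0 q r r') (fun q => hPT q r r') hT1 q₀ hq₀
  -- the rows
  have hrow : ∀ r ∈ range M, ∑ r' ∈ range M, ‖F r * G r‖ * ‖F r' * G r'‖ * ∏ q, P q r r' ^ t ≤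
      ‖F r * G r‖ * ((M * X / (K : ℝ) ^ 3) * ∏ q, T q ^ t) +
      4 * ((1 - η) ^ (t - 4) * (∏ q, T q ^ t) / T 1 ^ 4) * ∑ r' ∈ range M, V r * V r' * P 1 r r' ^ 4 := by
    intro r hr
    rw [mem_range] at hr
    rw [← sum_filter_add_sum_filter_not (range M) (fun r' => Bad b R K h (K / (16 * b)) (s r r'))]
    apply add_le_add
    · have e1 := hbadK (mu b * (M - r)) (mu b) (mu_pos b) ((Nat.lt_pow_self hb1).le)
        ((range M).filter (fun r' => Bad b R K h (K / (16 * b)) (s r r'))) (by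
          intro r' hr'
          rw [mem_filter, mem_range, hs, hh'] at hr'
          exact hr')
      have e2 : ∑ r' ∈ (range M).filter (fun r' => Bad b R K h (K / (16 * b)) (s r r')), ‖F r * G r‖ * ‖F r' * G r'‖ * ∏ q, P q r r' ^ t ≤
          ∑ r' ∈ (range M).filter (fun r' => Bad b R K h (K / (16 * b)) (s r r')), ‖F r * G r‖ * ((‖F r'‖ * ‖G r'‖) * ∏ q, T q ^ t) := by
        apply sum_le_sum
        intro r' _
        rw [mul_assoc, norm_mul (F r')]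
        apply mul_le_mul_of_nonneg_left _ (norm_nonneg _)
        apply mul_le_mul_of_nonneg_left _ (by positivity)
        exact prod_le_prod (fun q _ => pow_nonneg (hP0 q r r') t) fun q _ => pow_le_pow_left₀ (hP0 q r r') (hPT q r r') t
      refine e2.trans ?_
      rw [← mul_sum, ← sum_mul]
      apply mul_le_mul_of_nonneg_left _ (norm_nonneg _)
      exact mul_le_mul_of_nonneg_right e1 hTall
    · have e1 : ∀ r' ∈ (range M).filter (fun r' => ¬ Bad b R K h (K / (16 * b)) (s r r')),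
          ‖F r * G r‖ * ‖F r' * G r'‖ * ∏ q, P q r r' ^ t ≤
          4 * ((1 - η) ^ (t - 4) * (∏ q, T q ^ t) / T 1 ^ 4) * (V r * V r' * P 1 r r' ^ 4) := by
        intro r' hr'
        rw [mem_filter] at hr'
        have e2 := hgood r hr r' hr'.2
        have e3 : ‖F r * G r‖ * ‖F r' * G r'‖ ≤ (2 * V r) * (2 * V r') := mul_le_mul (hAV r) (hAV r') (norm_nonneg _) (by have := hV0 r; positivity)
        have e4 : 0 ≤ ∏ q, P q r r' ^ t := prod_nonneg fun q _ => pow_nonneg (hP0 q r r') t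
        have hV1 := hV0 r
        have hV2 := hV0 r'
        calc ‖F r * G r‖ * ‖F r' * G r'‖ * ∏ q, P q r r' ^ t ≤ ((2 * V r) * (2 * V r')) * ∏ q, P q r r' ^ t := mul_le_mul_of_nonneg_right e3 e4
          _ ≤ ((2 * V r) * (2 * V r')) * ((1 - η) ^ (t - 4) * (P 1 r r' ^ 4 / T 1 ^ 4) * ∏ q, T q ^ t) := mul_le_mul_of_nonneg_left e2 (by positivity)
          _ = _ := by ring
      refine (sum_le_sum e1).trans ?_
      rw [← mul_sum]
      have hη' : 0 ≤ 1 - η := by linarith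
      apply mul_le_mul_of_nonneg_left _ (by positivity)
      apply sum_le_sum_of_subset_of_nonneg (filter_subset _ _)
      intro r' _ _
      have := hV0 r
      have := hV0 r'
      have := hP0 1 r r'
      positivity
  have hsum := sum_le_sum hrow
  rw [sum_add_distrib, ← sum_mul, ← mul_sum] at hsum
  have hgoal : ∑ r ∈ range M, ∑ r' ∈ range M, ‖F r * G r‖ * ‖F r' * G r'‖ * ∏ q, ‖Ph (dl b e) (J q) (((r' : ℝ) - r) / (M : ℝ))‖ ^ t =
      ∑ r ∈ range M, ∑ r' ∈ range M, ‖F r * G r‖ * ‖F r' * G r'‖ * ∏ q, P q r r' ^ t := by rw [hP]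
  rw [hgoal]
  refine hsum.trans ?_
  have hfourK' : ∑ r ∈ range M, ∑ r' ∈ range M, V r * V r' * P 1 r r' ^ 4 ≤ C * ((M : ℝ) * X) ^ 2 * T 1 ^ 4 := by
    rw [hP, hT]
    exact hfourK
  -- the bad part
  have hpart1 : (∑ r ∈ range M, ‖F r * G r‖) * ((M * X / (K : ℝ) ^ 3) * ∏ q, T q ^ t) ≤ δ / 2 * ((M : ℝ) * X) ^ 2 * ∏ q, T q ^ t := by
    have e1 : ∑ r ∈ range M, ‖F r * G r‖ ≤ 10 * (b : ℝ) ^ 2 * K ^ 2 * (M * X) := by
      rw [← hL] at hmass
      refine hmass.trans ?_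
      have e2 : L ^ 2 ≤ ((b : ℝ) * K) ^ 2 := pow_le_pow_left₀ hL0.le hL2 2
      calc 10 * ((M : ℝ) * X * L ^ 2) ≤ 10 * ((M : ℝ) * X * ((b : ℝ) * K) ^ 2) := by
            apply mul_le_mul_of_nonneg_left _ (by norm_num)
            exact mul_le_mul_of_nonneg_left e2 (by positivity)
        _ = _ := by ring
    have e3 : 10 * (b : ℝ) ^ 2 / K ≤ δ / 2 := by
      have e4 : 20 * (b : ℝ) ^ 2 / δ ≤ K := hk5.trans (by exact_mod_cast (by omega : k5 ≤ K))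
      rw [div_le_iff₀ hδ] at e4
      rw [div_le_iff₀ hK0]
      linarith
    calc (∑ r ∈ range M, ‖F r * G r‖) * ((M * X / (K : ℝ) ^ 3) * ∏ q, T q ^ t) ≤
          (10 * (b : ℝ) ^ 2 * K ^ 2 * (M * X)) * ((M * X / (K : ℝ) ^ 3) * ∏ q, T q ^ t) :=
          mul_le_mul_of_nonneg_right e1 (by positivity)
      _ = (10 * (b : ℝ) ^ 2 / K) * (((M : ℝ) * X) ^ 2 * ∏ q, T q ^ t) := by
          field_simp
      _ ≤ (δ / 2) * (((M : ℝ) * X) ^ 2 * ∏ q, T q ^ t) := mul_le_mul_of_nonneg_right e3 (by positivity)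
      _ = _ := by ring
  -- the good part
  have hpart2 : 4 * ((1 - η) ^ (t - 4) * (∏ q, T q ^ t) / T 1 ^ 4) * ∑ r ∈ range M, ∑ r' ∈ range M, V r * V r' * P 1 r r' ^ 4 ≤
      δ / 2 * ((M : ℝ) * X) ^ 2 * ∏ q, T q ^ t := by
    have hη' : 0 ≤ 1 - η := by linarith
    have e1 : (1 - η) ^ (t - 4) ≤ δ / 2 / (4 * C + 1) := by
      refine le_trans ?_ hv.le
      exact pow_le_pow_of_le_one hη' (by linarith) (by omega)
    have e2 : (1 - η) ^ (t - 4) * (4 * C) ≤ δ / 2 := by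
      calc (1 - η) ^ (t - 4) * (4 * C) ≤ (δ / 2 / (4 * C + 1)) * (4 * C) := mul_le_mul_of_nonneg_right e1 (by positivity)
        _ = δ / 2 * (4 * C / (4 * C + 1)) := by ring
        _ ≤ δ / 2 * 1 := by
            apply mul_le_mul_of_nonneg_left _ (by positivity)
            rw [div_le_one (by positivity)]
            linarith
        _ = δ / 2 := mul_one _
    calc 4 * ((1 - η) ^ (t - 4) * (∏ q, T q ^ t) / T 1 ^ 4) * ∑ r ∈ range M, ∑ r' ∈ range M, V r * V r' * P 1 r r' ^ 4 ≤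
          4 * ((1 - η) ^ (t - 4) * (∏ q, T q ^ t) / T 1 ^ 4) * (C * ((M : ℝ) * X) ^ 2 * T 1 ^ 4) :=
          mul_le_mul_of_nonneg_left hfourK' (by positivity)
      _ = ((1 - η) ^ (t - 4) * (4 * C)) * (((M : ℝ) * X) ^ 2 * ∏ q, T q ^ t) := by
          have : T 1 ^ 4 ≠ 0 := (pow_pos hT1 4).ne'
          field_simp
      _ ≤ (δ / 2) * (((M : ℝ) * X) ^ 2 * ∏ q, T q ^ t) := mul_le_mul_of_nonneg_right e2 (by positivity)
      _ = _ := by ring
  linarith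

end Pool.Agent.TH894.SM
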