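import Pool.Agent.H43.G.R_seed8.TH894.SM5
import Pool.Agent.H43.G.R_seed8.TH894.SM0
import Pool.Agent.H43.G.R_seed8.W93.GB3

set_option autoImplicit false

/-! From the second moment to the number of exceptional choices. -/

namespace Pool.Agent.TH894.SM
open Finset
open Pool.Agent.H807R2.Dav
open Pool.Agent.H373R2.T7
open Pool.Agent.W93.DG
open Pool.Agent.W93.HD
open Pool.Agent.H560R3.GB
open Pool.Agent.W93.GB (Rw Mw sh singZ_near g_of_R sum_lamI sum_lamzI distinct_of_g one_le_sing)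
open Pool.Agent.W93.RD (EE EE_conv)

/-- the asymptotic formula, and two distinct primes -/
def Good (ε : ℝ) (n : ℕ) : Prop :=
  |(g n : ℝ) - HL n| ≤ ε * HL n ∧ ∃ p q : ℕ, p.Prime ∧ q.Prime ∧ p ≠ q ∧ p + q = n

/-- a number whose weighted count is close to the model satisfies the formula -/
theorem good_of2 (b : ℕ) (hb : 1 ≤ b) (ε : ℝ) (hε : 0 < ε) : ∃ ε₂ : ℝ, 0 < ε₂ ∧ ∀ E : ℕ, ∃ N0 : ℕ, ∀ N : ℕ, N0 ≤ N → ∀ z : ℕ,
    Real.log N ^ 3 ≤ z → (z : ℝ) ≤ Real.log N ^ E → ∀ n : ℕ, 2 ∣ n → N ≤ b * n → n ≤ N →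
    |∑ a ∈ Icc 1 N, ArithmeticFunction.vonMangoldt a * (lamI ((n : ℤ) - a) - lamzI z ((n : ℤ) - a))| ≤ ε₂ * N →
    Good ε n := by
  obtain ⟨δ, hδ, n0, hg⟩ := g_of_R ε hε
  have hb1 : (1 : ℝ) ≤ b := by exact_mod_cast hb
  have hb0 : (0 : ℝ) < b := by linarith
  refine ⟨δ / (4 * b), by positivity, fun E => ?_⟩
  obtain ⟨n1, hs⟩ := singZ_near (δ / 4) (by positivity)
  obtain ⟨n2, ht⟩ := tuple_main 1 (E + 1) 1 le_rfl
  obtain ⟨m1, h1⟩ := ev_L' (2 ^ (E + 2) + 16 / δ + 1 + 2)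
  obtain ⟨m2, h2⟩ := ev_log' 1 b
  set M := max n0 (max n1 n2) with hM
  refine ⟨max (max m1 m2) (max ((M + 1) ^ 2) 3), fun N hN z hz hzE n hn hNn hnB hdiff => ?_⟩
  have b1 := h1 N (le_trans (le_trans (le_max_left _ _) (le_max_left _ _)) hN)
  have b2 := h2 N (le_trans (le_trans (le_max_right _ _) (le_max_left _ _)) hN)
  have b3 : (M + 1) ^ 2 ≤ N := le_trans (le_trans (le_max_left _ _) (le_max_right _ _)) hN
  have hN3 : 3 ≤ N := le_trans (le_trans (le_max_right _ _) (le_max_right _ _)) hN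
  have hNr : (3 : ℝ) ≤ N := by exact_mod_cast hN3
  have hN0 : (0 : ℝ) < N := by linarith
  set L := Real.log N with hLd
  have h16 : 0 < 16 / δ := by positivity
  have hp2 : (4 : ℝ) ≤ 2 ^ (E + 2) := by
    calc (4 : ℝ) = 2 ^ 2 := by norm_num
      _ ≤ 2 ^ (E + 2) := pow_le_pow_right₀ (by norm_num) (by omega)
  have hL1 : 1 ≤ L := by linarith
  have hL0 : 0 < L := by linarith
  have hsq : √(N : ℝ) * √(N : ℝ) = N := Real.mul_self_sqrt hN0.le
  have hsq0 : 0 < √(N : ℝ) := Real.sqrt_pos.2 hN0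
  have hNnr : (N : ℝ) ≤ b * n := by exact_mod_cast hNn
  have hnsq : √(N : ℝ) ≤ n := by
    rw [pow_one] at b2
    have e1 : (b : ℝ) ≤ √(N : ℝ) := by
      refine le_trans ?_ b2
      exact le_mul_of_one_le_right hb0.le hL1
    have e2 : √(N : ℝ) * √(N : ℝ) ≤ √(N : ℝ) * n := by
      rw [hsq]
      exact hNnr.trans (mul_le_mul_of_nonneg_right e1 (Nat.cast_nonneg n))
    exact le_of_mul_le_mul_left e2 hsq0
  have hMn : M + 1 ≤ n := by
    have h3 : ((M : ℝ) + 1) ≤ √(N : ℝ) := by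
      apply Real.le_sqrt_of_sq_le
      exact_mod_cast b3
    have h4 : ((M : ℝ) + 1) ≤ n := h3.trans hnsq
    exact_mod_cast h4
  have hn0' : n0 ≤ n := (le_max_left _ _).trans ((Nat.le_succ M).trans hMn)
  have hn1' : n1 ≤ n := ((le_max_left _ _).trans (le_max_right _ _)).trans ((Nat.le_succ M).trans hMn)
  have hn2' : n2 ≤ n := ((le_max_right _ _).trans (le_max_right _ _)).trans ((Nat.le_succ M).trans hMn)
  have hnpos : (0 : ℝ) < n := hsq0.trans_le hnsq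
  -- logarithms
  have hlogn : L / 2 ≤ Real.log n := by
    have := Real.log_le_log hsq0 hnsq
    rw [Real.log_sqrt hN0.le] at this
    exact this
  have hlogn' : Real.log n ≤ 2 * L := by
    have h3 : (n : ℝ) ≤ N := by exact_mod_cast hnB
    have h4 := Real.log_le_log hnpos h3
    linarith
  have hln0 : 0 < Real.log n := by linarith
  have hln2 : 2 ^ (E + 1) ≤ Real.log n := by
    have : (2 : ℝ) ^ (E + 2) = 2 * 2 ^ (E + 1) := by ring
    linarith
  have hz1 : 1 ≤ z := by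
    have : (1 : ℝ) ≤ z := (one_le_pow₀ hL1).trans hz
    exact_mod_cast this
  have hz2 : 2 ≤ z := by
    have : (2 : ℝ) ≤ z := by
      refine le_trans ?_ hz
      have : L ≤ L ^ 3 := le_self_pow₀ hL1 (by norm_num)
      linarith
    exact_mod_cast this
  have hzE' : (z : ℝ) ≤ Real.log n ^ (E + 1) := by
    refine hzE.trans ?_
    calc L ^ E ≤ (2 * Real.log n) ^ E := pow_le_pow_left₀ hL0.le (by linarith) E
      _ = 2 ^ E * Real.log n ^ E := by rw [mul_pow]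
      _ ≤ Real.log n * Real.log n ^ E := by
          apply mul_le_mul_of_nonneg_right _ (by positivity)
          refine le_trans ?_ hln2
          exact pow_le_pow_right₀ (by norm_num) (by omega)
      _ = _ := by ring
  have hzs : Real.log n ^ 2 ≤ z := by
    calc Real.log n ^ 2 ≤ (2 * L) ^ 2 := pow_le_pow_left₀ hln0.le hlogn' 2
      _ = 4 * L ^ 2 := by ring
      _ ≤ L * L ^ 2 := mul_le_mul_of_nonneg_right (by linarith) (by positivity)
      _ = L ^ 3 := by ring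
      _ ≤ z := hz
  have c1 := hs n hn1' hn z hzs
  have c2 := ht n hn2' z hz1 hzE' (sh n)
  change |Mw z n - singZ (sh n) z * n| ≤ n / Real.log n ^ 1 at c2
  have hsing := one_le_sing n
  -- the difference
  have c3 : ∑ a ∈ Icc 1 N, ArithmeticFunction.vonMangoldt a * (lamI ((n : ℤ) - a) - lamzI z ((n : ℤ) - a)) =
      Rw n - Mw z n := by
    rw [← sum_lamI n N hnB, ← sum_lamzI z n N hz2 hnB, ← sum_sub_distrib]
    apply sum_congr rfl
    intro b _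
    ring
  rw [c3] at hdiff
  have c4 : |Rw n - Mw z n| ≤ δ / 4 * n := by
    refine hdiff.trans ?_
    calc δ / (4 * b) * N ≤ δ / (4 * b) * (b * n) := mul_le_mul_of_nonneg_left hNnr (by positivity)
      _ = _ := by field_simp
  have c5 : |Mw z n - singZ (sh n) z * n| ≤ δ / 4 * n := by
    refine c2.trans ?_
    rw [pow_one, div_le_iff₀ hln0]
    have h4 : 1 ≤ δ / 4 * Real.log n := by
      have : 16 / δ ≤ L := by linarith
      rw [div_le_iff₀ hδ] at this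
      nlinarith
    calc (n : ℝ) ≤ (δ / 4 * Real.log n) * n := le_mul_of_one_le_left hnpos.le h4
      _ = _ := by ring
  have c6 : |Rw n - sing n * n| ≤ δ * (sing n * n) := by
    have e : Rw n - sing n * n = (Rw n - Mw z n) + (Mw z n - singZ (sh n) z * n) + (singZ (sh n) z - sing n) * n := by ring
    rw [e]
    have h5 : |(singZ (sh n) z - sing n) * n| ≤ δ / 4 * (sing n * n) := by
      rw [abs_mul, abs_of_pos hnpos]
      calc |singZ (sh n) z - sing n| * n ≤ (δ / 4 * sing n) * n := mul_le_mul_of_nonneg_right c1 hnpos.le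
        _ = _ := by ring
    have h6 : (n : ℝ) ≤ sing n * n := le_mul_of_one_le_left hnpos.le hsing
    have h7 : δ / 4 * (n : ℝ) ≤ δ / 4 * (sing n * n) := mul_le_mul_of_nonneg_left h6 (by positivity)
    calc _ ≤ |Rw n - Mw z n| + |Mw z n - singZ (sh n) z * n| + |(singZ (sh n) z - sing n) * n| :=
          (abs_add_le _ _).trans (add_le_add_left (abs_add_le _ _) _)
      _ ≤ δ / 4 * (sing n * n) + δ / 4 * (sing n * n) + δ / 4 * (sing n * n) := by linarith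
      _ ≤ δ * (sing n * n) := by
          have : 0 ≤ sing n * n := by positivity
          nlinarith
  obtain ⟨d1, d2⟩ := hg n hn0' c6
  exact ⟨d1, distinct_of_g n d2⟩

/-- few choices are exceptional -/
theorem few_choices (b : ℕ) (hb : 2 ≤ b) : ∃ R A : ℕ, 1 ≤ R ∧ 1 ≤ A ∧ ∀ ε ρ : ℝ, 0 < ε → 0 < ρ → ∃ t₀ : ℕ, ∀ t : ℕ, t₀ ≤ t →
    ∃ k₀ : ℕ, ∀ K : ℕ, k₀ ≤ K → ∀ (N : ℕ) (e : ℕ → ℤ), (∀ j, e j ≠ 0 ∧ |e j| < b) →
    ∀ J : Fin 3 → Finset ℕ, Pos b R K (hh b A K) J → ∀ S ⊆ Om J t,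
    (∀ ω ∈ S, ∃ y : ℕ, (y : ℤ) = nw b N e ω ∧ 2 ∣ y ∧ b ^ K ≤ b * y ∧ y ≤ b ^ K ∧ ¬ Good ε y) →
    (S.card : ℝ) ≤ ρ * (Om J t).card := by
  classical
  have hbn : 0 < b := by omega
  obtain ⟨R, A, B, hR, hA, hsm⟩ := second_moment b hb
  refine ⟨R, A, hR, hA, fun ε ρ hε hρ => ?_⟩
  obtain ⟨ε₂, hε₂, hgood⟩ := good_of2 b (by omega) ε hε
  obtain ⟨t₀, ht₀⟩ := hsm (ρ * ε₂ ^ 2) (by positivity)
  refine ⟨t₀, fun t ht => ?_⟩
  obtain ⟨B₂, hB₂⟩ : ∃ B₂, B₂ = max B 3 := ⟨_, rfl⟩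
  obtain ⟨k1, h1⟩ := ht₀ t ht (B₂ + 1)
  obtain ⟨n2, h2⟩ := hgood (B₂ + 1)
  refine ⟨k1 + n2 + 4, fun K hK N e he J hJ S hS hSb => ?_⟩
  obtain ⟨X, hX⟩ : ∃ X, X = b ^ K := ⟨_, rfl⟩
  obtain ⟨M, hM⟩ : ∃ M, M = b ^ (K + 1) := ⟨_, rfl⟩
  have hb1 : 1 < b := by omega
  have hKX : K < X := by rw [hX]; exact Nat.lt_pow_self hb1
  have hMX : M = b * X := by rw [hM, hX, pow_succ']
  have hXM : 2 * X ≤ M := by rw [hMX]; exact Nat.mul_le_mul_right _ hb
  have hX0 : (0 : ℝ) < X := by exact_mod_cast (by omega : 0 < X)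
  have hM0 : (0 : ℝ) < M := by exact_mod_cast (by omega : 0 < M)
  obtain ⟨hL1, hL2⟩ := logX b K hb
  obtain ⟨L, hL⟩ : ∃ L, L = Real.log (X : ℝ) := ⟨_, rfl⟩
  rw [← hX, ← hL] at hL1 hL2
  have hK4 : (4 : ℝ) ≤ K := by exact_mod_cast (by omega : 4 ≤ K)
  have hL2' : 2 ≤ L := by linarith
  have hL0 : 0 < L := by linarith
  -- the level
  obtain ⟨z, hz⟩ : ∃ z, z = ⌈L ^ B₂⌉₊ := ⟨_, rfl⟩
  have hz1 : L ^ B₂ ≤ z := by rw [hz]; exact Nat.le_ceil _
  have hz2 : (z : ℝ) ≤ L ^ (B₂ + 1) := by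
    have e1 : (z : ℝ) < L ^ B₂ + 1 := by rw [hz]; exact Nat.ceil_lt_add_one (by positivity)
    have e2 : 1 ≤ L ^ B₂ := one_le_pow₀ (by linarith)
    rw [pow_succ]
    nlinarith
  have hz3 : L ^ B ≤ z := (pow_le_pow_right₀ (by linarith) (by rw [hB₂]; exact le_max_left _ _)).trans hz1
  have hz4 : L ^ 3 ≤ z := (pow_le_pow_right₀ (by linarith) (by rw [hB₂]; exact le_max_right _ _)).trans hz1
  have hmom := h1 K (by omega) z (by rw [← hX, ← hL]; exact hz3) (by rw [← hX, ← hL]; exact hz2) N e he J hJ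
  rw [← hX, ← hM] at hmom
  obtain ⟨AA, hAA⟩ : ∃ AA : ℕ → ℂ, AA = fun r => FF (fun n => ArithmeticFunction.vonMangoldt n) X M r *
        FF (fun n => ArithmeticFunction.vonMangoldt n - lamz z n) X M r := ⟨_, rfl⟩
  rw [← hAA] at hmom
  -- each exceptional choice
  have hpt : ∀ ω ∈ S, (M * (ε₂ * X)) ^ 2 ≤ ‖EE AA M (nw b N e ω)‖ ^ 2 := by
    intro ω hω
    obtain ⟨y, hy, hy2, hyb, hyX, hyG⟩ := hSb ω hω
    rw [← hX] at hyb hyX
    have hy0 : 0 < y := by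
      rcases Nat.eq_zero_or_pos y with h0 | h0
      · rw [h0, mul_zero] at hyb; omega
      · exact h0
    have hdiff : ¬ |∑ a ∈ Icc 1 X, ArithmeticFunction.vonMangoldt a * (lamI ((y : ℤ) - a) - lamzI z ((y : ℤ) - a))| ≤ ε₂ * X := by
      intro hcon
      apply hyG
      exact h2 X (by omega) z (by rw [← hL]; exact hz4) (by rw [← hL]; exact hz2) y hy2 hyb hyX hcon
    push Not at hdiff
    have hconv := EE_conv (fun n => ArithmeticFunction.vonMangoldt n) (fun n => ArithmeticFunction.vonMangoldt n - lamz z n) X M (by omega)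
        hXM (y : ℤ) (by omega) (by omega)
    rw [← hAA] at hconv
    have hS' : ∑ a ∈ Icc 1 X, ArithmeticFunction.vonMangoldt a *
        (if 1 ≤ (y : ℤ) - (a : ℤ) then (fun n => ArithmeticFunction.vonMangoldt n - lamz z n) ((y : ℤ) - (a : ℤ)).toNat else 0) =
        ∑ a ∈ Icc 1 X, ArithmeticFunction.vonMangoldt a * (lamI ((y : ℤ) - a) - lamzI z ((y : ℤ) - a)) := by
      apply sum_congr rfl
      intro a _
      unfold lamI lamzI
      by_cases h7 : 1 ≤ (y : ℤ) - (a : ℤ)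
      · rw [if_pos h7, if_pos h7, if_pos h7]
      · rw [if_neg h7, if_neg h7, if_neg h7, sub_zero]
    rw [hS'] at hconv
    obtain ⟨Sg, hSd⟩ : ∃ Sg, Sg = ∑ a ∈ Icc 1 X, ArithmeticFunction.vonMangoldt a * (lamI ((y : ℤ) - a) - lamzI z ((y : ℤ) - a)) := ⟨_, rfl⟩
    rw [← hSd] at hconv hdiff
    rw [← hy, hconv, Complex.norm_real, Real.norm_eq_abs, abs_mul, abs_of_pos hM0]
    apply pow_le_pow_left₀ (by positivity)
    exact mul_le_mul_of_nonneg_left hdiff.le hM0.le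
  have hsum : (S.card : ℝ) * (M * (ε₂ * X)) ^ 2 ≤ ρ * ε₂ ^ 2 * ((M : ℝ) * X) ^ 2 * (Om J t).card := by
    refine le_trans ?_ hmom
    calc (S.card : ℝ) * (M * (ε₂ * X)) ^ 2 = ∑ _ω ∈ S, (M * (ε₂ * X)) ^ 2 := by rw [sum_const, nsmul_eq_mul]
      _ ≤ ∑ ω ∈ S, ‖EE AA M (nw b N e ω)‖ ^ 2 := sum_le_sum hpt
      _ ≤ _ := sum_le_sum_of_subset_of_nonneg hS fun _ _ _ => sq_nonneg _
  have hpos : 0 < (M * (ε₂ * X)) ^ 2 := by positivity
  have e1 : ρ * ε₂ ^ 2 * ((M : ℝ) * X) ^ 2 * (Om J t).card = ρ * (Om J t).card * (M * (ε₂ * X)) ^ 2 := by ring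
  rw [e1] at hsum
  exact le_of_mul_le_mul_right hsum hpos

end Pool.Agent.TH894.SM
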