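import Pool.Agent.H43.G.R_seed8.TH894.SM6

set_option autoImplicit false

/-! From choices of positions to sets of positions. -/

namespace Pool.Agent.TH894.SM
open Finset
open Pool.Agent.W93.DG

/-- the enumeration of a set -/
noncomputable def enm (t : ℕ) (T : Finset ℕ) (i : Fin t) : ℕ := if h : T.card = t then T.orderEmbOfFin h i else 0

lemma enm_eq {t : ℕ} {T : Finset ℕ} (h : T.card = t) : enm t T = T.orderEmbOfFin h := by
  funext i
  unfold enm
  rw [dif_pos h]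

lemma enm_inj {t : ℕ} {T : Finset ℕ} (h : T.card = t) : Function.Injective (enm t T) := by
  rw [enm_eq h]
  exact (T.orderEmbOfFin h).injective

lemma enm_mem {t : ℕ} {T : Finset ℕ} (h : T.card = t) (i : Fin t) : enm t T i ∈ T := by
  rw [enm_eq h]
  exact T.orderEmbOfFin_mem h i

lemma enm_image {t : ℕ} {T : Finset ℕ} (h : T.card = t) : univ.image (enm t T) = T := by
  rw [enm_eq h]
  exact T.image_orderEmbOfFin_univ h

lemma enm_sum {t : ℕ} {T : Finset ℕ} (h : T.card = t) (f : ℕ → ℤ) : ∑ i, f (enm t T i) = ∑ j ∈ T, f j := by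
  conv_rhs => rw [← enm_image h]
  rw [sum_image fun x _ y _ hxy => enm_inj h hxy]

/-- powers and falling factorials -/
lemma pow_le_desc (m t : ℕ) (hm : 2 * t ^ 2 + 1 ≤ m) : (m : ℝ) ^ t ≤ 2 * ((t.factorial : ℝ) * (m.choose t : ℝ)) := by
  have hm0 : (0 : ℝ) < m := by exact_mod_cast (by omega : 0 < m)
  have htm : t ≤ m := by nlinarith [Nat.zero_le t]
  have h1 : (((m - t : ℕ) : ℝ)) ^ t ≤ (t.factorial : ℝ) * (m.choose t : ℝ) := by
    have h2 := Nat.pow_sub_le_descFactorial m t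
    rw [Nat.descFactorial_eq_factorial_mul_choose] at h2
    have h3 : (m - t) ^ t ≤ (m + 1 - t) ^ t := Nat.pow_le_pow_left (by omega) t
    exact_mod_cast h3.trans h2
  have h2 : (((m - t : ℕ) : ℝ)) = m * (1 + -(t / m : ℝ)) := by
    rw [Nat.cast_sub htm]
    field_simp
    ring
  have htm' : (t : ℝ) / m ≤ 1 := by
    rw [div_le_one hm0]
    exact_mod_cast htm
  have h3 := one_add_mul_le_pow (show (-2 : ℝ) ≤ -(t / m : ℝ) by linarith) t
  have h4 : (t : ℝ) * (t / m) ≤ 1 / 2 := by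
    rw [mul_div_assoc', div_le_div_iff₀ hm0 (by norm_num)]
    have : ((2 * t ^ 2 + 1 : ℕ) : ℝ) ≤ m := by exact_mod_cast hm
    push_cast at this
    nlinarith
  have h5 : (1 : ℝ) / 2 ≤ (1 + -(t / m : ℝ)) ^ t := by
    refine le_trans ?_ h3
    linarith
  rw [h2, mul_pow] at h1
  have h6 : 0 < (m : ℝ) ^ t := by positivity
  nlinarith

/-- few sets of positions are exceptional -/
theorem few_sets (b : ℕ) (hb : 2 ≤ b) : ∃ R A : ℕ, 1 ≤ R ∧ 1 ≤ A ∧ ∀ ε ρ : ℝ, 0 < ε → 0 < ρ → ∃ t₀ : ℕ, ∀ t : ℕ, t₀ ≤ t →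
    ∃ k₀ : ℕ, ∀ K : ℕ, k₀ ≤ K → ∀ (N : ℕ) (e : ℕ → ℤ), (∀ j, e j ≠ 0 ∧ |e j| < b) →
    ∀ J : Fin 3 → Finset ℕ, Pos b R K (hh b A K) J → ∀ S ⊆ Fintype.piFinset (fun q => powersetCard t (J q)),
    (∀ T ∈ S, ∃ y : ℕ, (y : ℤ) = N + ∑ q, ∑ j ∈ T q, dl b e j ∧ 2 ∣ y ∧ b ^ K ≤ b * y ∧ y ≤ b ^ K ∧ ¬ Good ε y) →
    (S.card : ℝ) ≤ ρ * ∏ q, ((J q).card.choose t : ℝ) := by
  classical
  obtain ⟨R, A, hR, hA, hfc⟩ := few_choices b hb
  refine ⟨R, A, hR, hA, fun ε ρ hε hρ => ?_⟩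
  obtain ⟨t₀, ht₀⟩ := hfc ε (ρ / 8) hε (by positivity)
  refine ⟨t₀, fun t ht => ?_⟩
  obtain ⟨k₀, hk₀⟩ := ht₀ t ht
  obtain ⟨k1, hk1⟩ := hh_small b A 4 hb
  refine ⟨k₀ + k1 + b ^ (4 * t ^ 2 + 4) + 100, fun K hK N e he J hJ S hS hSb => ?_⟩
  obtain ⟨h, hh'⟩ : ∃ h, h = hh b A K := ⟨_, rfl⟩
  have hh1 : 8 * t ^ 2 + 8 ≤ h := by
    rw [hh']
    unfold hh
    have hlog : 4 * t ^ 2 + 4 ≤ Nat.log b K := Nat.le_log_of_pow_le (by omega) (by omega)
    calc 8 * t ^ 2 + 8 = 2 * 1 * (4 * t ^ 2 + 4) := by ring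
      _ ≤ 2 * A * (Nat.log b K + 1) := Nat.mul_le_mul (Nat.mul_le_mul_left _ hA) (by omega)
  have hh2 : 4 * h ≤ K := by rw [hh']; exact hk1 K (by omega)
  have hcd : ∀ (x y : ℕ) (S : Finset ℕ), S ⊆ Ico x y → 8 * R * (Ico x y \ S).card ≤ y - x → 7 * (y - x) ≤ 8 * S.card := by
    intro x y S hS hc
    have e1 := card_sdiff_add_card_eq_card hS
    rw [Nat.card_Ico] at e1
    have e2 : 8 * (Ico x y \ S).card ≤ 8 * R * (Ico x y \ S).card := by
      calc 8 * (Ico x y \ S).card = 8 * 1 * (Ico x y \ S).card := by ring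
        _ ≤ _ := Nat.mul_le_mul_right _ (Nat.mul_le_mul_left _ hR)
    omega
  have hJ' := hJ
  rw [← hh'] at hJ'
  have g0 := hcd _ _ _ hJ'.s0 (hJ'.c0.trans (by omega))
  have g1 := hcd _ _ _ hJ'.s1 (hJ'.c1.trans (by omega))
  have g2 := hcd _ _ _ hJ'.s2 (hJ'.c2.trans (by omega))
  have hcard : ∀ q, 2 * t ^ 2 + 1 ≤ (J q).card := by
    intro q
    have hq3 : q = 0 ∨ q = 1 ∨ q = 2 := by
      fin_cases q <;> simp
    rcases hq3 with rfl | rfl | rfl <;> omega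
  -- the map
  obtain ⟨Φ, hΦ⟩ : ∃ Φ : (Fin 3 → Finset ℕ) × (Fin 3 → Equiv.Perm (Fin t)) → (Fin 3 × Fin t → ℕ),
      Φ = fun p c => enm t (p.1 c.1) (p.2 c.1 c.2) := ⟨_, rfl⟩
  have hTc : ∀ T ∈ S, ∀ q, T q ⊆ J q ∧ (T q).card = t := by
    intro T hT q
    have := hS hT
    rw [Fintype.mem_piFinset] at this
    exact mem_powersetCard.1 (this q)
  have himg : (S ×ˢ (univ : Finset (Fin 3 → Equiv.Perm (Fin t)))).image Φ ⊆ Om J t := by
    intro ω hω
    rw [mem_image] at hω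
    obtain ⟨p, hp, rfl⟩ := hω
    rw [mem_product] at hp
    unfold Om
    rw [Fintype.mem_piFinset]
    intro c
    rw [hΦ]
    exact (hTc p.1 hp.1 c.1).1 (enm_mem (hTc p.1 hp.1 c.1).2 _)
  have hinj : Set.InjOn Φ ((S ×ˢ (univ : Finset (Fin 3 → Equiv.Perm (Fin t))) : Finset _) : Set ((Fin 3 → Finset ℕ) × (Fin 3 → Equiv.Perm (Fin t)))) := by
    intro p hp p' hp' hpp
    rw [mem_coe, mem_product] at hp hp'
    have e1 : ∀ q i, enm t (p.1 q) (p.2 q i) = enm t (p'.1 q) (p'.2 q i) := by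
      intro q i
      have := congrFun hpp (q, i)
      rw [hΦ] at this
      exact this
    have e2 : p.1 = p'.1 := by
      funext q
      rw [← enm_image (hTc p.1 hp.1 q).2, ← enm_image (hTc p'.1 hp'.1 q).2]
      ext x
      simp only [mem_image, mem_univ, true_and]
      constructor
      · rintro ⟨i, hi⟩
        refine ⟨p'.2 q ((p.2 q).symm i), ?_⟩
        rw [← e1, Equiv.apply_symm_apply]
        exact hi
      · rintro ⟨i, hi⟩
        refine ⟨p.2 q ((p'.2 q).symm i), ?_⟩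
        rw [e1, Equiv.apply_symm_apply]
        exact hi
    refine Prod.ext e2 ?_
    funext q
    apply Equiv.ext
    intro i
    have e3 := e1 q i
    rw [← e2] at e3
    exact enm_inj (hTc p.1 hp.1 q).2 e3
  have hbadω : ∀ ω ∈ (S ×ˢ (univ : Finset (Fin 3 → Equiv.Perm (Fin t)))).image Φ,
      ∃ y : ℕ, (y : ℤ) = nw b N e ω ∧ 2 ∣ y ∧ b ^ K ≤ b * y ∧ y ≤ b ^ K ∧ ¬ Good ε y := by
    intro ω hω
    rw [mem_image] at hω
    obtain ⟨p, hp, rfl⟩ := hω
    rw [mem_product] at hp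
    obtain ⟨y, hy, hy'⟩ := hSb p.1 hp.1
    refine ⟨y, ?_, hy'⟩
    rw [hy]
    unfold nw
    congr 1
    rw [Fintype.sum_prod_type]
    apply sum_congr rfl
    intro q _
    rw [hΦ]
    simp only
    rw [Equiv.sum_comp (p.2 q) (fun i => dl b e (enm t (p.1 q) i))]
    exact (enm_sum (hTc p.1 hp.1 q).2 (dl b e)).symm
  have hmain := hk₀ K (by omega) N e he J hJ _ himg hbadω
  rw [card_image_of_injOn hinj, card_product, card_univ, Fintype.card_fun, Fintype.card_fin, Fintype.card_perm, Fintype.card_fin, card_Om] at hmain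
  push_cast at hmain
  have hf0 : (0 : ℝ) < t.factorial := by exact_mod_cast Nat.factorial_pos t
  have hprod : ∏ q, ((J q).card : ℝ) ^ t ≤ ∏ q, (2 * ((t.factorial : ℝ) * ((J q).card.choose t : ℝ))) := by
    apply prod_le_prod
    · intro q _; positivity
    · intro q _
      exact pow_le_desc _ t (hcard q)
  have hprod2 : ∏ q : Fin 3, (2 * ((t.factorial : ℝ) * ((J q).card.choose t : ℝ))) = 8 * (t.factorial : ℝ) ^ 3 * ∏ q, ((J q).card.choose t : ℝ) := by
    rw [Fin.prod_univ_three, Fin.prod_univ_three]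
    ring
  rw [hprod2] at hprod
  have h1 : (S.card : ℝ) * (t.factorial : ℝ) ^ 3 ≤ (ρ * ∏ q, ((J q).card.choose t : ℝ)) * (t.factorial : ℝ) ^ 3 := by
    calc (S.card : ℝ) * (t.factorial : ℝ) ^ 3 ≤ ρ / 8 * ∏ q, ((J q).card : ℝ) ^ t := hmain
      _ ≤ ρ / 8 * (8 * (t.factorial : ℝ) ^ 3 * ∏ q, ((J q).card.choose t : ℝ)) := mul_le_mul_of_nonneg_left hprod (by positivity)
      _ = _ := by ring
  exact le_of_mul_le_mul_right h1 (by positivity)

/-- double counting: a set of size `r` as the union of a set of size `r - t` and a set of size `t` -/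
lemma expose {κ : Type*} [Fintype κ] [DecidableEq κ] (W : κ → Finset ℕ) (r : κ → ℕ) (t : ℕ) (ht : ∀ q, t ≤ r q)
    (f : (κ → Finset ℕ) → ℝ) :
    ∑ S ∈ Fintype.piFinset (fun q => powersetCard (r q) (W q)), ∑ _T ∈ Fintype.piFinset (fun q => powersetCard t (S q)), f S =
      ∑ Z ∈ Fintype.piFinset (fun q => powersetCard (r q - t) (W q)), ∑ T ∈ Fintype.piFinset (fun q => powersetCard t (W q \ Z q)),
        f (fun q => Z q ∪ T q) := by
  classical
  rw [sum_sigma', sum_sigma']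
  apply sum_nbij' (fun p => ⟨fun q => p.1 q \ p.2 q, p.2⟩) (fun p => ⟨fun q => p.1 q ∪ p.2 q, p.2⟩)
  · rintro ⟨S, T⟩ h
    rw [mem_sigma, Fintype.mem_piFinset, Fintype.mem_piFinset] at h
    simp only [mem_powersetCard] at h
    rw [mem_sigma, Fintype.mem_piFinset, Fintype.mem_piFinset]
    simp only [mem_powersetCard]
    refine ⟨fun q => ⟨sdiff_subset.trans (h.1 q).1, ?_⟩, fun q => ⟨?_, (h.2 q).2⟩⟩
    · rw [card_sdiff_of_subset (h.2 q).1, (h.1 q).2, (h.2 q).2]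
    · intro x hx
      rw [mem_sdiff, mem_sdiff]
      exact ⟨(h.1 q).1 ((h.2 q).1 hx), fun h' => h'.2 hx⟩
  · rintro ⟨Z, T⟩ h
    rw [mem_sigma, Fintype.mem_piFinset, Fintype.mem_piFinset] at h
    simp only [mem_powersetCard] at h
    rw [mem_sigma, Fintype.mem_piFinset, Fintype.mem_piFinset]
    simp only [mem_powersetCard]
    refine ⟨fun q => ⟨union_subset (h.1 q).1 ((h.2 q).1.trans sdiff_subset), ?_⟩, fun q => ⟨subset_union_right, (h.2 q).2⟩⟩
    rw [card_union_of_disjoint, (h.1 q).2, (h.2 q).2]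
    · have := ht q
      omega
    · exact disjoint_of_subset_right (h.2 q).1 disjoint_sdiff
  · rintro ⟨S, T⟩ h
    rw [mem_sigma, Fintype.mem_piFinset, Fintype.mem_piFinset] at h
    simp only [mem_powersetCard] at h
    simp only [Sigma.mk.injEq, heq_eq_eq, and_true]
    funext q
    exact sdiff_union_of_subset (h.2 q).1
  · rintro ⟨Z, T⟩ h
    rw [mem_sigma, Fintype.mem_piFinset, Fintype.mem_piFinset] at h
    simp only [mem_powersetCard] at h
    simp only [Sigma.mk.injEq, heq_eq_eq, and_true]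
    funext q
    rw [union_sdiff_right]
    apply sdiff_eq_self_of_disjoint
    exact disjoint_of_subset_right (h.2 q).1 disjoint_sdiff
  · rintro ⟨S, T⟩ h
    rw [mem_sigma, Fintype.mem_piFinset, Fintype.mem_piFinset] at h
    simp only [mem_powersetCard] at h
    simp only
    congr 1
    funext q
    exact (sdiff_union_of_subset (h.2 q).1).symm

end Pool.Agent.TH894.SM
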