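import Pool.Agent.H43.G.R_seed8.TH894.SM7

set_option autoImplicit false

/-! Changes of digits, with arbitrary numbers of changes in the three windows. -/

namespace Pool.Agent.TH894.SM
open Finset
open Pool.Agent.W93.DG

/-- the number obtained from `N < b ^ K` by replacing the digits at the positions in `S` by `f i` -/
def change (b K N : ℕ) (f : ℕ → ℕ) (S : Finset ℕ) : ℕ := ∑ i ∈ range K, (if i ∈ S then f i else N / b ^ i % b) * b ^ i

/-- the differences of the digits -/
def ed (b N : ℕ) (f : ℕ → ℕ) (j : ℕ) : ℤ := (f j : ℤ) - ((N / b ^ j % b : ℕ) : ℤ)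

lemma sum_digits (b N : ℕ) (K : ℕ) : ∑ i ∈ range K, (N / b ^ i % b) * b ^ i = N % b ^ K := by
  induction K with
  | zero => simp [Nat.mod_one]
  | succ K ih => rw [sum_range_succ, ih, Nat.mod_pow_succ]; ring

lemma change_eq (b K N : ℕ) (hN : N < b ^ K) (f : ℕ → ℕ) (S : Finset ℕ) (hS : S ⊆ range K) :
    ((change b K N f S : ℕ) : ℤ) = N + ∑ j ∈ S, dl b (ed b N f) j := by
  have h1 := sum_digits b N K
  rw [Nat.mod_eq_of_lt hN] at h1
  have h2 : ∑ j ∈ S, dl b (ed b N f) j = ∑ i ∈ range K, if i ∈ S then dl b (ed b N f) i else 0 := by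
    rw [sum_ite_mem, inter_eq_right.2 hS]
  have h3 : (N : ℤ) = ∑ i ∈ range K, ((N / b ^ i % b : ℕ) : ℤ) * (b : ℤ) ^ i := by
    have h4 : ((∑ i ∈ range K, N / b ^ i % b * b ^ i : ℕ) : ℤ) = (N : ℤ) := by rw [h1]
    rw [← h4, Nat.cast_sum]
    apply sum_congr rfl
    intro i _
    rw [Nat.cast_mul, Nat.cast_pow]
  rw [h2]
  calc ((change b K N f S : ℕ) : ℤ) = ∑ i ∈ range K, (((N / b ^ i % b : ℕ) : ℤ) * (b : ℤ) ^ i + (if i ∈ S then dl b (ed b N f) i else 0)) := by
        unfold change
        rw [Nat.cast_sum]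
        apply sum_congr rfl
        intro i _
        rw [Nat.cast_mul, Nat.cast_pow]
        split_ifs with hi
        · unfold dl ed
          ring
        · ring
    _ = (∑ i ∈ range K, ((N / b ^ i % b : ℕ) : ℤ) * (b : ℤ) ^ i) + ∑ i ∈ range K, (if i ∈ S then dl b (ed b N f) i else 0) := sum_add_distrib
    _ = N + ∑ i ∈ range K, (if i ∈ S then dl b (ed b N f) i else 0) := by rw [← h3]

lemma change_lt (b K N : ℕ) (hb : 1 ≤ b) (f : ℕ → ℕ) (hf : ∀ j, f j < b) (S : Finset ℕ) : change b K N f S < b ^ K := by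
  unfold change
  induction K with
  | zero => simp
  | succ K ih =>
    rw [sum_range_succ, pow_succ]
    have h1 : (if K ∈ S then f K else N / b ^ K % b) ≤ b - 1 := by
      split_ifs
      · have := hf K; omega
      · have := Nat.mod_lt (N / b ^ K) hb; omega
    have h2 : (if K ∈ S then f K else N / b ^ K % b) * b ^ K ≤ (b - 1) * b ^ K := Nat.mul_le_mul_right _ h1
    have h3 : (b - 1) * b ^ K + b ^ K = b ^ K * b := by
      conv_lhs => rw [← Nat.succ_mul]
      rw [Nat.succ_eq_add_one, Nat.sub_add_cancel hb, mul_comm]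
    omega

lemma le_change (b K N : ℕ) (hb : 1 ≤ b) (hN : b ^ K ≤ N) (hN' : N < b ^ (K + 1)) (f : ℕ → ℕ) (S : Finset ℕ) (hS : K ∉ S) :
    b ^ K ≤ change b (K + 1) N f S := by
  unfold change
  rw [sum_range_succ, if_neg hS]
  have h0 : 0 < b ^ K := by positivity
  have h1 : 1 ≤ N / b ^ K := (Nat.one_le_div_iff h0).2 hN
  have h2 : N / b ^ K < b := by
    rw [Nat.div_lt_iff_lt_mul h0]
    rw [pow_succ] at hN'
    linarith
  rw [Nat.mod_eq_of_lt h2]
  have : 1 * b ^ K ≤ N / b ^ K * b ^ K := Nat.mul_le_mul_right _ h1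
  omega

/-- the windows -/
def Win (h K : ℕ) (q : Fin 3) : Finset ℕ :=
  if q = 0 then Ico 1 (1 + h) else if q = 1 then Ico (1 + h) (K - 1 - h) else Ico (K - 1 - h) (K - 1)

lemma Win_sub (h K : ℕ) (q : Fin 3) (hK : 2 * h + 2 ≤ K) : Win h K q ⊆ Ico 1 (K - 1) := by
  intro x hx
  unfold Win at hx
  rw [mem_Ico]
  split_ifs at hx <;> rw [mem_Ico] at hx <;> omega

lemma Win_disj (h K : ℕ) (q q' : Fin 3) (hK : 2 * h + 2 ≤ K) (hq : q ≠ q') : Disjoint (Win h K q) (Win h K q') := by
  rw [Finset.disjoint_left]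
  intro x hx hx'
  unfold Win at hx hx'
  have hq3 : q = 0 ∨ q = 1 ∨ q = 2 := by
    fin_cases q <;> simp
  have hq3' : q' = 0 ∨ q' = 1 ∨ q' = 2 := by
    fin_cases q' <;> simp
  rcases hq3 with rfl | rfl | rfl <;> rcases hq3' with rfl | rfl | rfl <;> simp at hx hx' hq <;> omega

/-- the union of the three sets -/
def un (S : Fin 3 → Finset ℕ) : Finset ℕ := univ.biUnion S

lemma un_sum (S : Fin 3 → Finset ℕ) (hS : ∀ q q', q ≠ q' → Disjoint (S q) (S q')) (F : ℕ → ℤ) :
    ∑ j ∈ un S, F j = ∑ q, ∑ j ∈ S q, F j := by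
  unfold un
  rw [sum_biUnion]
  intro q _ q' _ hq
  exact hS q q' hq

/-- few triples of sets of positions are exceptional -/
theorem few_general (b : ℕ) (hb : 2 ≤ b) : ∃ R A : ℕ, 1 ≤ R ∧ 1 ≤ A ∧ ∀ ε ρ : ℝ, 0 < ε → 0 < ρ → ∃ t₀ : ℕ, ∀ t : ℕ, t₀ ≤ t →
    ∃ k₀ : ℕ, ∀ K : ℕ, k₀ ≤ K → ∀ N : ℕ, b ^ (K - 1) ≤ N → N < b ^ K → ∀ f : ℕ → ℕ, (∀ j, f j < b ∧ f j ≠ N / b ^ j % b) →
    ∀ r : Fin 3 → ℕ, (∀ q, t ≤ r q) → (∀ q, 8 * R * r q ≤ (Win (hh b A K) K q).card) →
    ∀ S ⊆ Fintype.piFinset (fun q => powersetCard (r q) (Win (hh b A K) K q)),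
    (∀ T ∈ S, 2 ∣ change b K N f (un T) ∧ ¬ Good ε (change b K N f (un T))) →
    (S.card : ℝ) ≤ ρ * ∏ q, ((Win (hh b A K) K q).card.choose (r q) : ℝ) := by
  classical
  obtain ⟨R, A, hR, hA, hfs⟩ := few_sets b hb
  refine ⟨R, A, hR, hA, fun ε ρ hε hρ => ?_⟩
  obtain ⟨t₀, ht₀⟩ := hfs ε ρ hε hρ
  refine ⟨t₀, fun t ht => ?_⟩
  obtain ⟨k₀, hk₀⟩ := ht₀ t ht
  obtain ⟨k1, hk1⟩ := hh_small b A 4 hb
  refine ⟨k₀ + k1 + 4, fun K hK N hN hN' f hf r hr hr' S hS hSb => ?_⟩
  have hh2 : 4 * hh b A K ≤ K := hk1 K (by omega)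
  set h := hh b A K with hhd
  obtain ⟨W, hW⟩ : ∃ W, W = Win h K := ⟨_, rfl⟩
  rw [← hW] at hr' hS ⊢
  have hWsub : ∀ q, W q ⊆ Ico 1 (K - 1) := fun q => by rw [hW]; exact Win_sub h K q (by omega)
  have hWdisj : ∀ q q', q ≠ q' → Disjoint (W q) (W q') := fun q q' hq => by rw [hW]; exact Win_disj h K q q' (by omega) hq
  have hb1 : 1 ≤ b := by omega
  -- the inner bound
  have hinner : ∀ Z ∈ Fintype.piFinset (fun q => powersetCard (r q - t) (W q)),
      (∑ T ∈ Fintype.piFinset (fun q => powersetCard t (W q \ Z q)), (if (fun q => Z q ∪ T q) ∈ S then (1 : ℝ) else 0)) ≤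
        ρ * ∏ q, (((W q).card - (r q - t)).choose t : ℝ) := by
    intro Z hZ
    rw [Fintype.mem_piFinset] at hZ
    simp only [mem_powersetCard] at hZ
    rw [← sum_filter, sum_const, nsmul_eq_mul, mul_one]
    have hcardJ : ∀ q, (W q \ Z q).card = (W q).card - (r q - t) := fun q => by
      rw [card_sdiff_of_subset (hZ q).1, (hZ q).2]
    simp only [← hcardJ]
    have hZsub : un Z ⊆ range K := by
      intro x hx
      unfold un at hx
      rw [mem_biUnion] at hx
      obtain ⟨q, _, hxq⟩ := hx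
      have := mem_Ico.1 (hWsub q ((hZ q).1 hxq))
      rw [mem_range]; omega
    have hpos : Pos b R K h (fun q => W q \ Z q) := by
      have hc : ∀ q, 8 * R * (W q \ (W q \ Z q)).card ≤ (W q).card := by
        intro q
        refine le_trans (Nat.mul_le_mul_left _ ?_) (hr' q)
        rw [Finset.sdiff_sdiff_eq_self (hZ q).1, (hZ q).2]
        omega
      have w0 : W 0 = Ico 1 (1 + h) := by rw [hW]; rfl
      have w1 : W 1 = Ico (1 + h) (K - 1 - h) := by rw [hW]; rfl
      have w2 : W 2 = Ico (K - 1 - h) (K - 1) := by rw [hW]; rfl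
      have h0 := hc 0
      have h1 := hc 1
      have h2 := hc 2
      constructor
      · rw [← w0]; exact sdiff_subset
      · rw [← w1]; exact sdiff_subset
      · rw [← w2]; exact sdiff_subset
      · rw [← w0]
        refine h0.trans ?_
        rw [w0, Nat.card_Ico]; omega
      · rw [← w1]
        refine h1.trans ?_
        rw [w1, Nat.card_Ico]; omega
      · rw [← w2]
        refine h2.trans ?_
        rw [w2, Nat.card_Ico]; omega
    refine hk₀ K (by omega) (change b K N f (un Z)) (ed b N f) ?_ (fun q => W q \ Z q) hpos _ (filter_subset _ _) ?_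
    · intro j
      have h1 := hf j
      have h2 := Nat.mod_lt (N / b ^ j) hb1
      unfold ed
      constructor
      · intro h3
        apply h1.2
        omega
      · rw [abs_lt]
        constructor <;> omega
    · intro T hT
      rw [mem_filter, Fintype.mem_piFinset] at hT
      simp only [mem_powersetCard] at hT
      obtain ⟨hT1, hT2⟩ := hT
      have hb' := hSb _ hT2
      refine ⟨change b K N f (un fun q => Z q ∪ T q), ?_, hb'.1, ?_, ?_, hb'.2⟩
      · have hsub : un (fun q => Z q ∪ T q) ⊆ range K := by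
          intro x hx
          unfold un at hx
          rw [mem_biUnion] at hx
          obtain ⟨q, _, hxq⟩ := hx
          have h1 : x ∈ W q := by
            rw [mem_union] at hxq
            rcases hxq with hxq | hxq
            · exact (hZ q).1 hxq
            · exact (mem_sdiff.1 ((hT1 q).1 hxq)).1
          have := mem_Ico.1 (hWsub q h1)
          rw [mem_range]; omega
        rw [change_eq b K N hN' f _ hsub, change_eq b K N hN' f _ hZsub, un_sum, un_sum]
        · rw [add_assoc, ← sum_add_distrib]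
          congr 1
          apply sum_congr rfl
          intro q _
          rw [sum_union]
          exact disjoint_of_subset_right (hT1 q).1 disjoint_sdiff
        · intro q q' hq
          exact disjoint_of_subset_left (hZ q).1 (disjoint_of_subset_right (hZ q').1 (hWdisj q q' hq))
        · intro q q' hq
          refine disjoint_of_subset_left (union_subset (hZ q).1 ((hT1 q).1.trans sdiff_subset)) ?_
          exact disjoint_of_subset_right (union_subset (hZ q').1 ((hT1 q').1.trans sdiff_subset)) (hWdisj q q' hq)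
      · obtain ⟨K', hK'⟩ : ∃ K', K = K' + 1 := ⟨K - 1, by omega⟩
        have hnot : K' ∉ un (fun q => Z q ∪ T q) := by
          intro hx
          unfold un at hx
          rw [mem_biUnion] at hx
          obtain ⟨q, _, hxq⟩ := hx
          have h1 : K' ∈ W q := by
            rw [mem_union] at hxq
            rcases hxq with hxq | hxq
            · exact (hZ q).1 hxq
            · exact (mem_sdiff.1 ((hT1 q).1 hxq)).1
          have := mem_Ico.1 (hWsub q h1)
          omega
        rw [hK', Nat.add_sub_cancel] at hN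
        rw [hK'] at hN'
        have := le_change b K' N hb1 hN hN' f _ hnot
        rw [hK', pow_succ, mul_comm]
        exact Nat.mul_le_mul_left _ this
      · exact (change_lt b K N hb1 f (fun j => (hf j).1) _).le
  -- double counting
  have hdc := expose W r t hr (fun T => if T ∈ S then (1 : ℝ) else 0)
  have hL : ∑ T ∈ Fintype.piFinset (fun q => powersetCard (r q) (W q)), ∑ _T ∈ Fintype.piFinset (fun q => powersetCard t (T q)),
      (if T ∈ S then (1 : ℝ) else 0) = S.card * ∏ q, ((r q).choose t : ℝ) := by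
    have h1 : ∀ T ∈ Fintype.piFinset (fun q => powersetCard (r q) (W q)), ∑ _T ∈ Fintype.piFinset (fun q => powersetCard t (T q)),
        (if T ∈ S then (1 : ℝ) else 0) = (if T ∈ S then (1 : ℝ) else 0) * ∏ q, ((r q).choose t : ℝ) := by
      intro T hT
      rw [Fintype.mem_piFinset] at hT
      simp only [mem_powersetCard] at hT
      rw [sum_const, nsmul_eq_mul, mul_comm, Fintype.card_piFinset]
      congr 1
      push_cast
      apply prod_congr rfl
      intro q _
      rw [card_powersetCard, (hT q).2]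
    rw [sum_congr rfl h1, ← sum_mul, ← sum_filter, sum_const, nsmul_eq_mul, mul_one]
    congr 3
    rw [filter_mem_eq_inter]
    exact inter_eq_right.2 hS
  have hRr : ∑ Z ∈ Fintype.piFinset (fun q => powersetCard (r q - t) (W q)), ∑ T ∈ Fintype.piFinset (fun q => powersetCard t (W q \ Z q)),
      (if (fun q => Z q ∪ T q) ∈ S then (1 : ℝ) else 0) ≤
      (∏ q, ((W q).card.choose (r q - t) : ℝ)) * (ρ * ∏ q, (((W q).card - (r q - t)).choose t : ℝ)) := by
    refine (sum_le_card_nsmul _ _ _ hinner).trans (le_of_eq ?_)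
    rw [nsmul_eq_mul, Fintype.card_piFinset]
    congr 1
    push_cast
    apply prod_congr rfl
    intro q _
    rw [card_powersetCard]
  have hid : (∏ q, ((W q).card.choose (r q - t) : ℝ)) * (ρ * ∏ q, (((W q).card - (r q - t)).choose t : ℝ)) =
      (ρ * ∏ q, ((W q).card.choose (r q) : ℝ)) * ∏ q, ((r q).choose t : ℝ) := by
    have h1 : (∏ q, ((W q).card.choose (r q - t) : ℝ)) * (∏ q, (((W q).card - (r q - t)).choose t : ℝ)) =
        (∏ q, ((W q).card.choose (r q) : ℝ)) * ∏ q, ((r q).choose t : ℝ) := by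
      rw [← prod_mul_distrib, ← prod_mul_distrib]
      apply prod_congr rfl
      intro q _
      have hrw : r q ≤ (W q).card := by
        refine le_trans ?_ (hr' q)
        exact Nat.le_mul_of_pos_left _ (by omega)
      have h2 := Nat.choose_mul (n := (W q).card) (Nat.sub_le (r q) t)
      rw [Nat.choose_symm (hr q)] at h2
      have h3 : r q - (r q - t) = t := by have := hr q; omega
      rw [h3] at h2
      exact_mod_cast h2.symm
    linear_combination ρ * h1
  rw [hL] at hdc
  rw [hid, ← hdc] at hRr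
  refine le_of_mul_le_mul_right hRr ?_
  apply prod_pos
  intro q _
  exact_mod_cast Nat.choose_pos (hr q)

end Pool.Agent.TH894.SM
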