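import Pool.Agent.H43.G.R_seed8.TH894.SM8

set_option autoImplicit false

/-! Uniformly distributed sets of positions. -/

namespace Pool.Agent.TH894.SM
open Finset
open Pool.Agent.W93.DG

/-- the number of sets of a given size containing a given set -/
lemma card_superset {W T : Finset ℕ} (hT : T ⊆ W) (r : ℕ) (hr : T.card ≤ r) :
    ((powersetCard r W).filter (fun S => T ⊆ S)).card = (W.card - T.card).choose (r - T.card) := by
  have h1 : ((powersetCard r W).filter (fun S => T ⊆ S)).card = (powersetCard (r - T.card) (W \ T)).card := by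
    apply card_nbij' (fun S => S \ T) (fun Z => Z ∪ T)
    · intro S hS
      rw [mem_coe, mem_filter, mem_powersetCard] at hS
      rw [mem_coe, mem_powersetCard]
      refine ⟨sdiff_subset_sdiff hS.1.1 (subset_refl _), ?_⟩
      rw [card_sdiff_of_subset hS.2, hS.1.2]
    · intro Z hZ
      rw [mem_coe, mem_powersetCard] at hZ
      rw [mem_coe, mem_filter, mem_powersetCard]
      refine ⟨⟨union_subset (hZ.1.trans sdiff_subset) hT, ?_⟩, subset_union_right⟩
      rw [card_union_of_disjoint, hZ.2]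
      · omega
      · exact disjoint_of_subset_left hZ.1 sdiff_disjoint
    · intro S hS
      rw [mem_coe, mem_filter] at hS
      exact sdiff_union_of_subset hS.2
    · intro Z hZ
      rw [mem_coe, mem_powersetCard] at hZ
      show (Z ∪ T) \ T = Z
      rw [union_sdiff_right]
      exact sdiff_eq_self_of_disjoint (disjoint_of_subset_left hZ.1 sdiff_disjoint)
  rw [h1, card_powersetCard, card_sdiff_of_subset hT]

/-- factorial moments -/
lemma fact_moment {W U : Finset ℕ} (hU : U ⊆ W) (r j : ℕ) (hj : j ≤ r) :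
    ∑ S ∈ powersetCard r W, (S ∩ U).card.choose j = U.card.choose j * (W.card - j).choose (r - j) := by
  have h1 : ∀ S ∈ powersetCard r W, (S ∩ U).card.choose j = ∑ T ∈ powersetCard j U, if T ⊆ S then 1 else 0 := by
    intro S _
    rw [← card_powersetCard, ← card_filter]
    congr 1
    ext T
    simp only [mem_powersetCard, mem_filter, subset_inter_iff]
    tauto
  rw [sum_congr rfl h1, sum_comm]
  have h2 : ∀ T ∈ powersetCard j U, ∑ S ∈ powersetCard r W, (if T ⊆ S then 1 else 0) = (W.card - j).choose (r - j) := by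
    intro T hT
    rw [mem_powersetCard] at hT
    rw [← card_filter, card_superset (hT.1.trans hU) r (by rw [hT.2]; exact hj), hT.2]
  rw [sum_congr rfl h2, sum_const, card_powersetCard, smul_eq_mul]

lemma hyp_alg (u w r C0 C1 C2 : ℝ) (hw2 : 2 ≤ w) (hr2 : 2 ≤ r) (huw' : u ≤ w) (hu0 : 0 ≤ u) (hC0p : 0 ≤ C0)
    (hC1 : w * C1 = r * C0) (hC2 : (w - 1) * C2 = (r - 1) * C1) :
    2 * (u * (u - 1) / 2 * C2) + u * C1 - 2 * (r * u / w) * (u * C1) + (r * u / w) ^ 2 * C0 ≤ (r * u / w) * C0 := by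
  have hw0 : (0 : ℝ) < w := by linarith
  have e1 : C1 = r * C0 / w := by
    field_simp
    linarith
  have hw1 : (0 : ℝ) < w - 1 := by linarith
  have e2 : C2 = (r - 1) * (r * C0 / w) / (w - 1) := by
    rw [← e1]
    field_simp
    linarith
  have key : u * (u - 1) * C2 ≤ (r * u / w) ^ 2 * C0 := by
    rw [e2]
    have k1 : (u - 1) / (w - 1) ≤ u / w := by
      rw [div_le_div_iff₀ hw1 hw0]
      nlinarith
    have k2 : u * (u - 1) * ((r - 1) * (r * C0 / w) / (w - 1)) = (u * (r - 1) * r * C0 / w) * ((u - 1) / (w - 1)) := by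
      field_simp
    rw [k2]
    have k3 : (u * (r - 1) * r * C0 / w) * ((u - 1) / (w - 1)) ≤ (u * (r - 1) * r * C0 / w) * (u / w) := by
      apply mul_le_mul_of_nonneg_left k1
      have : (0 : ℝ) ≤ r - 1 := by linarith
      positivity
    refine k3.trans ?_
    have k4 : (r * u / w : ℝ) ^ 2 * C0 - (u * (r - 1) * r * C0 / w) * (u / w) = r * u ^ 2 * C0 / w ^ 2 := by
      field_simp
      ring
    have k5 : (0 : ℝ) ≤ r * u ^ 2 * C0 / w ^ 2 := by positivity
    linarith
  have e3 : u * C1 = (r * u / w : ℝ) * C0 := by rw [e1]; ring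
  have e4 : 2 * (r * u / w) * (u * C1) = 2 * ((r * u / w) ^ 2 * C0) := by rw [e3]; ring
  have e5 : 2 * (u * (u - 1) / 2 * C2) = u * (u - 1) * C2 := by ring
  rw [e4, e5, e3]
  linarith

/-- the variance of the hypergeometric distribution -/
lemma hyp_var {W U : Finset ℕ} (hU : U ⊆ W) (r : ℕ) (hr : 2 ≤ r) (hrW : r ≤ W.card) :
    ∑ S ∈ powersetCard r W, (((S ∩ U).card : ℝ) - r * U.card / W.card) ^ 2 ≤
      (r * U.card / W.card : ℝ) * (W.card.choose r : ℝ) := by
  obtain ⟨u, hu⟩ : ∃ u, u = U.card := ⟨_, rfl⟩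
  obtain ⟨w, hw⟩ : ∃ w, w = W.card := ⟨_, rfl⟩
  have huw : u ≤ w := by rw [hu, hw]; exact card_le_card hU
  have m1 := fact_moment hU r 1 (by omega)
  have m2 := fact_moment hU r 2 hr
  rw [← hu, ← hw] at m1 m2 ⊢
  rw [← hw] at hrW
  have c0 : ∑ S ∈ powersetCard r W, (1 : ℝ) = (w.choose r : ℝ) := by
    rw [sum_const, card_powersetCard, nsmul_eq_mul, mul_one, ← hw]
  simp only [Nat.choose_one_right] at m1
  have M1 : ∑ S ∈ powersetCard r W, ((S ∩ U).card : ℝ) = u * ((w - 1).choose (r - 1) : ℝ) := by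
    exact_mod_cast m1
  have M2 : ∑ S ∈ powersetCard r W, (((S ∩ U).card.choose 2 : ℕ) : ℝ) = (u.choose 2 : ℝ) * ((w - 2).choose (r - 2) : ℝ) := by
    exact_mod_cast m2
  have hsq : ∀ x : ℕ, ((x : ℝ)) ^ 2 = 2 * ((x.choose 2 : ℕ) : ℝ) + x := by
    intro x
    rw [Nat.cast_choose_two]
    ring
  have hC1 : (w : ℝ) * ((w - 1).choose (r - 1) : ℝ) = r * (w.choose r : ℝ) := by
    have := Nat.add_one_mul_choose_eq (w - 1) (r - 1)
    rw [Nat.sub_add_cancel (by omega : 1 ≤ w), Nat.sub_add_cancel (by omega : 1 ≤ r)] at this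
    have h2 : ((w * (w - 1).choose (r - 1) : ℕ) : ℝ) = ((w.choose r * r : ℕ) : ℝ) := by rw [this]
    push_cast at h2
    linarith
  have hC2 : ((w : ℝ) - 1) * ((w - 2).choose (r - 2) : ℝ) = (r - 1) * ((w - 1).choose (r - 1) : ℝ) := by
    have := Nat.add_one_mul_choose_eq (w - 2) (r - 2)
    have e1 : w - 2 + 1 = w - 1 := by omega
    have e2 : r - 2 + 1 = r - 1 := by omega
    rw [e1, e2] at this
    have h2 : (((w - 1 : ℕ) * (w - 2).choose (r - 2) : ℕ) : ℝ) = (((w - 1).choose (r - 1) * (r - 1 : ℕ) : ℕ) : ℝ) := by rw [this]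
    push_cast [Nat.cast_sub (by omega : 1 ≤ w), Nat.cast_sub (by omega : 1 ≤ r)] at h2
    linarith
  have hexp : ∑ S ∈ powersetCard r W, (((S ∩ U).card : ℝ) - r * u / w) ^ 2 =
      2 * ((u.choose 2 : ℝ) * ((w - 2).choose (r - 2) : ℝ)) + u * ((w - 1).choose (r - 1) : ℝ) -
        2 * (r * u / w) * (u * ((w - 1).choose (r - 1) : ℝ)) + (r * u / w) ^ 2 * (w.choose r : ℝ) := by
    rw [← M1, ← M2, ← c0, mul_sum, mul_sum, mul_sum, ← sum_add_distrib, ← sum_sub_distrib, ← sum_add_distrib]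
    apply sum_congr rfl
    intro S _
    have := hsq (S ∩ U).card
    linear_combination this
  rw [hexp, Nat.cast_choose_two]
  exact hyp_alg u w r _ _ _ (by exact_mod_cast (by omega : 2 ≤ w)) (by exact_mod_cast hr) (by exact_mod_cast huw) (Nat.cast_nonneg _)
    (Nat.cast_nonneg _) hC1 hC2

/-- concentration -/
lemma hyp_dev {W U : Finset ℕ} (hU : U ⊆ W) (r : ℕ) (hr : 2 ≤ r) (hrW : r ≤ W.card) (μ : ℝ) (hμ : μ = r * U.card / W.card) (hμ0 : 0 < μ) :
    (((powersetCard r W).filter (fun S => ¬ (μ / 2 ≤ ((S ∩ U).card : ℝ) ∧ ((S ∩ U).card : ℝ) ≤ 3 * μ / 2))).card : ℝ) ≤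
      4 / μ * (W.card.choose r : ℝ) := by
  have h1 := hyp_var hU r hr hrW
  rw [← hμ] at h1
  have h2 : (((powersetCard r W).filter (fun S => ¬ (μ / 2 ≤ ((S ∩ U).card : ℝ) ∧ ((S ∩ U).card : ℝ) ≤ 3 * μ / 2))).card : ℝ) * (μ / 2) ^ 2 ≤
      ∑ S ∈ powersetCard r W, (((S ∩ U).card : ℝ) - μ) ^ 2 := by
    rw [← nsmul_eq_mul]
    refine (card_nsmul_le_sum _ _ _ ?_).trans (sum_le_sum_of_subset_of_nonneg (filter_subset _ _) fun S _ _ => sq_nonneg _)
    intro S hS
    rw [mem_filter] at hS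
    rw [sq_le_sq, abs_of_pos (by positivity : 0 < μ / 2)]
    by_contra hcon
    push_neg at hcon
    rw [abs_lt] at hcon
    exact hS.2 ⟨by linarith, by linarith⟩
  have h3 := h2.trans h1
  rw [div_mul_eq_mul_div, le_div_iff₀ hμ0]
  have h4 : ((((powersetCard r W).filter (fun S => ¬ (μ / 2 ≤ ((S ∩ U).card : ℝ) ∧ ((S ∩ U).card : ℝ) ≤ 3 * μ / 2))).card : ℝ) * μ) * (μ / 4) ≤
      (4 * (W.card.choose r : ℝ)) * (μ / 4) := by
    calc _ = (((powersetCard r W).filter (fun S => ¬ (μ / 2 ≤ ((S ∩ U).card : ℝ) ∧ ((S ∩ U).card : ℝ) ≤ 3 * μ / 2))).card : ℝ) * (μ / 2) ^ 2 := by ring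
      _ ≤ μ * (W.card.choose r : ℝ) := h3
      _ = _ := by ring
  exact le_of_mul_le_mul_right h4 (by positivity)

/-- the type of a set of positions, and the fibres -/
lemma fibre_card (W : Fin 3 → Finset ℕ) (V : Finset ℕ) (hV : un W = V) (hdisj : ∀ q q', q ≠ q' → Disjoint (W q) (W q')) (r : ℕ)
    (τ : Fin 3 → ℕ) (hτ : ∑ q, τ q = r) :
    ∏ q, (W q).card.choose (τ q) ≤ ((powersetCard r V).filter (fun S => (fun q => (S ∩ W q).card) = τ)).card := by
  classical
  have h1 : ∏ q, (W q).card.choose (τ q) = (Fintype.piFinset (fun q => powersetCard (τ q) (W q))).card := by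
    rw [Fintype.card_piFinset]
    simp only [card_powersetCard]
  rw [h1]
  have hinter : ∀ T ∈ Fintype.piFinset (fun q => powersetCard (τ q) (W q)), ∀ q, un T ∩ W q = T q := by
    intro T hT q
    rw [Fintype.mem_piFinset] at hT
    simp only [mem_powersetCard] at hT
    ext x
    unfold un
    simp only [mem_inter, mem_biUnion, mem_univ, true_and]
    constructor
    · rintro ⟨⟨q', hq'⟩, hx⟩
      by_cases hqq : q' = q
      · rw [← hqq]; exact hq'
      · exact absurd hx (Finset.disjoint_left.1 (hdisj q' q hqq) ((hT q').1 hq'))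
    · intro hx
      exact ⟨⟨q, hx⟩, (hT q).1 hx⟩
  apply card_le_card_of_injOn un
  · intro T hT
    have hT' := hT
    rw [mem_coe, Fintype.mem_piFinset] at hT
    simp only [mem_powersetCard] at hT
    rw [mem_coe, mem_filter, mem_powersetCard]
    refine ⟨⟨?_, ?_⟩, ?_⟩
    · rw [← hV]
      exact biUnion_mono fun q _ => (hT q).1
    · unfold un
      rw [card_biUnion]
      · rw [← hτ]
        exact sum_congr rfl fun q _ => (hT q).2
      · intro q _ q' _ hq
        exact disjoint_of_subset_left (hT q).1 (disjoint_of_subset_right (hT q').1 (hdisj q q' hq))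
    · funext q
      rw [hinter T (by rw [mem_coe] at hT'; exact hT') q]
      exact (hT q).2
  · intro T hT T' hT' h
    funext q
    rw [← hinter T (by exact_mod_cast hT) q, ← hinter T' (by exact_mod_cast hT') q, h]

lemma un_inter (W : Fin 3 → Finset ℕ) (V S : Finset ℕ) (hV : un W = V) (hS : S ⊆ V) : un (fun q => S ∩ W q) = S := by
  ext x
  unfold un
  simp only [mem_biUnion, mem_univ, true_and, mem_inter]
  constructor
  · rintro ⟨q, h, _⟩
    exact h
  · intro hx
    have := hS hx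
    rw [← hV] at this
    unfold un at this
    rw [mem_biUnion] at this
    obtain ⟨q, _, hq⟩ := this
    exact ⟨q, hx, hq⟩

lemma un_Win (h K : ℕ) (hK : 2 * h + 2 ≤ K) : un (Win h K) = Ico 1 (K - 1) := by
  ext x
  unfold un
  simp only [mem_biUnion, mem_univ, true_and, mem_Ico]
  constructor
  · rintro ⟨q, hq⟩
    exact mem_Ico.1 (Win_sub h K q hK hq)
  · intro hx
    by_cases h1 : x < 1 + h
    · refine ⟨0, ?_⟩
      unfold Win
      rw [if_pos rfl, mem_Ico]
      omega
    · by_cases h2 : x < K - 1 - h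
      · refine ⟨1, ?_⟩
        unfold Win
        rw [if_neg (by decide), if_pos rfl, mem_Ico]
        omega
      · refine ⟨2, ?_⟩
        unfold Win
        rw [if_neg (by decide), if_neg (by decide), mem_Ico]
        omega

end Pool.Agent.TH894.SM
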